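import Pool.Agent.Lib.MP_1a4606_ag.Basic

/-!
# Arcs and separation (MP_1a4606_ag): a Budan–Fourier lemma
-/

set_option autoImplicit false

open Filter Topology MvPolynomial

namespace Pool.Agent.SepArc

/-- polynomials are bounded and Lipschitz on the unit ball -/
lemma poly_lip (g : Poly) : ∃ L > (0 : ℝ), ∀ x y : Pt, ‖x‖ ≤ 1 → ‖y‖ ≤ 1 →
    |eval x g| ≤ L ∧ |eval x g - eval y g| ≤ L * ‖x - y‖ := by
  induction g using MvPolynomial.induction_on with
  | C a =>
    refine ⟨|a| + 1, by positivity, fun x y _ _ => ?_⟩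
    rw [eval_C, eval_C]
    constructor
    · linarith
    · rw [sub_self, abs_zero]
      positivity
  | add g h hg hh =>
    obtain ⟨L, hL, h1⟩ := hg
    obtain ⟨M, hM, h2⟩ := hh
    refine ⟨L + M, by positivity, fun x y hx hy => ?_⟩
    rw [map_add, map_add]
    constructor
    · exact (abs_add_le _ _).trans (add_le_add (h1 x y hx hy).1 (h2 x y hx hy).1)
    · rw [add_sub_add_comm, add_mul]
      exact (abs_add_le _ _).trans (add_le_add (h1 x y hx hy).2 (h2 x y hx hy).2)
  | mul_X g i hg =>
    obtain ⟨L, hL, h1⟩ := hg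
    refine ⟨2 * L, by positivity, fun x y hx hy => ?_⟩
    rw [map_mul, map_mul, eval_X, eval_X]
    have hxi : |x i| ≤ 1 := (norm_le_pi_norm x i).trans hx
    have hyi : |y i| ≤ 1 := (norm_le_pi_norm y i).trans hy
    have hxyi : |x i - y i| ≤ ‖x - y‖ := norm_le_pi_norm (x - y) i
    obtain ⟨h2, h3⟩ := h1 x y hx hy
    obtain ⟨h4, _⟩ := h1 y x hy hx
    constructor
    · rw [abs_mul]
      calc |eval x g| * |x i| ≤ L * 1 := mul_le_mul h2 hxi (abs_nonneg _) hL.le
        _ ≤ 2 * L := by linarith
    · have e : eval x g * x i - eval y g * y i =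
          (eval x g - eval y g) * x i + eval y g * (x i - y i) := by ring
      rw [e]
      refine (abs_add_le _ _).trans ?_
      rw [abs_mul, abs_mul]
      have e1 : |eval x g - eval y g| * |x i| ≤ (L * ‖x - y‖) * 1 :=
        mul_le_mul h3 hxi (abs_nonneg _) (by positivity)
      have e2 : |eval y g| * |x i - y i| ≤ L * ‖x - y‖ :=
        mul_le_mul h4 hxyi (abs_nonneg _) hL.le
      linarith

lemma iterate_pderiv_zero (j : Fin 3) (n : ℕ) : (pderiv j)^[n] (0 : Poly) = 0 := by
  induction n with
  | zero => rfl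
  | succ n ih => rw [Function.iterate_succ_apply', ih, map_zero]

lemma iterate_pderiv_add (j : Fin 3) (n : ℕ) (g h : Poly) :
    (pderiv j)^[n] (g + h) = (pderiv j)^[n] g + (pderiv j)^[n] h := by
  induction n with
  | zero => rfl
  | succ n ih =>
    rw [Function.iterate_succ_apply', Function.iterate_succ_apply', Function.iterate_succ_apply',
      ih, map_add]


lemma leibniz_X (j i : Fin 3) (g : Poly) (n : ℕ) :
    (pderiv j)^[n + 1] (g * X i) = (pderiv j)^[n + 1] g * X i +
      (n + 1 : Poly) * (pderiv j)^[n] g * pderiv j (X i) := by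
  have hXX : pderiv j (pderiv j (X i : Poly)) = 0 := by
    rw [pderiv_X]
    by_cases h : i = j
    · subst h
      simp
    · simp [h]
  induction n with
  | zero =>
    simp only [Function.iterate_succ, Function.iterate_zero, Function.comp, id]
    rw [Derivation.leibniz]
    simp only [smul_eq_mul]
    push_cast
    ring
  | succ n ih =>
    rw [Function.iterate_succ_apply', ih, map_add, Derivation.leibniz, Derivation.leibniz, hXX]
    rw [Derivation.leibniz]
    have hn : pderiv j ((n : Poly) + 1) = 0 := by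
      rw [show ((n : Poly) + 1) = C ((n : ℝ) + 1) by simp]
      exact pderiv_C
    rw [hn]
    simp only [smul_eq_mul, ← Function.iterate_succ_apply' (pderiv j)]
    push_cast
    ring

lemma exists_iterate_pderiv (j : Fin 3) (g : Poly) : ∃ n, (pderiv j)^[n] g = 0 := by
  induction g using MvPolynomial.induction_on with
  | C a => exact ⟨1, by simp⟩
  | add g h hg hh =>
    obtain ⟨n, hn⟩ := hg
    obtain ⟨m, hm⟩ := hh
    refine ⟨n + m, ?_⟩
    rw [iterate_pderiv_add]
    have h1 : (pderiv j)^[n + m] g = 0 := by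
      rw [add_comm n m, Function.iterate_add_apply, hn, iterate_pderiv_zero]
    have h2 : (pderiv j)^[n + m] h = 0 := by
      rw [Function.iterate_add_apply, hm, iterate_pderiv_zero]
    rw [h1, h2, add_zero]
  | mul_X g i hg =>
    obtain ⟨n, hn⟩ := hg
    refine ⟨n + 1, ?_⟩
    rw [leibniz_X, Function.iterate_succ_apply', hn]
    simp

lemma lip_all (j : Fin 3) : ∀ (n : ℕ) (g : Poly), (pderiv j)^[n] g = 0 →
    ∃ L > (0 : ℝ), ∀ k : ℕ, ∀ x y : Pt, ‖x‖ ≤ 1 → ‖y‖ ≤ 1 →
      |eval x ((pderiv j)^[k] g)| ≤ L ∧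
      |eval x ((pderiv j)^[k] g) - eval y ((pderiv j)^[k] g)| ≤ L * ‖x - y‖ := by
  intro n
  induction n with
  | zero =>
    intro g hg
    have hg' : g = 0 := hg
    subst hg'
    refine ⟨1, one_pos, fun k x y _ _ => ?_⟩
    rw [iterate_pderiv_zero]
    simp
  | succ n ih =>
    intro g hg
    obtain ⟨L, hL, h1⟩ := ih (pderiv j g) hg
    obtain ⟨M, hM, h2⟩ := poly_lip g
    refine ⟨L + M, by positivity, fun k x y hx hy => ?_⟩
    rw [add_mul]
    have h5 : 0 ≤ L * ‖x - y‖ := by positivity
    have h6 : 0 ≤ M * ‖x - y‖ := by positivity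
    cases k with
    | zero =>
      obtain ⟨h3, h4⟩ := h2 x y hx hy
      simp only [Function.iterate_zero, id]
      constructor <;> linarith
    | succ k =>
      obtain ⟨h3, h4⟩ := h1 k x y hx hy
      rw [Function.iterate_succ_apply]
      constructor <;> linarith

/-- derivative along a coordinate line -/
lemma hasDerivAt_line (g : Poly) (p : Pt) (j : Fin 3) (x : ℝ) :
    HasDerivAt (fun x => eval (Function.update p j x) g)
      (eval (Function.update p j x) (pderiv j g)) x := by
  induction g using MvPolynomial.induction_on with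
  | C a =>
    simp only [eval_C, pderiv_C, map_zero]
    exact hasDerivAt_const x a
  | add g h hg hh =>
    simp only [map_add]
    exact hg.add hh
  | mul_X g i hg =>
    have h1 : HasDerivAt (fun x => (Function.update p j x) i)
        (eval (Function.update p j x) (pderiv j (X i : Poly))) x := by
      by_cases h : i = j
      · subst h
        simp only [Function.update_self, pderiv_X_self, map_one]
        exact hasDerivAt_id x
      · simp only [Function.update_of_ne h, pderiv_X_of_ne h, map_zero]
        exact hasDerivAt_const x _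
    have h2 := hg.mul h1
    simp only [map_mul, eval_X, Derivation.leibniz, smul_eq_mul, map_add]
    refine h2.congr_deriv ?_
    ring

lemma hasDerivAt_seg (g : Poly) (p : Pt) (j : Fin 3) (a b u : ℝ) :
    HasDerivAt (fun u => eval (Function.update p j (a + u * (b - a))) g)
      ((b - a) * eval (Function.update p j (a + u * (b - a))) (pderiv j g)) u := by
  have h1 : HasDerivAt (fun u : ℝ => a + u * (b - a)) (b - a) u := by
    have := ((hasDerivAt_id u).mul_const (b - a)).const_add a
    simpa using this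
  have h2 := (hasDerivAt_line g p j (a + u * (b - a))).comp u h1
  refine h2.congr_deriv ?_
  ring

lemma mono_aux {F F' : ℝ → ℝ} (hF : ∀ u, HasDerivAt F (F' u) u) {K : ℝ} (hK : 0 ≤ K)
    (h : ∀ u ∈ Set.Icc (0 : ℝ) 1, -K ≤ F' u) :
    ∀ u ∈ Set.Icc (0 : ℝ) 1, F 0 - K ≤ F u ∧ F u ≤ F 1 + K := by
  have hG : ∀ u, HasDerivAt (fun u => F u + K * u) (F' u + K) u := by
    intro u
    have := (hF u).add ((hasDerivAt_id u).const_mul K)
    refine this.congr_deriv ?_
    simp
  have hm : MonotoneOn (fun u => F u + K * u) (Set.Icc 0 1) := by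
    apply monotoneOn_of_deriv_nonneg (convex_Icc 0 1)
    · exact fun u _ => (hG u).continuousAt.continuousWithinAt
    · exact fun u _ => (hG u).differentiableAt.differentiableWithinAt
    · intro u hu
      rw [interior_Icc] at hu
      rw [(hG u).deriv]
      linarith [h u ⟨hu.1.le, hu.2.le⟩]
  intro u hu
  have h1 := hm (Set.left_mem_Icc.mpr zero_le_one) hu hu.1
  have h2 := hm hu (Set.right_mem_Icc.mpr zero_le_one) hu.2
  simp only at h1 h2
  have h3 : K * u ≤ K := by nlinarith [hu.2]
  have h4 : 0 ≤ K * u := mul_nonneg hK hu.1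
  constructor <;> linarith

lemma mono_aux' {F F' : ℝ → ℝ} (hF : ∀ u, HasDerivAt F (F' u) u) {K : ℝ} (hK : 0 ≤ K)
    (h : (∀ u ∈ Set.Icc (0 : ℝ) 1, -K ≤ F' u) ∨ (∀ u ∈ Set.Icc (0 : ℝ) 1, F' u ≤ K)) :
    (∀ u ∈ Set.Icc (0 : ℝ) 1, F 0 - K ≤ F u ∧ F u ≤ F 1 + K) ∨
    (∀ u ∈ Set.Icc (0 : ℝ) 1, F 1 - K ≤ F u ∧ F u ≤ F 0 + K) := by
  rcases h with h | h
  · exact Or.inl (mono_aux hF hK h)
  · right
    have h1 := mono_aux (F := fun u => -F u) (F' := fun u => -F' u) (fun u => (hF u).neg) hK
      (fun u hu => by linarith [h u hu])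
    intro u hu
    obtain ⟨h2, h3⟩ := h1 u hu
    constructor <;> linarith

/-- approximate Budan–Fourier lemma -/
lemma bf_aux (j : Fin 3) : ∀ (n : ℕ) (g : Poly), (pderiv j)^[n] g = 0 →
    ∃ C : ℝ, 0 ≤ C ∧ ∀ (p : Pt) (a b : ℝ), |b - a| ≤ 2 → ∀ η : ℝ, 0 ≤ η →
      (∀ k : ℕ, |eval (Function.update p j a) ((pderiv j)^[k] g)| ≤ η ∨
        (0 ≤ eval (Function.update p j a) ((pderiv j)^[k] g) ∧
          0 ≤ eval (Function.update p j b) ((pderiv j)^[k] g)) ∨
        (eval (Function.update p j a) ((pderiv j)^[k] g) ≤ 0 ∧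
          eval (Function.update p j b) ((pderiv j)^[k] g) ≤ 0)) →
      (∀ u ∈ Set.Icc (0 : ℝ) 1, -(C * η) ≤ eval (Function.update p j (a + u * (b - a))) g) ∨
      (∀ u ∈ Set.Icc (0 : ℝ) 1, eval (Function.update p j (a + u * (b - a))) g ≤ C * η) := by
  intro n
  induction n with
  | zero =>
    intro g hg
    have hg' : g = 0 := hg
    subst hg'
    refine ⟨0, le_refl 0, fun p a b _ η _ _ => Or.inl fun u _ => ?_⟩
    simp
  | succ n ih =>
    intro g hg
    obtain ⟨C, hC, h1⟩ := ih (pderiv j g) hg
    refine ⟨2 * C + 1, by positivity, fun p a b hab η hη hk => ?_⟩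
    have h2 := h1 p a b hab η hη (fun k => hk (k + 1))
    have hK : 0 ≤ 2 * (C * η) := by positivity
    have hba := abs_le.mp hab
    have h3 : (∀ u ∈ Set.Icc (0 : ℝ) 1, -(2 * (C * η)) ≤
          (b - a) * eval (Function.update p j (a + u * (b - a))) (pderiv j g)) ∨
        (∀ u ∈ Set.Icc (0 : ℝ) 1,
          (b - a) * eval (Function.update p j (a + u * (b - a))) (pderiv j g) ≤
            2 * (C * η)) := by
      have hCη : 0 ≤ C * η := by positivity
      rcases le_total 0 (b - a) with h4 | h4
      · rcases h2 with h2 | h2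
        · left
          intro u hu
          have := mul_le_mul_of_nonneg_left (h2 u hu) h4
          nlinarith
        · right
          intro u hu
          have := mul_le_mul_of_nonneg_left (h2 u hu) h4
          nlinarith
      · rcases h2 with h2 | h2
        · right
          intro u hu
          have := mul_le_mul_of_nonneg_left (h2 u hu) (neg_nonneg.mpr h4)
          nlinarith
        · left
          intro u hu
          have := mul_le_mul_of_nonneg_left (h2 u hu) (neg_nonneg.mpr h4)
          nlinarith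
    have h4 := mono_aux' (hasDerivAt_seg g p j a b) hK h3
    have h5 := hk 0
    simp only [Function.iterate_zero, id, zero_mul, add_zero, one_mul, add_sub_cancel] at h4 h5
    rcases h5 with h5 | ⟨h5, h6⟩ | ⟨h5, h6⟩
    · obtain ⟨h7, h8⟩ := abs_le.mp h5
      rcases h4 with h4 | h4
      · left
        intro u hu
        obtain ⟨h9, h10⟩ := h4 u hu
        linarith
      · right
        intro u hu
        obtain ⟨h9, h10⟩ := h4 u hu
        linarith
    · left
      intro u hu
      rcases h4 with h4 | h4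
      · obtain ⟨h9, h10⟩ := h4 u hu
        linarith
      · obtain ⟨h9, h10⟩ := h4 u hu
        linarith
    · right
      intro u hu
      rcases h4 with h4 | h4
      · obtain ⟨h9, h10⟩ := h4 u hu
        linarith
      · obtain ⟨h9, h10⟩ := h4 u hu
        linarith

/-- a short slide preserves positivity -/
lemma conn_slide {f : Poly} {L : ℝ} (hL : 0 < L)
    (hlip : ∀ x y : Pt, ‖x‖ ≤ 1 → ‖y‖ ≤ 1 → |eval x f - eval y f| ≤ L * ‖x - y‖)
    {p p' : Pt} (hp : ‖p‖ ≤ 1) (hp' : ‖p'‖ ≤ 1) (h : L * ‖p - p'‖ < eval p f) :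
    Conn f p p' := by
  apply conn_segment
  intro x hx
  have hx1 : ‖x‖ ≤ 1 := by
    have h1 : segment ℝ p p' ⊆ Metric.closedBall 0 1 :=
      (convex_closedBall (0 : Pt) 1).segment_subset (by simpa using hp) (by simpa using hp')
    simpa using h1 hx
  have h2 : ‖p - x‖ ≤ ‖p - p'‖ := by
    obtain ⟨a, b, ha, hb, hab, rfl⟩ := hx
    have : p - (a • p + b • p') = b • (p - p') := by
      have : a = 1 - b := by linarith
      subst this
      module
    rw [this, norm_smul, Real.norm_of_nonneg hb]
    have : b ≤ 1 := by linarith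
    exact mul_le_of_le_one_left (norm_nonneg _) this
  have h3 := (abs_le.mp (hlip p x hp hx1)).2
  have h4 : L * ‖p - x‖ ≤ L * ‖p - p'‖ := mul_le_mul_of_nonneg_left h2 hL.le
  linarith

/-- the slice lemma: two points which can be slid to a common line in direction `j` are connected
when the derivatives in that direction agree in sign -/
lemma slice (f : Poly) (j : Fin 3) (c : ℝ) (hc : 0 < c) : ∃ ε > (0 : ℝ), ∀ p q p' q' : Pt,
    ‖p‖ ≤ 1 / 2 → ‖q‖ ≤ 1 / 2 → (∀ i, i ≠ j → p' i = q' i) →
    0 < eval p f → 0 < eval q f →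
    ‖p - p'‖ ≤ ε * eval p f → ‖q - q'‖ ≤ ε * eval q f →
    (∀ k : ℕ, 1 ≤ k → (|eval p ((pderiv j)^[k] f)| ≤ ε * eval p f ∧
        |eval q ((pderiv j)^[k] f)| ≤ ε * eval q f) ∨
      (c * eval p f ≤ eval p ((pderiv j)^[k] f) ∧ c * eval q f ≤ eval q ((pderiv j)^[k] f)) ∨
      (c * eval p f ≤ -eval p ((pderiv j)^[k] f) ∧
        c * eval q f ≤ -eval q ((pderiv j)^[k] f))) →
    Conn f p q := by
  obtain ⟨n, hn⟩ := exists_iterate_pderiv j f
  obtain ⟨L, hL, hlip⟩ := lip_all j n f hn
  have hn' : (pderiv j)^[n] (pderiv j f) = 0 := by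
    rw [← Function.iterate_succ_apply, Function.iterate_succ_apply', hn, map_zero]
  obtain ⟨C, hC, hbf⟩ := bf_aux j n (pderiv j f) hn'
  -- the constant
  set D : ℝ := 2 * (C * (1 + L)) with hD
  have hD0 : 0 ≤ D := by positivity
  obtain ⟨ε, hε, h1, h2, h3⟩ : ∃ ε > (0 : ℝ), L * ε ≤ 1 / 4 ∧ L * ε ≤ c ∧ D * ε ≤ 1 / 4 := by
    have h1 : 0 < 1 / (4 * (L + 1)) := by positivity
    have h2 : 0 < c / (L + 1) := by positivity
    have h3 : 0 < 1 / (4 * (D + 1)) := by positivity
    refine ⟨min (1 / (4 * (L + 1))) (min (c / (L + 1)) (1 / (4 * (D + 1)))),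
      lt_min h1 (lt_min h2 h3), ?_, ?_, ?_⟩
    · calc L * min (1 / (4 * (L + 1))) (min (c / (L + 1)) (1 / (4 * (D + 1))))
          ≤ (L + 1) * (1 / (4 * (L + 1))) :=
            mul_le_mul (by linarith) (min_le_left _ _) (lt_min h1 (lt_min h2 h3)).le
              (by positivity)
        _ = 1 / 4 := by field_simp
    · calc L * min (1 / (4 * (L + 1))) (min (c / (L + 1)) (1 / (4 * (D + 1))))
          ≤ (L + 1) * (c / (L + 1)) :=
            mul_le_mul (by linarith) ((min_le_right _ _).trans (min_le_left _ _))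
              (lt_min h1 (lt_min h2 h3)).le (by positivity)
        _ = c := by field_simp
    · calc D * min (1 / (4 * (L + 1))) (min (c / (L + 1)) (1 / (4 * (D + 1))))
          ≤ (D + 1) * (1 / (4 * (D + 1))) :=
            mul_le_mul (by linarith) ((min_le_right _ _).trans (min_le_right _ _))
              (lt_min h1 (lt_min h2 h3)).le (by positivity)
        _ = 1 / 4 := by field_simp
  refine ⟨ε, hε, ?_⟩
  -- reduction to `f p ≤ f q`
  have main : ∀ p q p' q' : Pt,
      ‖p‖ ≤ 1 / 2 → ‖q‖ ≤ 1 / 2 → (∀ i, i ≠ j → p' i = q' i) →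
      0 < eval p f → 0 < eval q f → eval p f ≤ eval q f →
      ‖p - p'‖ ≤ ε * eval p f → ‖q - q'‖ ≤ ε * eval q f →
      (∀ k : ℕ, 1 ≤ k → (|eval p ((pderiv j)^[k] f)| ≤ ε * eval p f ∧
          |eval q ((pderiv j)^[k] f)| ≤ ε * eval q f) ∨
        (c * eval p f ≤ eval p ((pderiv j)^[k] f) ∧
          c * eval q f ≤ eval q ((pderiv j)^[k] f)) ∨
        (c * eval p f ≤ -eval p ((pderiv j)^[k] f) ∧
          c * eval q f ≤ -eval q ((pderiv j)^[k] f))) →
      Conn f p q := by
    intro p q p' q' hp hq hpq' hfp hfq hfpq hpp hqq hk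
    have slide : ∀ r r' : Pt, ‖r‖ ≤ 1 / 2 → 0 < eval r f → ‖r - r'‖ ≤ ε * eval r f →
        ‖r'‖ ≤ 1 ∧ Conn f r r' := by
      intro r r' hr hfr hrr
      have e0 : eval r f ≤ L := (le_abs_self _).trans (hlip 0 r r (by linarith) (by linarith)).1
      have e1 : ‖r - r'‖ ≤ 1 / 4 := by
        refine hrr.trans ?_
        calc ε * eval r f ≤ ε * L := mul_le_mul_of_nonneg_left e0 hε.le
          _ ≤ 1 / 4 := by linarith
      have e2 : ‖r'‖ ≤ 1 := by
        have : r' = r - (r - r') := by abel
        rw [this]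
        refine (norm_sub_le _ _).trans ?_
        linarith
      refine ⟨e2, conn_slide hL (fun x y hx hy => (hlip 0 x y hx hy).2) (by linarith) e2 ?_⟩
      calc L * ‖r - r'‖ ≤ L * (ε * eval r f) := mul_le_mul_of_nonneg_left hrr hL.le
        _ = (L * ε) * eval r f := by ring
        _ ≤ 1 / 4 * eval r f := mul_le_mul_of_nonneg_right h1 hfr.le
        _ < eval r f := by linarith
    obtain ⟨hp'1, hcp⟩ := slide p p' hp hfp hpp
    obtain ⟨hq'1, hcq⟩ := slide q q' hq hfq hqq
    -- Lipschitz transfer
    have tr : ∀ r r' : Pt, ‖r‖ ≤ 1 / 2 → ‖r'‖ ≤ 1 → 0 < eval r f → ‖r - r'‖ ≤ ε * eval r f →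
        ∀ k, |eval r' ((pderiv j)^[k] f) - eval r ((pderiv j)^[k] f)| ≤
          (L * ε) * eval r f := by
      intro r r' hr hr' hfr hrr k
      rw [abs_sub_comm]
      refine ((hlip k r r' (by linarith) hr').2).trans ?_
      calc L * ‖r - r'‖ ≤ L * (ε * eval r f) := mul_le_mul_of_nonneg_left hrr hL.le
        _ = (L * ε) * eval r f := by ring
    have trp := tr p p' hp hp'1 hfp hpp
    have trq := tr q q' hq hq'1 hfq hqq
    set a := p' j with ha
    set b := q' j with hb
    have hup : Function.update p' j a = p' := by rw [ha]; exact Function.update_eq_self j p'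
    have huq : Function.update p' j b = q' := by
      funext i
      by_cases h : i = j
      · subst h
        rw [Function.update_self]
      · rw [Function.update_of_ne h, hpq' i h]
    have hab : |b - a| ≤ 2 := by
      have e1 : |p' j| ≤ 1 := (norm_le_pi_norm p' j).trans hp'1
      have e2 : |q' j| ≤ 1 := (norm_le_pi_norm q' j).trans hq'1
      calc |b - a| ≤ |b| + |a| := abs_sub _ _
        _ ≤ 2 := by rw [ha, hb]; linarith
    set η := (1 + L) * (ε * eval p f) with hη
    have hη0 : 0 ≤ η := by positivity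
    have hLε : 0 ≤ L * ε := by positivity
    have hder := hbf p' a b hab η hη0 (by
      intro k
      rw [hup, huq, ← Function.iterate_succ_apply]
      have t1 := abs_le.mp (trp (k + 1))
      have t2 := abs_le.mp (trq (k + 1))
      have t3 : (L * ε) * eval p f ≤ c * eval p f := mul_le_mul_of_nonneg_right h2 hfp.le
      have t4 : (L * ε) * eval q f ≤ c * eval q f := mul_le_mul_of_nonneg_right h2 hfq.le
      rcases hk (k + 1) (by omega) with ⟨h5, _⟩ | ⟨h5, h6⟩ | ⟨h5, h6⟩
      · left
        have t5 := abs_le.mp h5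
        rw [abs_le, hη]
        constructor <;> nlinarith [t1.1, t1.2, t5.1, t5.2]
      · right; left
        constructor
        · linarith [t1.1]
        · linarith [t2.1]
      · right; right
        constructor
        · linarith [t1.2]
        · linarith [t2.2])
    have hCη : 0 ≤ 2 * (C * η) := by positivity
    have hba := abs_le.mp hab
    have hder' : (∀ u ∈ Set.Icc (0 : ℝ) 1, -(2 * (C * η)) ≤
          (b - a) * eval (Function.update p' j (a + u * (b - a))) (pderiv j f)) ∨
        (∀ u ∈ Set.Icc (0 : ℝ) 1,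
          (b - a) * eval (Function.update p' j (a + u * (b - a))) (pderiv j f) ≤
            2 * (C * η)) := by
      have hCη : 0 ≤ C * η := by positivity
      rcases le_total 0 (b - a) with h4 | h4
      · rcases hder with h2 | h2
        · left
          intro u hu
          have := mul_le_mul_of_nonneg_left (h2 u hu) h4
          nlinarith
        · right
          intro u hu
          have := mul_le_mul_of_nonneg_left (h2 u hu) h4
          nlinarith
      · rcases hder with h2 | h2
        · right
          intro u hu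
          have := mul_le_mul_of_nonneg_left (h2 u hu) (neg_nonneg.mpr h4)
          nlinarith
        · left
          intro u hu
          have := mul_le_mul_of_nonneg_left (h2 u hu) (neg_nonneg.mpr h4)
          nlinarith
    have h4 := mono_aux' (hasDerivAt_seg f p' j a b) hCη hder'
    simp only [zero_mul, add_zero, one_mul, add_sub_cancel] at h4
    rw [hup, huq] at h4
    have e1 : 3 / 4 * eval p f ≤ eval p' f := by
      have := (abs_le.mp (trp 0)).1
      simp only [Function.iterate_zero, id] at this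
      have : (L * ε) * eval p f ≤ 1 / 4 * eval p f := mul_le_mul_of_nonneg_right h1 hfp.le
      linarith
    have e2 : 3 / 4 * eval p f ≤ eval q' f := by
      have := (abs_le.mp (trq 0)).1
      simp only [Function.iterate_zero, id] at this
      have : (L * ε) * eval q f ≤ 1 / 4 * eval q f := mul_le_mul_of_nonneg_right h1 hfq.le
      linarith
    have e3 : 2 * (C * η) ≤ 1 / 4 * eval p f := by
      calc 2 * (C * η) = (D * ε) * eval p f := by rw [hη, hD]; ring
        _ ≤ 1 / 4 * eval p f := mul_le_mul_of_nonneg_right h3 hfp.le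
    have hcon : Conn f p' q' := by
      have := conn_path (f := f) (γ := fun u => Function.update p' j (a + u * (b - a)))
        (a := 0) (b := 1) zero_le_one
        (by
          apply Continuous.continuousOn
          exact continuous_const.update j (by fun_prop))
        (by
          intro u hu
          rcases h4 with h4 | h4
          · linarith [(h4 u hu).1]
          · linarith [(h4 u hu).1])
      simp only [zero_mul, add_zero, one_mul, add_sub_cancel] at this
      rwa [hup, huq] at this
    exact hcp.trans (hcon.trans hcq.symm)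
  intro p q p' q' hp hq hpq' hfp hfq hpp hqq hk
  rcases le_total (eval p f) (eval q f) with h | h
  · exact main p q p' q' hp hq hpq' hfp hfq h hpp hqq hk
  · refine (main q p q' p' hq hp (fun i hi => (hpq' i hi).symm) hfq hfp h hqq hpp ?_).symm
    intro k hk1
    rcases hk k hk1 with ⟨h5, h6⟩ | ⟨h5, h6⟩ | ⟨h5, h6⟩
    · exact Or.inl ⟨h6, h5⟩
    · exact Or.inr (Or.inl ⟨h6, h5⟩)
    · exact Or.inr (Or.inr ⟨h6, h5⟩)

end Pool.Agent.SepArc
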