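import Mathlib

/-!
# Arcs and separation (MP_1a4606_ag): basic notions

`IsArc P`: a continuous arc at the origin of `ℝ³` along which every polynomial has an order.
`Sep f P Q`: there is a separating polynomial.  `Conn f p q`: the points lie in a connected subset
of `{f > 0}`.
-/

set_option autoImplicit false

open Filter Topology MvPolynomial

namespace Pool.Agent.SepArc

/-- Points of `ℝ³`. -/
abbrev Pt := Fin 3 → ℝ

/-- Real polynomials in three variables. -/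
abbrev Poly := MvPolynomial (Fin 3) ℝ

/-- The polynomial `g` has order exactly `m` along `P`. -/
def HasOrd (P : ℝ → Pt) (g : Poly) (m : ℕ) : Prop :=
  ∃ c : ℝ, c ≠ 0 ∧ Tendsto (fun t => eval (P t) g / t ^ m) (𝓝[>] 0) (𝓝 c)

/-- The polynomial `g` has order at least `N` along `P`. -/
def OrdGe (P : ℝ → Pt) (N : ℕ) (g : Poly) : Prop :=
  ∃ C : ℝ, ∀ᶠ t in 𝓝[>] (0 : ℝ), |eval (P t) g| ≤ C * t ^ N

/-- Arcs at the origin along which every polynomial has an order. -/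
structure IsArc (P : ℝ → Pt) : Prop where
  cont : ∃ ε > (0 : ℝ), ContinuousOn P (Set.Ioo 0 ε)
  lim : Tendsto P (𝓝[>] 0) (𝓝 0)
  ord : ∀ g : Poly, (∀ᶠ t in 𝓝[>] (0 : ℝ), eval (P t) g = 0) ∨ ∃ m, HasOrd P g m

/-- `g = o(h)` along `P`. -/
def LO (P : ℝ → Pt) (g h : Poly) : Prop :=
  ∀ ε > (0 : ℝ), ∀ᶠ t in 𝓝[>] (0 : ℝ), |eval (P t) g| ≤ ε * |eval (P t) h|

/-- `g ≥ c f` along `P` for some `c > 0`. -/
def Pos (P : ℝ → Pt) (f g : Poly) : Prop :=
  ∃ c > (0 : ℝ), ∀ᶠ t in 𝓝[>] (0 : ℝ), c * eval (P t) f ≤ eval (P t) g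

/-- `f > 0` along `P`. -/
def FPos (P : ℝ → Pt) (f : Poly) : Prop := ∀ᶠ t in 𝓝[>] (0 : ℝ), 0 < eval (P t) f

/-- There is a separating polynomial. -/
def Sep (f : Poly) (P Q : ℝ → Pt) : Prop :=
  ∃ g : Poly, ∀ᶠ t in 𝓝[>] (0 : ℝ), eval (P t) f ≤ eval (P t) g ∧ eval (Q t) g ≤ 0

/-- `p` and `q` lie in a connected subset of `{f > 0}`. -/
def Conn (f : Poly) (p q : Pt) : Prop :=
  ∃ S : Set Pt, IsPreconnected S ∧ S ⊆ {x | 0 < eval x f} ∧ p ∈ S ∧ q ∈ S

/-- Pairs of small parameters. -/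
abbrev FF : Filter (ℝ × ℝ) := (𝓝[>] (0 : ℝ)) ×ˢ (𝓝[>] (0 : ℝ))

/-- There are arbitrarily small parameters whose points are connected in `{f > 0}`. -/
def Meets (f : Poly) (P Q : ℝ → Pt) : Prop := ∃ᶠ p : ℝ × ℝ in FF, Conn f (P p.1) (Q p.2)

lemma Conn.symm {f : Poly} {p q : Pt} (h : Conn f p q) : Conn f q p := by
  obtain ⟨S, h1, h2, h3, h4⟩ := h
  exact ⟨S, h1, h2, h4, h3⟩

lemma Conn.trans {f : Poly} {p q r : Pt} (h : Conn f p q) (h' : Conn f q r) : Conn f p r := by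
  obtain ⟨S, h1, h2, h3, h4⟩ := h
  obtain ⟨T, k1, k2, k3, k4⟩ := h'
  exact ⟨S ∪ T, h1.union q h4 k3 k1, Set.union_subset h2 k2, Or.inl h3, Or.inr k4⟩

lemma conn_segment {f : Poly} {p q : Pt} (h : ∀ x ∈ segment ℝ p q, 0 < eval x f) :
    Conn f p q :=
  ⟨segment ℝ p q, (convex_segment p q).isPreconnected, fun x hx => h x hx,
    left_mem_segment ℝ p q, right_mem_segment ℝ p q⟩

lemma conn_path {f : Poly} {γ : ℝ → Pt} {a b : ℝ} (hab : a ≤ b)
    (hc : ContinuousOn γ (Set.Icc a b)) (h : ∀ u ∈ Set.Icc a b, 0 < eval (γ u) f) :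
    Conn f (γ a) (γ b) := by
  refine ⟨γ '' Set.Icc a b, (isPreconnected_Icc).image γ hc, ?_, ?_, ?_⟩
  · rintro _ ⟨u, hu, rfl⟩
    exact h u hu
  · exact ⟨a, ⟨le_refl a, hab⟩, rfl⟩
  · exact ⟨b, ⟨hab, le_refl b⟩, rfl⟩

lemma Conn.component_eq {f : Poly} {p q : Pt} (h : Conn f p q) :
    connectedComponentIn {x : Pt | 0 < eval x f} p =
      connectedComponentIn {x : Pt | 0 < eval x f} q := by
  obtain ⟨S, h1, h2, h3, h4⟩ := h
  have h5 : q ∈ connectedComponentIn {x : Pt | 0 < eval x f} p :=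
    h1.subset_connectedComponentIn h3 h2 h4
  exact connectedComponentIn_eq h5

lemma pos_ev : ∀ᶠ t in 𝓝[>] (0 : ℝ), 0 < t := eventually_mem_nhdsWithin

lemma lt_ev {ε : ℝ} (h : 0 < ε) : ∀ᶠ t in 𝓝[>] (0 : ℝ), t < ε := by
  have : ∀ᶠ t in 𝓝 (0 : ℝ), t < ε := eventually_lt_nhds h
  exact this.filter_mono nhdsWithin_le_nhds

lemma tendsto_pow_zero {m : ℕ} (hm : m ≠ 0) :
    Tendsto (fun t : ℝ => t ^ m) (𝓝[>] 0) (𝓝 0) := by
  have h : Tendsto (fun t : ℝ => t ^ m) (𝓝 0) (𝓝 (0 ^ m)) := (continuous_pow m).tendsto 0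
  rw [zero_pow hm] at h
  exact h.mono_left nhdsWithin_le_nhds

lemma HasOrd.mul {P : ℝ → Pt} {g h : Poly} {m n : ℕ} (hg : HasOrd P g m) (hh : HasOrd P h n) :
    HasOrd P (g * h) (m + n) := by
  obtain ⟨c, hc, h1⟩ := hg
  obtain ⟨d, hd, h2⟩ := hh
  refine ⟨c * d, mul_ne_zero hc hd, (h1.mul h2).congr' ?_⟩
  filter_upwards [pos_ev] with t ht
  rw [map_mul, pow_add]
  field_simp

lemma HasOrd.smul {P : ℝ → Pt} {g : Poly} {m : ℕ} (hg : HasOrd P g m) {r : ℝ} (hr : r ≠ 0) :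
    HasOrd P (C r * g) m := by
  obtain ⟨c, hc, h1⟩ := hg
  refine ⟨r * c, mul_ne_zero hr hc, (h1.const_mul r).congr' ?_⟩
  filter_upwards with t
  rw [map_mul, eval_C]
  ring

lemma HasOrd.neg {P : ℝ → Pt} {g : Poly} {m : ℕ} (hg : HasOrd P g m) : HasOrd P (-g) m := by
  obtain ⟨c, hc, h1⟩ := hg
  refine ⟨-c, neg_ne_zero.mpr hc, h1.neg.congr' ?_⟩
  filter_upwards with t
  rw [map_neg]
  ring

lemma hasOrd_one (P : ℝ → Pt) : HasOrd P 1 0 := by
  refine ⟨1, one_ne_zero, ?_⟩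
  simp

lemma HasOrd.pow {P : ℝ → Pt} {g : Poly} {m : ℕ} (hg : HasOrd P g m) (k : ℕ) :
    HasOrd P (g ^ k) (k * m) := by
  induction k with
  | zero => simpa using hasOrd_one P
  | succ k ih =>
    rw [pow_succ]
    have := ih.mul hg
    rwa [show (k + 1) * m = k * m + m by ring]

/-- two-sided bounds from the order -/
lemma HasOrd.bounds {P : ℝ → Pt} {g : Poly} {m : ℕ} (hg : HasOrd P g m) :
    ∃ A > (0 : ℝ), ∃ B > (0 : ℝ), ∀ᶠ t in 𝓝[>] (0 : ℝ),
      A * t ^ m ≤ |eval (P t) g| ∧ |eval (P t) g| ≤ B * t ^ m := by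
  obtain ⟨c, hc, h1⟩ := hg
  have h2 : Tendsto (fun t => |eval (P t) g / t ^ m|) (𝓝[>] 0) (𝓝 |c|) := h1.abs
  have hc' : 0 < |c| := abs_pos.mpr hc
  have h3 := h2.eventually (eventually_gt_nhds (show |c| / 2 < |c| by linarith))
  have h4 := h2.eventually (eventually_lt_nhds (show |c| < 2 * |c| by linarith))
  refine ⟨|c| / 2, by linarith, 2 * |c|, by linarith, ?_⟩
  filter_upwards [h3, h4, pos_ev] with t h5 h6 ht
  have ht' : 0 < t ^ m := pow_pos ht m
  rw [abs_div, abs_of_pos ht'] at h5 h6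
  constructor
  · rw [lt_div_iff₀ ht'] at h5
    exact h5.le
  · rw [div_lt_iff₀ ht'] at h6
    exact h6.le

lemma HasOrd.sign {P : ℝ → Pt} {g : Poly} {m : ℕ} (hg : HasOrd P g m) :
    (∃ A > (0 : ℝ), ∀ᶠ t in 𝓝[>] (0 : ℝ), A * t ^ m ≤ eval (P t) g) ∨
    (∃ A > (0 : ℝ), ∀ᶠ t in 𝓝[>] (0 : ℝ), A * t ^ m ≤ -eval (P t) g) := by
  obtain ⟨c, hc, h1⟩ := hg
  rcases lt_or_gt_of_ne hc with h | h
  · right
    have h3 := h1.eventually (eventually_lt_nhds (show c < c / 2 by linarith))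
    refine ⟨-(c / 2), by linarith, ?_⟩
    filter_upwards [h3, pos_ev] with t h5 ht
    rw [div_lt_iff₀ (pow_pos ht m)] at h5
    linarith
  · left
    have h3 := h1.eventually (eventually_gt_nhds (show c / 2 < c by linarith))
    refine ⟨c / 2, by linarith, ?_⟩
    filter_upwards [h3, pos_ev] with t h5 ht
    rw [lt_div_iff₀ (pow_pos ht m)] at h5
    linarith

lemma HasOrd.ordGe {P : ℝ → Pt} {g : Poly} {m N : ℕ} (hg : HasOrd P g m) (h : N ≤ m) :
    OrdGe P N g := by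
  obtain ⟨A, hA, B, hB, h1⟩ := hg.bounds
  refine ⟨B, ?_⟩
  filter_upwards [h1, pos_ev, lt_ev one_pos] with t h2 h3 h4
  refine h2.2.trans ?_
  exact mul_le_mul_of_nonneg_left (pow_le_pow_of_le_one h3.le h4.le h) hB.le

lemma OrdGe.mono {P : ℝ → Pt} {g : Poly} {m N : ℕ} (hg : OrdGe P m g) (h : N ≤ m) :
    OrdGe P N g := by
  obtain ⟨B, h1⟩ := hg
  refine ⟨|B|, ?_⟩
  filter_upwards [h1, pos_ev, lt_ev one_pos] with t h2 h3 h4
  refine h2.trans ?_
  have h5 : t ^ m ≤ t ^ N := pow_le_pow_of_le_one h3.le h4.le h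
  have h6 : 0 < t ^ m := pow_pos h3 m
  calc B * t ^ m ≤ |B| * t ^ m := mul_le_mul_of_nonneg_right (le_abs_self B) h6.le
    _ ≤ |B| * t ^ N := mul_le_mul_of_nonneg_left h5 (abs_nonneg B)

lemma ordGe_zero_of_ev {P : ℝ → Pt} {g : Poly} (N : ℕ)
    (h : ∀ᶠ t in 𝓝[>] (0 : ℝ), eval (P t) g = 0) : OrdGe P N g := by
  refine ⟨0, ?_⟩
  filter_upwards [h] with t ht
  rw [ht]
  simp

lemma OrdGe.add {P : ℝ → Pt} {g h : Poly} {N : ℕ} (hg : OrdGe P N g) (hh : OrdGe P N h) :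
    OrdGe P N (g + h) := by
  obtain ⟨A, h1⟩ := hg
  obtain ⟨B, h2⟩ := hh
  refine ⟨A + B, ?_⟩
  filter_upwards [h1, h2] with t h3 h4
  rw [map_add, add_mul]
  exact (abs_add_le _ _).trans (add_le_add h3 h4)

lemma OrdGe.neg {P : ℝ → Pt} {g : Poly} {N : ℕ} (hg : OrdGe P N g) : OrdGe P N (-g) := by
  obtain ⟨A, h1⟩ := hg
  refine ⟨A, ?_⟩
  filter_upwards [h1] with t h3
  rw [map_neg, abs_neg]
  exact h3

lemma OrdGe.sub {P : ℝ → Pt} {g h : Poly} {N : ℕ} (hg : OrdGe P N g) (hh : OrdGe P N h) :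
    OrdGe P N (g - h) := by
  rw [sub_eq_add_neg]
  exact hg.add hh.neg

lemma OrdGe.mul {P : ℝ → Pt} {g h : Poly} {M N : ℕ} (hg : OrdGe P M g) (hh : OrdGe P N h) :
    OrdGe P (M + N) (g * h) := by
  obtain ⟨A, h1⟩ := hg
  obtain ⟨B, h2⟩ := hh
  refine ⟨|A| * |B|, ?_⟩
  filter_upwards [h1, h2, pos_ev] with t h3 h4 h5
  rw [map_mul, abs_mul, pow_add]
  have e1 : |eval (P t) g| ≤ |A| * t ^ M :=
    h3.trans (mul_le_mul_of_nonneg_right (le_abs_self A) (pow_pos h5 M).le)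
  have e2 : |eval (P t) h| ≤ |B| * t ^ N :=
    h4.trans (mul_le_mul_of_nonneg_right (le_abs_self B) (pow_pos h5 N).le)
  calc |eval (P t) g| * |eval (P t) h| ≤ (|A| * t ^ M) * (|B| * t ^ N) :=
        mul_le_mul e1 e2 (abs_nonneg _) (mul_nonneg (abs_nonneg A) (pow_pos h5 M).le)
    _ = |A| * |B| * (t ^ M * t ^ N) := by ring

/-- every polynomial either has order at least `N` or an order below `N` -/
lemma IsArc.dich {P : ℝ → Pt} (hP : IsArc P) (g : Poly) (N : ℕ) :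
    OrdGe P N g ∨ ∃ m < N, HasOrd P g m := by
  rcases hP.ord g with h | ⟨m, h⟩
  · exact Or.inl (ordGe_zero_of_ev N h)
  · rcases lt_or_ge m N with h1 | h1
    · exact Or.inr ⟨m, h1, h⟩
    · exact Or.inl (h.ordGe h1)

lemma lo_of_ord {P : ℝ → Pt} {g h : Poly} {m : ℕ} (hg : OrdGe P (m + 1) g)
    (hh : HasOrd P h m) : LO P g h := by
  intro ε hε
  obtain ⟨C, h1⟩ := hg
  obtain ⟨A, hA, B, hB, h2⟩ := hh.bounds
  have hC : 0 < |C| + 1 := by positivity
  have hlt : 0 < ε * A / (|C| + 1) := by positivity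
  filter_upwards [h1, h2, pos_ev, lt_ev hlt] with t h3 h4 h5 h6
  rw [lt_div_iff₀ hC] at h6
  have h7 : C * t ^ (m + 1) ≤ ε * (A * t ^ m) := by
    rw [pow_succ]
    have h8 : 0 < t ^ m := pow_pos h5 m
    have h9 : C * t ≤ ε * A := by
      have : C * t ≤ (|C| + 1) * t :=
        mul_le_mul_of_nonneg_right (by linarith [le_abs_self C]) h5.le
      linarith
    calc C * (t ^ m * t) = (C * t) * t ^ m := by ring
      _ ≤ (ε * A) * t ^ m := mul_le_mul_of_nonneg_right h9 h8.le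
      _ = ε * (A * t ^ m) := by ring
  exact (h3.trans h7).trans (mul_le_mul_of_nonneg_left h4.1 hε.le)

/-- polynomials have an eventual sign along an arc -/
lemma IsArc.sign {P : ℝ → Pt} (hP : IsArc P) (g : Poly) :
    (∀ᶠ t in 𝓝[>] (0 : ℝ), 0 < eval (P t) g) ∨ (∀ᶠ t in 𝓝[>] (0 : ℝ), eval (P t) g ≤ 0) := by
  rcases hP.ord g with h | ⟨m, h⟩
  · right
    filter_upwards [h] with t ht
    exact ht.le
  · rcases h.sign with ⟨A, hA, h1⟩ | ⟨A, hA, h1⟩
    · left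
      filter_upwards [h1, pos_ev] with t h2 h3
      have : 0 < A * t ^ m := by positivity
      linarith
    · right
      filter_upwards [h1, pos_ev] with t h2 h3
      have : 0 < A * t ^ m := by positivity
      linarith

lemma FPos.hasOrd {P : ℝ → Pt} {f : Poly} (hP : IsArc P) (hf : FPos P f) :
    ∃ N, HasOrd P f N := by
  rcases hP.ord f with h | h
  · exfalso
    have : ∀ᶠ t in 𝓝[>] (0 : ℝ), False := by
      filter_upwards [h, hf] with t h1 h2
      linarith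
    exact this.exists.elim (fun _ h => h)
  · exact h

/-- trichotomy -/
lemma trich {P : ℝ → Pt} {f : Poly} (hP : IsArc P) (hf : FPos P f) (g : Poly) :
    LO P g f ∨ Pos P f g ∨ Pos P f (-g) := by
  obtain ⟨N, hN⟩ := hf.hasOrd hP
  rcases hP.dich g (N + 1) with h | ⟨m, hm, h⟩
  · exact Or.inl (lo_of_ord h hN)
  · right
    obtain ⟨A, hA, B, hB, h1⟩ := hN.bounds
    have key : ∀ A' > (0 : ℝ), ∀ t : ℝ, 0 < t → t < 1 → eval (P t) f ≤ B * t ^ N →
        A' / B * eval (P t) f ≤ A' * t ^ m := by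
      intro A' hA' t ht ht1 hft
      calc A' / B * eval (P t) f ≤ A' / B * (B * t ^ N) :=
            mul_le_mul_of_nonneg_left hft (by positivity)
        _ = A' * t ^ N := by field_simp
        _ ≤ A' * t ^ m :=
            mul_le_mul_of_nonneg_left (pow_le_pow_of_le_one ht.le ht1.le (by omega)) hA'.le
    rcases h.sign with ⟨A', hA', h2⟩ | ⟨A', hA', h2⟩
    · left
      refine ⟨A' / B, by positivity, ?_⟩
      filter_upwards [h1, h2, pos_ev, lt_ev one_pos, hf] with t h3 h4 h5 h6 h7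
      have := key A' hA' t h5 h6 ((le_abs_self _).trans h3.2)
      linarith
    · right
      refine ⟨A' / B, by positivity, ?_⟩
      filter_upwards [h1, h2, pos_ev, lt_ev one_pos, hf] with t h3 h4 h5 h6 h7
      have := key A' hA' t h5 h6 ((le_abs_self _).trans h3.2)
      rw [map_neg]
      linarith

lemma not_sep_symm {f : Poly} {P Q : ℝ → Pt} (h : ¬ Sep f P Q) : ¬ Sep f Q P := by
  rintro ⟨g, hg⟩
  apply h
  refine ⟨f - g, ?_⟩
  filter_upwards [hg] with t ht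
  rw [map_sub, map_sub]
  constructor <;> linarith [ht.1, ht.2]

/-- in the absence of a separating polynomial, positivity is inherited -/
lemma ns_pos {f : Poly} {P Q : ℝ → Pt} (hQ : IsArc Q) (hf : FPos P f)
    (h : ¬ Sep f P Q) {g : Poly} (hg : Pos P f g) : Pos Q f g := by
  obtain ⟨c, hc, h1⟩ := hg
  refine ⟨c / 2, by positivity, ?_⟩
  rcases hQ.sign (C (2 / c) * g - f) with h2 | h2
  · filter_upwards [h2] with t ht
    rw [map_sub, map_mul, eval_C] at ht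
    have h3 : c / 2 * (2 / c * eval (Q t) g - eval (Q t) f) > 0 := by positivity
    have h4 : c / 2 * (2 / c * eval (Q t) g - eval (Q t) f) =
        eval (Q t) g - c / 2 * eval (Q t) f := by field_simp
    linarith
  · exfalso
    apply h
    refine ⟨C (2 / c) * g - f, ?_⟩
    filter_upwards [h1, h2, hf] with t h3 h4 h5
    refine ⟨?_, h4⟩
    rw [map_sub, map_mul, eval_C]
    have h6 : 2 / c * (c * eval (P t) f) ≤ 2 / c * eval (P t) g :=
      mul_le_mul_of_nonneg_left h3 (by positivity)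
    have h7 : 2 / c * (c * eval (P t) f) = 2 * eval (P t) f := by field_simp
    linarith

lemma Pos.ev_pos {f g : Poly} {P : ℝ → Pt} (hf : FPos P f) (hg : Pos P f g) : FPos P g := by
  obtain ⟨c, hc, h1⟩ := hg
  filter_upwards [h1, hf] with t h2 h3
  have : 0 < c * eval (P t) f := by positivity
  linarith

/-- in the absence of a separating polynomial, `g₂ = o(g₁)` is inherited, if `g₁ ≥ c f` -/
lemma ns_lo {f : Poly} {P Q : ℝ → Pt} (hQ : IsArc Q) (hf : FPos P f)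
    (hfQ : FPos Q f) (h : ¬ Sep f P Q) {g₁ g₂ : Poly} (hg : Pos P f g₁) (hlo : LO P g₂ g₁) :
    LO Q g₂ g₁ := by
  intro ε hε
  have key : ∀ r : ℝ, |r| ≤ 1 / ε → ∀ᶠ t in 𝓝[>] (0 : ℝ),
      r * eval (Q t) g₂ ≤ eval (Q t) g₁ := by
    intro r hr
    have h1 : Pos P f (g₁ - C r * g₂) := by
      obtain ⟨c, hc, h2⟩ := hg
      refine ⟨c / 2, by positivity, ?_⟩
      have h3 := hlo (ε / 2) (by positivity)
      filter_upwards [h2, h3, hf] with t h4 h5 h6
      rw [map_sub, map_mul, eval_C]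
      have h7 : 0 < eval (P t) g₁ := by
        have : 0 < c * eval (P t) f := by positivity
        linarith
      rw [abs_of_pos h7] at h5
      have h8 : r * eval (P t) g₂ ≤ 1 / 2 * eval (P t) g₁ := by
        calc r * eval (P t) g₂ ≤ |r * eval (P t) g₂| := le_abs_self _
          _ = |r| * |eval (P t) g₂| := abs_mul _ _
          _ ≤ (1 / ε) * (ε / 2 * eval (P t) g₁) :=
              mul_le_mul hr h5 (abs_nonneg _) (by positivity)
          _ = 1 / 2 * eval (P t) g₁ := by field_simp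
      linarith
    have h2 := (ns_pos hQ hf h h1).ev_pos hfQ
    filter_upwards [h2] with t ht
    rw [map_sub, map_mul, eval_C] at ht
    linarith
  have h1 := key (1 / ε) (by rw [abs_of_pos (by positivity)])
  have h2 := key (-(1 / ε)) (by rw [abs_neg, abs_of_pos (by positivity)])
  filter_upwards [h1, h2] with t h3 h4
  have h5 : |eval (Q t) g₂| * (1 / ε) ≤ eval (Q t) g₁ := by
    rcases abs_cases (eval (Q t) g₂) with ⟨h6, _⟩ | ⟨h6, _⟩
    · rw [h6]; linarith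
    · rw [h6]; linarith
  have h6 : |eval (Q t) g₂| ≤ ε * eval (Q t) g₁ := by
    have := mul_le_mul_of_nonneg_left h5 hε.le
    calc |eval (Q t) g₂| = ε * (|eval (Q t) g₂| * (1 / ε)) := by field_simp
      _ ≤ _ := this
  exact h6.trans (mul_le_mul_of_nonneg_left (le_abs_self _) hε.le)

lemma pos_self (P : ℝ → Pt) (f : Poly) : Pos P f f :=
  ⟨1, one_pos, Filter.Eventually.of_forall fun t => by rw [one_mul]⟩

lemma LO.neg_right {P : ℝ → Pt} {g h : Poly} (hl : LO P g h) : LO P g (-h) := by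
  intro ε hε
  filter_upwards [hl ε hε] with t ht
  rwa [map_neg, abs_neg]

lemma LO.neg_left {P : ℝ → Pt} {g h : Poly} (hl : LO P g h) : LO P (-g) h := by
  intro ε hε
  filter_upwards [hl ε hε] with t ht
  rwa [map_neg, abs_neg]

/-- the joint trichotomy -/
lemma ns_trich {f : Poly} {P Q : ℝ → Pt} (hP : IsArc P) (hQ : IsArc Q) (hf : FPos P f)
    (hfQ : FPos Q f) (h : ¬ Sep f P Q) (g : Poly) :
    (LO P g f ∧ LO Q g f) ∨ (Pos P f g ∧ Pos Q f g) ∨ (Pos P f (-g) ∧ Pos Q f (-g)) := by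
  rcases trich hP hf g with h1 | h1 | h1
  · exact Or.inl ⟨h1, ns_lo hQ hf hfQ h (pos_self P f) h1⟩
  · exact Or.inr (Or.inl ⟨h1, ns_pos hQ hf h h1⟩)
  · exact Or.inr (Or.inr ⟨h1, ns_pos hQ hf h h1⟩)

/-- order version of `ns_lo` -/
lemma ns_ord {f : Poly} {P Q : ℝ → Pt} (hP : IsArc P) (hQ : IsArc Q) (hf : FPos P f)
    (hfQ : FPos Q f) (h : ¬ Sep f P Q) {N m : ℕ} (hN : HasOrd P f N) (hm : m ≤ N)
    {g₁ g₂ : Poly} (h1 : HasOrd P g₁ m) (h2 : OrdGe P (m + 1) g₂) : LO Q g₂ g₁ := by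
  have hlo := lo_of_ord h2 h1
  rcases trich hP hf g₁ with h3 | h3 | h3
  · exfalso
    obtain ⟨A, hA, B, hB, h4⟩ := h1.bounds
    obtain ⟨A', hA', B', hB', h5⟩ := hN.bounds
    have h6 := h3 (A / (2 * B')) (by positivity)
    have : ∀ᶠ t in 𝓝[>] (0 : ℝ), False := by
      filter_upwards [h4, h5, h6, pos_ev, lt_ev one_pos] with t e1 e2 e3 e4 e5
      have e6 : A * t ^ m ≤ A / (2 * B') * (B' * t ^ N) :=
        (e1.1.trans e3).trans (mul_le_mul_of_nonneg_left e2.2 (by positivity))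
      have e7 : A / (2 * B') * (B' * t ^ N) = A / 2 * t ^ N := by field_simp
      have e8 : t ^ N ≤ t ^ m := pow_le_pow_of_le_one e4.le e5.le hm
      have e9 : 0 < t ^ m := pow_pos e4 m
      rw [e7] at e6
      nlinarith
    exact this.exists.elim (fun _ h => h)
  · exact ns_lo hQ hf hfQ h h3 hlo
  · have := ns_lo hQ hf hfQ h h3 hlo.neg_right
    intro ε hε
    filter_upwards [this ε hε] with t ht
    rwa [map_neg, abs_neg] at ht

end Pool.Agent.SepArc
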