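import Pool.Agent.Lib.MP_1a4606_ag.T1

/-!
# Arcs and separation (MP_1a4606_ag): coordinate changes, arcs close to a nonsingular surface
-/

set_option autoImplicit false

open Filter Topology MvPolynomial

namespace Pool.Agent.SepArc

/-- polynomial coordinate changes fixing the origin -/
structure CC (Φ Ψ : Fin 3 → Poly) : Prop where
  left : ∀ i, bind₁ Φ (Ψ i) = X i
  right : ∀ i, bind₁ Ψ (Φ i) = X i
  zero : ∀ i, eval 0 (Φ i) = 0

/-- the map given by three polynomials -/
noncomputable def app (Φ : Fin 3 → Poly) (x : Pt) : Pt := fun i => eval x (Φ i)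

lemma eval_app (Φ : Fin 3 → Poly) (x : Pt) (g : Poly) :
    eval (app Φ x) g = eval x (bind₁ Φ g) := by
  induction g using MvPolynomial.induction_on with
  | C a => simp
  | add g h hg hh => rw [map_add, map_add, map_add, hg, hh]
  | mul_X g i hg =>
    rw [map_mul, map_mul, map_mul, hg, bind₁_X_right, eval_X]
    rfl

lemma continuous_app (Φ : Fin 3 → Poly) : Continuous (app Φ) :=
  continuous_pi fun i => continuous_eval_poly (Φ i)

lemma app_zero {Φ : Fin 3 → Poly} (h : ∀ i, eval 0 (Φ i) = 0) : app Φ 0 = 0 := by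
  funext i
  exact h i

lemma CC.app_app {Φ Ψ : Fin 3 → Poly} (h : CC Φ Ψ) (x : Pt) : app Ψ (app Φ x) = x := by
  funext i
  show eval (app Φ x) (Ψ i) = x i
  rw [eval_app, h.left, eval_X]

lemma IsArc.map {P : ℝ → Pt} (hP : IsArc P) {Φ : Fin 3 → Poly} (h : ∀ i, eval 0 (Φ i) = 0) :
    IsArc (fun t => app Φ (P t)) := by
  refine ⟨?_, ?_, ?_⟩
  · obtain ⟨ε, hε, hc⟩ := hP.cont
    exact ⟨ε, hε, (continuous_app Φ).comp_continuousOn hc⟩
  · have := ((continuous_app Φ).tendsto 0).comp hP.lim
    rwa [app_zero h] at this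
  · intro g
    rcases hP.ord (bind₁ Φ g) with h1 | ⟨m, c, hc, h1⟩
    · left
      filter_upwards [h1] with t ht
      rw [eval_app]
      exact ht
    · right
      refine ⟨m, c, hc, ?_⟩
      simp only [eval_app]
      exact h1

lemma eval_back {Φ Ψ : Fin 3 → Poly} (h : CC Φ Ψ) (x : Pt) (f : Poly) :
    eval (app Φ x) (bind₁ Ψ f) = eval x f := by
  rw [← eval_app, h.app_app]

lemma FPos.map {P : ℝ → Pt} {f : Poly} (hf : FPos P f) {Φ Ψ : Fin 3 → Poly} (h : CC Φ Ψ) :
    FPos (fun t => app Φ (P t)) (bind₁ Ψ f) := by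
  filter_upwards [hf] with t ht
  rwa [eval_back h]

lemma not_sep_map {P Q : ℝ → Pt} {f : Poly} (hns : ¬ Sep f P Q) {Φ Ψ : Fin 3 → Poly}
    (h : CC Φ Ψ) : ¬ Sep (bind₁ Ψ f) (fun t => app Φ (P t)) (fun t => app Φ (Q t)) := by
  rintro ⟨g, hg⟩
  apply hns
  refine ⟨bind₁ Φ g, ?_⟩
  filter_upwards [hg] with t ht
  rwa [eval_back h, eval_app, eval_app] at ht

lemma LO.map {P : ℝ → Pt} {f g : Poly} {Φ Ψ : Fin 3 → Poly} (h : CC Φ Ψ)
    (hlo : LO P (bind₁ Φ g) f) : LO (fun t => app Φ (P t)) g (bind₁ Ψ f) := by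
  intro ε hε
  filter_upwards [hlo ε hε] with t ht
  rwa [eval_back h, eval_app]

lemma HasOrd.map {P : ℝ → Pt} {g : Poly} {m : ℕ} {Φ : Fin 3 → Poly}
    (h : HasOrd P (bind₁ Φ g) m) : HasOrd (fun t => app Φ (P t)) g m := by
  obtain ⟨c, hc, h1⟩ := h
  refine ⟨c, hc, ?_⟩
  simp only [eval_app]
  exact h1

lemma Conn.map_back {f : Poly} {Φ Ψ : Fin 3 → Poly} (h : CC Φ Ψ) {p q : Pt}
    (hc : Conn (bind₁ Ψ f) (app Φ p) (app Φ q)) : Conn f p q := by
  obtain ⟨S, h1, h2, h3, h4⟩ := hc
  refine ⟨app Ψ '' S, h1.image _ (continuous_app Ψ).continuousOn, ?_, ?_, ?_⟩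
  · rintro _ ⟨x, hx, rfl⟩
    have := h2 hx
    simp only [Set.mem_ofPred_eq] at this ⊢
    rwa [eval_app]
  · exact ⟨_, h3, h.app_app p⟩
  · exact ⟨_, h4, h.app_app q⟩

lemma Meets.map_back {f : Poly} {Φ Ψ : Fin 3 → Poly} (h : CC Φ Ψ) {P Q : ℝ → Pt}
    (hm : Meets (bind₁ Ψ f) (fun t => app Φ (P t)) (fun t => app Φ (Q t))) : Meets f P Q :=
  hm.mono fun _ hp => hp.map_back h

lemma cc_perm (σ : Equiv.Perm (Fin 3)) :
    CC (fun i => X (σ i)) (fun i => X (σ.symm i)) := by
  refine ⟨fun i => ?_, fun i => ?_, fun i => ?_⟩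
  · simp
  · simp
  · simp

lemma cc_scale (r : Fin 3 → ℝ) (hr : ∀ i, r i ≠ 0) :
    CC (fun i => C (r i) * X i) (fun i => C (r i)⁻¹ * X i) := by
  refine ⟨fun i => ?_, fun i => ?_, fun i => ?_⟩
  · rw [map_mul, bind₁_X_right, bind₁_C_right, ← mul_assoc, ← map_mul, inv_mul_cancel₀ (hr i),
      map_one, one_mul]
  · rw [map_mul, bind₁_X_right, bind₁_C_right, ← mul_assoc, ← map_mul, mul_inv_cancel₀ (hr i),
      map_one, one_mul]
  · simp

/-- polynomials free of the variable `j` -/
def Free (j : Fin 3) (φ : Poly) : Prop := ∀ v : Poly, bind₁ (Function.update X j v) φ = φ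

lemma free_C (j : Fin 3) (a : ℝ) : Free j (C a) := fun _ => bind₁_C_right _ _

lemma free_zero (j : Fin 3) : Free j 0 := fun _ => map_zero _

lemma free_X {j i : Fin 3} (h : i ≠ j) : Free j (X i) := fun v => by
  rw [bind₁_X_right, Function.update_of_ne h]

lemma Free.add {j : Fin 3} {a b : Poly} (ha : Free j a) (hb : Free j b) : Free j (a + b) :=
  fun v => by rw [map_add, ha v, hb v]

lemma Free.sub {j : Fin 3} {a b : Poly} (ha : Free j a) (hb : Free j b) : Free j (a - b) :=
  fun v => by rw [map_sub, ha v, hb v]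

lemma Free.neg {j : Fin 3} {a : Poly} (ha : Free j a) : Free j (-a) :=
  fun v => by rw [map_neg, ha v]

lemma Free.mul {j : Fin 3} {a b : Poly} (ha : Free j a) (hb : Free j b) : Free j (a * b) :=
  fun v => by rw [map_mul, ha v, hb v]

lemma Free.subst {j : Fin 3} {w : Poly} (hw : Free j w) (g : Poly) :
    Free j (bind₁ (Function.update X j w) g) := by
  intro v
  rw [bind₁_bind₁]
  congr 1
  congr 1
  funext i
  by_cases h : i = j
  · subst h
    rw [Function.update_self, hw v]
  · rw [Function.update_of_ne h, bind₁_X_right, Function.update_of_ne h]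

lemma cc_shear {j : Fin 3} {φ : Poly} (hφ : Free j φ) (h0 : eval 0 φ = 0) :
    CC (Function.update X j (X j + φ)) (Function.update X j (X j - φ)) := by
  refine ⟨fun i => ?_, fun i => ?_, fun i => ?_⟩
  · by_cases h : i = j
    · subst h
      rw [Function.update_self, map_sub, hφ, bind₁_X_right, Function.update_self]
      ring
    · rw [Function.update_of_ne h, bind₁_X_right, Function.update_of_ne h]
  · by_cases h : i = j
    · subst h
      rw [Function.update_self, map_add, hφ, bind₁_X_right, Function.update_self]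
      ring
    · rw [Function.update_of_ne h, bind₁_X_right, Function.update_of_ne h]
  · by_cases h : i = j
    · subst h
      rw [Function.update_self, map_add, h0, eval_X]
      simp
    · rw [Function.update_of_ne h, eval_X]
      simp

/-- second order Taylor expansion in the variable `j` -/
lemma taylor (j : Fin 3) (a w h : Poly) : ∃ R : Poly,
    bind₁ (Function.update X j (a + w)) h = bind₁ (Function.update X j a) h +
      w * bind₁ (Function.update X j a) (pderiv j h) + w ^ 2 * R := by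
  induction h using MvPolynomial.induction_on with
  | C r => exact ⟨0, by simp⟩
  | add g h hg hh =>
    obtain ⟨R, hR⟩ := hg
    obtain ⟨S, hS⟩ := hh
    refine ⟨R + S, ?_⟩
    simp only [map_add, hR, hS]
    ring
  | mul_X g i hg =>
    obtain ⟨R, hR⟩ := hg
    by_cases h : i = j
    · subst h
      refine ⟨R * (a + w) + bind₁ (Function.update X i a) (pderiv i g), ?_⟩
      rw [map_mul, map_mul, hR, bind₁_X_right, bind₁_X_right, Function.update_self,
        Function.update_self, Derivation.leibniz, pderiv_X_self]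
      simp only [smul_eq_mul, map_add, map_mul, map_one, bind₁_X_right, Function.update_self]
      ring
    · refine ⟨R * X i, ?_⟩
      rw [map_mul, map_mul, hR, bind₁_X_right, bind₁_X_right, Function.update_of_ne h,
        Function.update_of_ne h, Derivation.leibniz, pderiv_X_of_ne h]
      simp only [smul_eq_mul, map_add, map_mul, map_zero, bind₁_X_right,
        Function.update_of_ne h]
      ring

/-- first order Taylor expansion in the variable `j` -/
lemma taylor1 (j : Fin 3) (a w h : Poly) : ∃ R : Poly,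
    bind₁ (Function.update X j (a + w)) h = bind₁ (Function.update X j a) h + w * R := by
  obtain ⟨R, hR⟩ := taylor j a w h
  exact ⟨bind₁ (Function.update X j a) (pderiv j h) + w * R, by rw [hR]; ring⟩

lemma eval_zero_subst (j : Fin 3) {a : Poly} (ha : eval 0 a = 0) (h : Poly) :
    eval 0 (bind₁ (Function.update X j a) h) = eval 0 h := by
  have h1 : app (Function.update X j a) (0 : Pt) = 0 := by
    funext i
    show eval 0 (Function.update X j a i) = (0 : Pt) i
    by_cases hi : i = j
    · subst hi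
      rw [Function.update_self, ha]
      rfl
    · rw [Function.update_of_ne hi, eval_X]
  rw [← eval_app, h1]

/-- polynomials vanishing at the origin have order at least one -/
lemma IsArc.ordGe_one {P : ℝ → Pt} (hP : IsArc P) {g : Poly} (h : eval 0 g = 0) :
    OrdGe P 1 g := by
  rcases hP.ord g with h1 | ⟨m, h1⟩
  · exact ordGe_zero_of_ev 1 h1
  · rcases Nat.eq_zero_or_pos m with rfl | hm
    · exfalso
      obtain ⟨c, hc, h2⟩ := h1
      simp only [pow_zero, div_one] at h2
      have h3 := hP.tendsto_eval g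
      rw [h] at h3
      exact hc (tendsto_nhds_unique h2 h3)
    · exact h1.ordGe hm

lemma IsArc.ordGe_zero {P : ℝ → Pt} (hP : IsArc P) (g : Poly) : OrdGe P 0 g := by
  rcases hP.ord g with h1 | ⟨m, h1⟩
  · exact ordGe_zero_of_ev 0 h1
  · exact h1.ordGe (Nat.zero_le m)

lemma OrdGe.cmul {P : ℝ → Pt} {g : Poly} {N : ℕ} (hg : OrdGe P N g) (r : ℝ) :
    OrdGe P N (C r * g) := by
  obtain ⟨A, h1⟩ := hg
  refine ⟨|r| * A, ?_⟩
  filter_upwards [h1] with t h2
  rw [map_mul, eval_C, abs_mul, mul_assoc]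
  exact mul_le_mul_of_nonneg_left h2 (abs_nonneg r)

/-- polynomial implicit functions, to any order along an arc -/
lemma impl {P : ℝ → Pt} (hP : IsArc P) {j : Fin 3} {h : Poly} (h0 : eval 0 h = 0)
    (hd : eval 0 (pderiv j h) ≠ 0) (n : ℕ) : ∃ φ : Poly, Free j φ ∧ eval 0 φ = 0 ∧
      OrdGe P (n + 1) (bind₁ (Function.update X j φ) h) := by
  induction n with
  | zero =>
    refine ⟨0, free_zero j, map_zero _, ?_⟩
    apply hP.ordGe_one
    rw [eval_zero_subst j (map_zero _), h0]
  | succ n ih =>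
    obtain ⟨φ, h1, h2, h3⟩ := ih
    set d := eval 0 (pderiv j h) with hd'
    set H := bind₁ (Function.update X j φ) h with hH
    set w : Poly := C (-d⁻¹) * H with hw
    have hHfree : Free j H := h1.subst h
    have hH0 : eval 0 H = 0 := by rw [hH, eval_zero_subst j h2, h0]
    refine ⟨φ + w, h1.add ((free_C j _).mul hHfree), ?_, ?_⟩
    · rw [map_add, h2, hw, map_mul, hH0, mul_zero, add_zero]
    · obtain ⟨R, hR⟩ := taylor j φ w h
      rw [hR]
      have e1 : H + w * bind₁ (Function.update X j φ) (pderiv j h) + w ^ 2 * R =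
          H * (C (-d⁻¹) * (bind₁ (Function.update X j φ) (pderiv j h) - C d)) +
            H * (H * (C ((-d⁻¹) ^ 2) * R)) := by
        have e2 : (C (-d⁻¹) * C d : Poly) = -1 := by
          rw [← map_mul, neg_mul, inv_mul_cancel₀ hd, map_neg, map_one]
        rw [hw, map_pow]
        linear_combination H * e2
      rw [e1]
      have e3 : OrdGe P 1 (bind₁ (Function.update X j φ) (pderiv j h) - C d) := by
        apply hP.ordGe_one
        rw [map_sub, eval_zero_subst j h2, eval_C, sub_self]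
      have e4 : OrdGe P 1 H := h3.mono (by omega)
      refine (h3.mul (e3.cmul _)).add ?_
      have e5 := h3.mul (e4.mul (hP.ordGe_zero (C ((-d⁻¹) ^ 2) * R)))
      exact e5

lemma LO.add {P : ℝ → Pt} {a b h : Poly} (ha : LO P a h) (hb : LO P b h) : LO P (a + b) h := by
  intro ε hε
  filter_upwards [ha (ε / 2) (by positivity), hb (ε / 2) (by positivity)] with t h1 h2
  rw [map_add]
  refine (abs_add_le _ _).trans ?_
  linarith

lemma LO.sub {P : ℝ → Pt} {a b h : Poly} (ha : LO P a h) (hb : LO P b h) : LO P (a - b) h := by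
  rw [sub_eq_add_neg]
  exact ha.add hb.neg_left

/-- bounded multiples -/
lemma LO.of_le {P : ℝ → Pt} {a b h : Poly} {K : ℝ} (ha : LO P a h)
    (hb : ∀ᶠ t in 𝓝[>] (0 : ℝ), |eval (P t) b| ≤ K * |eval (P t) a|) : LO P b h := by
  intro ε hε
  have hK : 0 < |K| + 1 := by positivity
  filter_upwards [ha (ε / (|K| + 1)) (by positivity), hb] with t h1 h2
  calc |eval (P t) b| ≤ K * |eval (P t) a| := h2
    _ ≤ (|K| + 1) * |eval (P t) a| :=
        mul_le_mul_of_nonneg_right (by linarith [le_abs_self K]) (abs_nonneg _)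
    _ ≤ (|K| + 1) * (ε / (|K| + 1) * |eval (P t) h|) := mul_le_mul_of_nonneg_left h1 hK.le
    _ = ε * |eval (P t) h| := by field_simp

lemma LO.mul_left {P : ℝ → Pt} (hP : IsArc P) {a h : Poly} (ha : LO P a h) (b : Poly) :
    LO P (b * a) h := by
  obtain ⟨K, hK⟩ := hP.ordGe_zero b
  refine ha.of_le (K := K) ?_
  filter_upwards [hK] with t ht
  rw [pow_zero, mul_one] at ht
  rw [map_mul, abs_mul]
  exact mul_le_mul_of_nonneg_right ht (abs_nonneg _)

/-- **Arcs close to a graph** -/
theorem t1_graph {f : Poly} {P Q : ℝ → Pt} (hP : IsArc P) (hQ : IsArc Q) (hf : FPos P f)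
    (hfQ : FPos Q f) (h : ¬ Sep f P Q) {φ : Poly} (hφ : Free 2 φ) (h0 : eval 0 φ = 0)
    (hz : LO P (X 2 + φ) f) : Meets f P Q := by
  have hc := cc_shear hφ h0
  refine (t1 (hP.map hc.zero) (hQ.map hc.zero) (hf.map hc) (hfQ.map hc) (not_sep_map h hc)
    (LO.map hc ?_)).map_back hc
  rwa [bind₁_X_right, Function.update_self]

/-- **Arcs close to a nonsingular surface**, third partial derivative -/
theorem t1_surf2 {f : Poly} {P Q : ℝ → Pt} (hP : IsArc P) (hQ : IsArc Q) (hf : FPos P f)
    (hfQ : FPos Q f) (hns : ¬ Sep f P Q) {h : Poly} (h0 : eval 0 h = 0)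
    (hd : eval 0 (pderiv 2 h) ≠ 0) (hlo : LO P h f) : Meets f P Q := by
  obtain ⟨N, hN⟩ := hf.hasOrd hP
  obtain ⟨φ, h1, h2, h3⟩ := impl hP h0 hd N
  apply t1_graph hP hQ hf hfQ hns (φ := -φ) h1.neg (by rw [map_neg, h2, neg_zero])
  -- `h = h(φ) + (z - φ) (h_z(φ) + (z - φ) R)`
  obtain ⟨R, hR⟩ := taylor 2 φ (X 2 - φ) h
  have e1 : bind₁ (Function.update X 2 (φ + (X 2 - φ))) h = h := by
    rw [add_sub_cancel, Function.update_eq_self, bind₁_X_left]
    rfl
  rw [e1] at hR
  set E : Poly := bind₁ (Function.update X 2 φ) (pderiv 2 h) + (X 2 - φ) * R with hE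
  have hE0 : eval 0 E = eval 0 (pderiv 2 h) := by
    rw [hE, map_add, eval_zero_subst 2 h2, map_mul, map_sub, h2, eval_X]
    simp
  have hEl := hP.tendsto_eval E
  rw [hE0] at hEl
  have hE1 : ∀ᶠ t in 𝓝[>] (0 : ℝ), |eval 0 (pderiv 2 h)| / 2 < |eval (P t) E| := by
    have := hEl.abs
    exact this.eventually (eventually_gt_nhds (by
      have := abs_pos.mpr hd
      linarith))
  have hlo2 : LO P (h - bind₁ (Function.update X 2 φ) h) f := hlo.sub (lo_of_ord h3 hN)
  refine hlo2.of_le (K := 2 / |eval 0 (pderiv 2 h)|) ?_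
  filter_upwards [hE1] with t ht
  have e2 : eval (P t) (h - bind₁ (Function.update X 2 φ) h) =
      eval (P t) (X 2 + -φ) * eval (P t) E := by
    rw [← map_mul]
    congr 1
    rw [hE]
    linear_combination hR
  rw [e2, abs_mul]
  have hd' := abs_pos.mpr hd
  rw [div_mul_eq_mul_div, le_div_iff₀ hd']
  nlinarith [abs_nonneg (eval (P t) (X 2 + -φ))]

/-- **Arcs close to a nonsingular surface** -/
theorem t1_surf {f : Poly} {P Q : ℝ → Pt} (hP : IsArc P) (hQ : IsArc Q) (hf : FPos P f)
    (hfQ : FPos Q f) (hns : ¬ Sep f P Q) {h : Poly} (h0 : eval 0 h = 0) (i : Fin 3)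
    (hd : eval 0 (pderiv i h) ≠ 0) (hlo : LO P h f) : Meets f P Q := by
  have hc := cc_perm (Equiv.swap i 2)
  have hren : ∀ g : Poly, bind₁ (fun k => X ((Equiv.swap i 2).symm k)) g =
      rename (Equiv.swap i 2) g := by
    intro g
    have : (fun k => X ((Equiv.swap i 2).symm k) : Fin 3 → Poly) =
        fun k => X ((Equiv.swap i 2) k) := by
      funext k
      rw [Equiv.symm_swap]
    rw [this]
    induction g using MvPolynomial.induction_on with
    | C a => simp
    | add g h hg hh => rw [map_add, map_add, hg, hh]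
    | mul_X g i hg => rw [map_mul, map_mul, hg, bind₁_X_right, rename_X]
  refine (t1_surf2 (h := bind₁ (fun k => X ((Equiv.swap i 2).symm k)) h)
    (hP.map hc.zero) (hQ.map hc.zero) (hf.map hc) (hfQ.map hc) (not_sep_map hns hc) ?_ ?_
    (LO.map hc ?_)).map_back hc
  · rw [← eval_app, app_zero (by simp), h0]
  · rw [hren]
    have := pderiv_rename (R := ℝ) (f := Equiv.swap i 2) (Equiv.injective _) i h
    rw [Equiv.swap_apply_left] at this
    rw [this, ← hren, ← eval_app, app_zero (by simp)]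
    exact hd
  · have : bind₁ (fun i_1 => X ((Equiv.swap i 2) i_1))
        (bind₁ (fun k => X ((Equiv.swap i 2).symm k)) h) = h := by
      rw [bind₁_bind₁]
      simp only [bind₁_X_right, Equiv.apply_symm_apply]
      rw [bind₁_X_left]
      rfl
    rw [this]
    exact hlo

end Pool.Agent.SepArc
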