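import Pool.Agent.Lib.MP_1a4606_ag.Mono

/-!
# Arcs and separation (MP_1a4606_ag): monomial arcs, the theorem
-/

set_option autoImplicit false

open Filter Topology MvPolynomial

namespace Pool.Agent.SepArc

lemma freq_of_iter {φ : ℝ × ℝ → Prop}
    (h : ∀ᶠ s in 𝓝[>] (0 : ℝ), ∀ᶠ t in 𝓝[>] (0 : ℝ), φ (s, t)) : ∃ᶠ p in FF, φ p := by
  intro hcon
  have h1 : ∀ᶠ s in 𝓝[>] (0 : ℝ), ∀ᶠ t in 𝓝[>] (0 : ℝ), ¬ φ (s, t) := hcon.curry
  obtain ⟨s, hs1, hs2⟩ := (h.and h1).exists
  obtain ⟨t, ht1, ht2⟩ := (hs1.and hs2).exists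
  exact ht2 ht1

/-- restriction to a monomial curve -/
noncomputable def resM (k : Fin 3 → ℝ) (n : Fin 3 → ℕ) : Poly →ₐ[ℝ] Polynomial ℝ :=
  aeval fun i => Polynomial.C (k i) * Polynomial.X ^ n i

lemma eval_resM (k : Fin 3 → ℝ) (n : Fin 3 → ℕ) (g : Poly) (v : ℝ) :
    (resM k n g).eval v = eval (fun i => k i * v ^ n i) g := by
  induction g using MvPolynomial.induction_on with
  | C a =>
    have : resM k n (C a) = Polynomial.C a := by
      unfold resM
      rw [algHom_C]
      rfl
    rw [this, Polynomial.eval_C, eval_C]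
  | add g h hg hh => rw [map_add, map_add, Polynomial.eval_add, hg, hh]
  | mul_X g i hg =>
    rw [map_mul, map_mul, Polynomial.eval_mul, hg, eval_X]
    congr 1
    unfold resM
    rw [aeval_X]
    simp

lemma resM_monomial (k : Fin 3 → ℝ) (n : Fin 3 → ℕ) (α : Fin 3 →₀ ℕ) (r : ℝ) :
    resM k n (monomial α r) =
      Polynomial.C (r * (k 0 ^ α 0 * k 1 ^ α 1 * k 2 ^ α 2)) * Polynomial.X ^ wt n α := by
  unfold resM
  rw [aeval_monomial, Finsupp.prod_fintype _ _ (fun i => pow_zero _), Fin.prod_univ_three]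
  unfold wt
  rw [pow_add, pow_add]
  simp only [mul_pow, ← pow_mul, map_mul, map_pow]
  show Polynomial.C r * _ = _
  ring

lemma coeff_resM (k : Fin 3 → ℝ) (n : Fin 3 → ℕ) (α : Fin 3 →₀ ℕ) (r : ℝ) (w : ℕ) :
    (resM k n (monomial α r)).coeff w =
      if w = wt n α then r * (k 0 ^ α 0 * k 1 ^ α 1 * k 2 ^ α 2) else 0 := by
  rw [resM_monomial, Polynomial.coeff_C_mul_X_pow]

lemma prod_zero_of {k : Fin 3 → ℝ} {α : Fin 3 →₀ ℕ} {i : Fin 3} (hk : k i = 0)
    (hα : α i ≠ 0) : k 0 ^ α 0 * k 1 ^ α 1 * k 2 ^ α 2 = 0 := by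
  fin_cases i
  · have : k 0 = 0 := hk
    have h2 : α 0 ≠ 0 := hα
    rw [this, zero_pow h2]
    ring
  · have : k 1 = 0 := hk
    have h2 : α 1 ≠ 0 := hα
    rw [this, zero_pow h2]
    ring
  · have : k 2 = 0 := hk
    have h2 : α 2 ≠ 0 := hα
    rw [this, zero_pow h2]
    ring

lemma le_wt {n : Fin 3 → ℕ} {α : Fin 3 →₀ ℕ} {i : Fin 3} (hα : α i ≠ 0) : n i ≤ wt n α := by
  have h : n i ≤ n i * α i := Nat.le_mul_of_pos_right _ (Nat.pos_of_ne_zero hα)
  unfold wt
  fin_cases i
  · have h' : n 0 ≤ n 0 * α 0 := h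
    show n 0 ≤ _
    omega
  · have h' : n 1 ≤ n 1 * α 1 := h
    show n 1 ≤ _
    omega
  · have h' : n 2 ≤ n 2 * α 2 := h
    show n 2 ≤ _
    omega

lemma exists_mon (k : Fin 3 → ℝ) (n : Fin 3 → ℕ) (N : ℕ) (f : Poly)
    (h : (resM k n f).coeff N ≠ 0) :
    ∃ α : Fin 3 →₀ ℕ, (∀ i, α i ≠ 0 → k i ≠ 0 ∧ n i ≤ N) ∧ wt n α = N := by
  induction f using MvPolynomial.induction_on' with
  | monomial α r =>
    rw [coeff_resM] at h
    split_ifs at h with hw
    · refine ⟨α, fun i hi => ⟨fun hk => ?_, ?_⟩, hw.symm⟩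
      · rw [prod_zero_of hk hi, mul_zero] at h
        exact h rfl
      · rw [hw]
        exact le_wt hi
    · exact absurd rfl h
  | add g g' hg hg' =>
    rw [map_add, Polynomial.coeff_add] at h
    by_cases h1 : (resM k n g).coeff N = 0
    · rw [h1, zero_add] at h
      exact hg' h
    · exact hg h1

lemma prod_one_of {k : Fin 3 → ℝ} {α : Fin 3 →₀ ℕ} (hk : ∀ i, α i ≠ 0 → k i = 1) :
    k 0 ^ α 0 * k 1 ^ α 1 * k 2 ^ α 2 = 1 := by
  have h : ∀ i, k i ^ α i = 1 := by
    intro i
    by_cases hi : α i = 0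
    · rw [hi, pow_zero]
    · rw [hk i hi, one_pow]
  rw [h, h, h]
  ring

/-- **Monomial arcs**, normalised -/
theorem Ctx.mono1 {f : Poly} {P Q : ℝ → Pt} (c : Ctx f P Q) (k : Fin 3 → ℝ)
    (hk : ∀ i, k i = 0 ∨ k i = 1) (n : Fin 3 → ℕ) (u : ℝ → ℝ)
    (hu : ∀ᶠ s in 𝓝[>] (0 : ℝ), 0 < u s) (hu0 : Tendsto u (𝓝[>] 0) (𝓝 0))
    (hPu : ∀ᶠ s in 𝓝[>] (0 : ℝ), ∀ i, P s i = k i * u s ^ n i) : Meets f P Q := by
  classical
  -- the order of `f`
  have hPe : ∀ᶠ s in 𝓝[>] (0 : ℝ), ∀ g : Poly, eval (P s) g = (resM k n g).eval (u s) := by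
    filter_upwards [hPu] with s hs g
    rw [eval_resM]
    congr 1
    congr 1
    funext i
    exact hs i
  have hF0 : resM k n f ≠ 0 := by
    intro h0
    obtain ⟨s, hs1, hs2⟩ := (hPe.and c.hf).exists
    rw [hs1 f, h0, Polynomial.eval_zero] at hs2
    exact lt_irrefl _ hs2
  obtain ⟨N, q, hq, hq0⟩ : ∃ (N : ℕ) (q : Polynomial ℝ),
      resM k n f = Polynomial.X ^ N * q ∧ q.eval 0 ≠ 0 := by
    obtain ⟨q, hq, hq'⟩ := Polynomial.exists_eq_pow_rootMultiplicity_mul_and_not_dvd _ hF0 0
    rw [Polynomial.C_0, sub_zero] at hq hq'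
    refine ⟨_, q, hq, ?_⟩
    intro h
    apply hq'
    rw [Polynomial.X_dvd_iff, Polynomial.coeff_zero_eq_eval_zero]
    exact h
  have hqt : Tendsto (fun s => q.eval (u s)) (𝓝[>] 0) (𝓝 (q.eval 0)) :=
    (q.continuous.tendsto 0).comp hu0
  have hfu : ∀ᶠ s in 𝓝[>] (0 : ℝ), eval (P s) f = u s ^ N * q.eval (u s) := by
    filter_upwards [hPe] with s hs
    rw [hs f, hq, Polynomial.eval_mul, Polynomial.eval_pow, Polynomial.eval_X]
  have hb : 0 < q.eval 0 := by
    have h1 : ∀ᶠ s in 𝓝[>] (0 : ℝ), 0 < q.eval (u s) := by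
      filter_upwards [hfu, hu, c.hf] with s e1 e2 e3
      rw [e1] at e3
      exact pos_of_mul_pos_right e3 (pow_pos e2 N).le
    exact lt_of_le_of_ne (ge_of_tendsto hqt (h1.mono fun t ht => ht.le)) hq0.symm
  set b := q.eval 0 with hbdef
  have hfb : ∀ᶠ s in 𝓝[>] (0 : ℝ), b / 2 * u s ^ N ≤ eval (P s) f ∧
      eval (P s) f ≤ 2 * b * u s ^ N := by
    have h1 := hqt.eventually (eventually_gt_nhds (show b / 2 < b by linarith))
    have h2 := hqt.eventually (eventually_lt_nhds (show b < 2 * b by linarith))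
    filter_upwards [h1, h2, hfu, hu] with s e1 e2 e3 e4
    have e5 : 0 < u s ^ N := pow_pos e4 N
    rw [e3]
    constructor
    · calc b / 2 * u s ^ N ≤ q.eval (u s) * u s ^ N := mul_le_mul_of_nonneg_right e1.le e5.le
        _ = _ := by ring
    · calc u s ^ N * q.eval (u s) = q.eval (u s) * u s ^ N := by ring
        _ ≤ _ := mul_le_mul_of_nonneg_right e2.le e5.le
  have hu1 : ∀ᶠ s in 𝓝[>] (0 : ℝ), u s < 1 := hu0.eventually (eventually_lt_nhds one_pos)
  -- active coordinates
  set A : Fin 3 → Prop := fun i => k i ≠ 0 ∧ n i ≤ N with hA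
  have hk1 : ∀ i, A i → k i = 1 := fun i hi => (hk i).resolve_left hi.1
  have hmonP : ∀ α : Fin 3 →₀ ℕ, (∀ i, α i ≠ 0 → A i) →
      ∀ᶠ s in 𝓝[>] (0 : ℝ), eval (P s) (mon α) = u s ^ wt n α := by
    intro α hα
    filter_upwards [hPe] with s hs
    rw [hs]
    unfold mon
    rw [resM_monomial, prod_one_of (fun i hi => hk1 i (hα i hi)), mul_one, map_one, one_mul,
      Polynomial.eval_pow, Polynomial.eval_X]
  have hposm : ∀ α : Fin 3 →₀ ℕ, (∀ i, α i ≠ 0 → A i) → wt n α ≤ N → Pos P f (mon α) := by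
    intro α hα hαN
    refine ⟨1 / (2 * b), by positivity, ?_⟩
    filter_upwards [hmonP α hα, hfb, hu, hu1] with s e1 e2 e3 e4
    rw [e1]
    have e5 : u s ^ N ≤ u s ^ wt n α := pow_le_pow_of_le_one e3.le e4.le hαN
    calc 1 / (2 * b) * eval (P s) f ≤ 1 / (2 * b) * (2 * b * u s ^ N) :=
          mul_le_mul_of_nonneg_left e2.2 (by positivity)
      _ = u s ^ N := by field_simp
      _ ≤ _ := e5
  have hlo : ∀ α β : Fin 3 →₀ ℕ, (∀ i, α i ≠ 0 → A i) → (∀ i, β i ≠ 0 → A i) →
      wt n β < wt n α → LO P (mon α) (mon β) := by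
    intro α β hα hβ hlt ε hε
    have hu2 : ∀ᶠ s in 𝓝[>] (0 : ℝ), u s < ε := hu0.eventually (eventually_lt_nhds hε)
    filter_upwards [hmonP α hα, hmonP β hβ, hu, hu1, hu2] with s e1 e2 e3 e4 e5
    rw [e1, e2, abs_of_pos (pow_pos e3 _), abs_of_pos (pow_pos e3 _)]
    obtain ⟨j, hj⟩ := Nat.exists_eq_add_of_lt hlt
    rw [hj, pow_add, pow_add, pow_one]
    have h3 : u s ^ j ≤ 1 := pow_le_one₀ e3.le e4.le
    have h4 : 0 < u s ^ wt n β := by positivity
    calc u s ^ wt n β * u s ^ j * u s ≤ u s ^ wt n β * 1 * u s := by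
          apply mul_le_mul_of_nonneg_right _ e3.le
          exact mul_le_mul_of_nonneg_left h3 h4.le
      _ ≤ u s ^ wt n β * 1 * ε := mul_le_mul_of_nonneg_left e5.le (by positivity)
      _ = ε * u s ^ wt n β := by ring
  -- positivity on `Q`
  have hQ1 : ∀ i, A i → FPos Q (X i) := by
    intro i hi
    have h1 : Pos P f (X i) := by
      refine ⟨1 / (2 * b), by positivity, ?_⟩
      filter_upwards [hPu, hfb, hu, hu1] with s e1 e2 e3 e4
      rw [eval_X, e1 i, hk1 i hi, one_mul]
      have e5 : u s ^ N ≤ u s ^ n i := pow_le_pow_of_le_one e3.le e4.le hi.2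
      calc 1 / (2 * b) * eval (P s) f ≤ 1 / (2 * b) * (2 * b * u s ^ N) :=
            mul_le_mul_of_nonneg_left e2.2 (by positivity)
        _ = u s ^ N := by field_simp
        _ ≤ _ := e5
    exact (ns_pos c.hQ c.hf c.hns h1).ev_pos c.hfQ
  have hQA : ∀ᶠ t in 𝓝[>] (0 : ℝ), ∀ i, A i → 0 < Q t i := by
    rw [Filter.eventually_all]
    intro i
    by_cases hi : A i
    · filter_upwards [hQ1 i hi] with t ht _
      rwa [eval_X] at ht
    · exact Filter.Eventually.of_forall fun t h => absurd h hi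
  -- representatives
  set rep : ℕ → (Fin 3 →₀ ℕ) := fun w =>
    if h : ∃ α : Fin 3 →₀ ℕ, (∀ i, α i ≠ 0 → A i) ∧ wt n α = w then h.choose else 0 with hrep
  have hrep' : ∀ w, (∃ α : Fin 3 →₀ ℕ, (∀ i, α i ≠ 0 → A i) ∧ wt n α = w) →
      (∀ i, rep w i ≠ 0 → A i) ∧ wt n (rep w) = w := by
    intro w hw
    have : rep w = hw.choose := by
      rw [hrep]
      simp only [hw, dif_pos]
    rw [this]
    exact hw.choose_spec
  have hcN : (resM k n f).coeff N = b := by
    rw [hq, Polynomial.coeff_X_pow_mul', if_pos le_rfl, Nat.sub_self,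
      Polynomial.coeff_zero_eq_eval_zero]
  have hclow : ∀ w < N, (resM k n f).coeff w = 0 := by
    intro w hw
    rw [hq, Polynomial.coeff_X_pow_mul', if_neg (by omega)]
  obtain ⟨hμA, hμN⟩ := hrep' N (exists_mon k n N f (by rw [hcN]; exact hb.ne'))
  set μ := rep N with hμ
  have hm0 : ∀ᶠ s in 𝓝[>] (0 : ℝ), ∀ᶠ t in 𝓝[>] (0 : ℝ), ∀ τ ∈ Set.Icc (0 : ℝ) 1,
      0 < eval (gam n A (u s) (Q t) τ) (mon μ) := by
    filter_upwards [hu] with s hs
    filter_upwards [hQA] with t ht τ _
    rw [gam_mon hs ht hμA]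
    have := mon_pos ht hμA
    positivity
  have hm0' : ∀ᶠ s in 𝓝[>] (0 : ℝ), ∀ᶠ t in 𝓝[>] (0 : ℝ), ∀ τ ∈ Set.Icc (0 : ℝ) 1,
      0 ≤ eval (gam n A (u s) (Q t) τ) (mon μ) := by
    filter_upwards [hm0] with s hs
    filter_upwards [hs] with t ht τ hτ
    exact (ht τ hτ).le
  -- the decomposition
  have key : ∀ g : Poly, Sm n A u Q (mon μ)
      (g - ∑ w ∈ Finset.range (N + 1), C ((resM k n g).coeff w) * mon (rep w)) := by
    intro g
    induction g using MvPolynomial.induction_on' with
    | add g g' hg hg' =>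
      have e1 : g + g' - ∑ w ∈ Finset.range (N + 1), C ((resM k n (g + g')).coeff w) * mon (rep w)
          = (g - ∑ w ∈ Finset.range (N + 1), C ((resM k n g).coeff w) * mon (rep w)) +
            (g' - ∑ w ∈ Finset.range (N + 1), C ((resM k n g').coeff w) * mon (rep w)) := by
        have e2 : ∑ w ∈ Finset.range (N + 1), C ((resM k n (g + g')).coeff w) * mon (rep w) =
            ∑ w ∈ Finset.range (N + 1), C ((resM k n g).coeff w) * mon (rep w) +
              ∑ w ∈ Finset.range (N + 1), C ((resM k n g').coeff w) * mon (rep w) := by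
          rw [← Finset.sum_add_distrib]
          apply Finset.sum_congr rfl
          intro w _
          rw [map_add, Polynomial.coeff_add, map_add, add_mul]
        rw [e2]
        ring
      rw [e1]
      exact hg.add hg'
    | monomial α r =>
      by_cases hαA : ∀ i, α i ≠ 0 → A i
      · by_cases hαN : wt n α ≤ N
        · obtain ⟨hβA, hβw⟩ := hrep' (wt n α) ⟨α, hαA, rfl⟩
          have e1 : monomial α r - ∑ w ∈ Finset.range (N + 1),
              C ((resM k n (monomial α r)).coeff w) * mon (rep w) =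
              C r * (mon α - mon (rep (wt n α))) := by
            rw [Finset.sum_eq_single (wt n α)]
            · rw [coeff_resM, if_pos rfl, prod_one_of (fun i hi => hk1 i (hαA i hi)), mul_one,
                monomial_eq_mon, mul_sub]
            · intro w _ hw
              rw [coeff_resM, if_neg hw, map_zero, zero_mul]
            · intro h
              exact absurd (Finset.mem_range.mpr (by omega)) h
          rw [e1]
          apply Sm.smul hm0'
          refine sm_binom hu hQA hαA hβA hμA hβw.symm (by rw [hβw, hμN]; exact hαN) ?_ ?_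
          · refine ns_lo c.hQ c.hf c.hfQ c.hns (hposm μ hμA (by rw [hμN])) ?_
            intro ε hε
            filter_upwards [hmonP α hαA, hmonP _ hβA] with s e2 e3
            rw [map_sub, e2, e3, hβw, sub_self, abs_zero]
            positivity
          · rcases eq_or_lt_of_le hαN with h | h
            · left
              rw [hμ, h]
            · right
              refine ns_lo c.hQ c.hf c.hfQ c.hns (hposm _ hβA (by rw [hβw]; exact hαN)) ?_
              exact hlo μ _ hμA hβA (by rw [hβw, hμN]; exact h)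
        · have e1 : monomial α r - ∑ w ∈ Finset.range (N + 1),
              C ((resM k n (monomial α r)).coeff w) * mon (rep w) = C r * mon α := by
            rw [Finset.sum_eq_zero, sub_zero, monomial_eq_mon]
            intro w hw
            rw [Finset.mem_range] at hw
            rw [coeff_resM, if_neg (by omega), map_zero, zero_mul]
          rw [e1]
          apply Sm.smul hm0'
          refine sm_high hu hu0 hQA hαA hμA (by omega) ?_
          refine ns_lo c.hQ c.hf c.hfQ c.hns (hposm μ hμA (by rw [hμN])) ?_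
          exact hlo α μ hαA hμA (by omega)
      · push Not at hαA
        obtain ⟨i, hi, hiA⟩ := hαA
        have e1 : monomial α r - ∑ w ∈ Finset.range (N + 1),
            C ((resM k n (monomial α r)).coeff w) * mon (rep w) = C r * mon α := by
          rw [Finset.sum_eq_zero, sub_zero, monomial_eq_mon]
          intro w hw
          rw [Finset.mem_range] at hw
          rw [coeff_resM]
          split_ifs with hw'
          · have hki : k i = 0 := by
              by_contra hki
              apply hiA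
              refine ⟨hki, ?_⟩
              have := le_wt (n := n) hi
              omega
            rw [prod_zero_of hki hi, mul_zero, map_zero, zero_mul]
          · rw [map_zero, zero_mul]
        rw [e1]
        apply sm_zero hm0'
        intro v q' τ
        rw [map_mul, gam_mon_zero hiA hi, mul_zero]
  have hfsm : Sm n A u Q (mon μ) (f - C b * mon μ) := by
    have := key f
    rwa [Finset.sum_range_succ, Finset.sum_eq_zero (fun w hw => by
      rw [hclow w (Finset.mem_range.mp hw), map_zero, zero_mul]), zero_add, hcN] at this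
  -- inactive coordinates
  have hin : ∀ i, ¬ A i → LO P (X i) f := by
    intro i hi ε hε
    have hu2 : ∀ᶠ s in 𝓝[>] (0 : ℝ), u s < ε * (b / 2) :=
      hu0.eventually (eventually_lt_nhds (by positivity))
    filter_upwards [hPu, hfb, hu, hu1, hu2, c.hf] with s e1 e2 e3 e4 e5 e6
    rw [eval_X, e1 i, abs_of_pos e6]
    rcases hk i with h | h
    · rw [h, zero_mul, abs_zero]
      positivity
    · have hni : N + 1 ≤ n i := by
        by_contra hcon
        exact hi ⟨by rw [h]; norm_num, by omega⟩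
      rw [h, one_mul, abs_of_pos (pow_pos e3 _)]
      have e7 : u s ^ n i ≤ u s ^ (N + 1) := pow_le_pow_of_le_one e3.le e4.le hni
      have e8 : 0 < u s ^ N := pow_pos e3 N
      calc u s ^ n i ≤ u s ^ (N + 1) := e7
        _ = u s * u s ^ N := by ring
        _ ≤ (ε * (b / 2)) * u s ^ N := mul_le_mul_of_nonneg_right e5.le e8.le
        _ = ε * (b / 2 * u s ^ N) := by ring
        _ ≤ ε * eval (P s) f := mul_le_mul_of_nonneg_left e2.1 hε.le
  have hinQ : ∀ i, ¬ A i → LO Q (X i) f := fun i hi =>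
    ns_lo c.hQ c.hf c.hfQ c.hns (pos_self P f) (hin i hi)
  obtain ⟨L, hL, hlip⟩ := poly_lip f
  -- slides
  have slide : ∀ R : ℝ → Pt, IsArc R → FPos R f → (∀ i, ¬ A i → LO R (X i) f) →
      ∀ᶠ t in 𝓝[>] (0 : ℝ), Conn f (R t) (fun i => if A i then R t i else 0) := by
    intro R hR hfR hlo'
    have h1 : ∀ᶠ t in 𝓝[>] (0 : ℝ), ∀ i, ¬ A i → |R t i| ≤ 1 / (2 * L) * eval (R t) f := by
      rw [Filter.eventually_all]
      intro i
      by_cases hi : A i
      · exact Filter.Eventually.of_forall fun t h => absurd hi h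
      · filter_upwards [hlo' i hi (1 / (2 * L)) (by positivity), hfR] with t e1 e2 _
        rwa [eval_X, abs_of_pos e2] at e1
    filter_upwards [h1, hfR, hR.norm_ev one_pos] with t e1 e2 e3
    refine conn_slide hL (fun x y hx hy => (hlip x y hx hy).2) e3.le ?_ ?_
    · rw [pi_norm_le_iff_of_nonneg zero_le_one]
      intro i
      by_cases hi : A i
      · simp only [hi, if_true]
        exact (norm_le_pi_norm (R t) i).trans e3.le
      · simp only [hi, if_false, norm_zero]
        exact zero_le_one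
    · have h2 : ‖R t - fun i => if A i then R t i else 0‖ ≤ 1 / (2 * L) * eval (R t) f := by
        rw [pi_norm_le_iff_of_nonneg (by positivity)]
        intro i
        by_cases hi : A i
        · simp only [Pi.sub_apply, hi, if_true, sub_self, norm_zero]
          positivity
        · simp only [Pi.sub_apply, hi, if_false, sub_zero, Real.norm_eq_abs]
          exact e1 i hi
      calc L * ‖R t - fun i => if A i then R t i else 0‖ ≤ L * (1 / (2 * L) * eval (R t) f) :=
            mul_le_mul_of_nonneg_left h2 hL.le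
        _ = eval (R t) f / 2 := by field_simp
        _ < eval (R t) f := by linarith
  have sP := slide P c.hP c.hf hin
  have sQ := slide Q c.hQ c.hfQ hinQ
  apply freq_of_iter
  filter_upwards [sP, hm0, hfsm (b / 2) (by positivity), hu, hPu] with s s1 s2 s3 s4 s5
  filter_upwards [sQ, s2, s3, hQA] with t t1 t2 t3 t4
  have hpos : ∀ τ ∈ Set.Icc (0 : ℝ) 1, 0 < eval (gam n A (u s) (Q t) τ) f := by
    intro τ hτ
    have e1 := (abs_le.mp (t3 τ hτ)).1
    have e2 := t2 τ hτ
    rw [map_sub, map_mul, eval_C] at e1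
    have e3 : 0 < b * eval (gam n A (u s) (Q t) τ) (mon μ) := by positivity
    linarith
  have hpath := conn_path (f := f) (γ := gam n A (u s) (Q t)) (a := 0) (b := 1) zero_le_one
    (by
      apply Continuous.continuousOn
      refine continuous_pi fun i => ?_
      unfold gam
      by_cases hi : A i
      · simp only [hi, if_true]
        have h1 : (0 : ℝ) < u s ^ n i := pow_pos s4 _
        have h2 := t4 i hi
        refine Continuous.mul ?_ ?_
        · exact Continuous.rpow continuous_const (by fun_prop) (fun _ => Or.inl h1.ne')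
        · exact Continuous.rpow continuous_const (by fun_prop) (fun _ => Or.inl h2.ne')
      · simp only [hi, if_false]
        exact continuous_const)
    hpos
  have e0 : gam n A (u s) (Q t) 0 = fun i => if A i then P s i else 0 := by
    funext i
    unfold gam
    by_cases hi : A i
    · simp only [hi, if_true, sub_zero, Real.rpow_one, Real.rpow_zero, mul_one]
      rw [s5 i, hk1 i hi, one_mul]
    · simp only [hi, if_false]
  have e1 : gam n A (u s) (Q t) 1 = fun i => if A i then Q t i else 0 := by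
    funext i
    unfold gam
    by_cases hi : A i
    · simp only [hi, if_true, sub_self, Real.rpow_one, Real.rpow_zero, one_mul]
    · simp only [hi, if_false]
  rw [e0, e1] at hpath
  exact s1.trans (hpath.trans t1.symm)

/-- **Monomial arcs** -/
theorem Ctx.mono {f : Poly} {P Q : ℝ → Pt} (c : Ctx f P Q) (k : Fin 3 → ℝ)
    (n : Fin 3 → ℕ) (u : ℝ → ℝ)
    (hu : ∀ᶠ s in 𝓝[>] (0 : ℝ), 0 < u s) (hu0 : Tendsto u (𝓝[>] 0) (𝓝 0))
    (hPu : ∀ᶠ s in 𝓝[>] (0 : ℝ), ∀ i, P s i = k i * u s ^ n i) : Meets f P Q := by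
  classical
  set r : Fin 3 → ℝ := fun i => if k i = 0 then 1 else (k i)⁻¹ with hr
  have hr0 : ∀ i, r i ≠ 0 := by
    intro i
    rw [hr]
    by_cases h : k i = 0
    · simp only [h, if_true]
      exact one_ne_zero
    · simp only [h, if_false]
      exact inv_ne_zero h
  have hc := cc_scale r hr0
  refine Meets.map_back hc ?_
  refine (c.map hc).mono1 (fun i => if k i = 0 then 0 else 1) ?_ n u hu hu0 ?_
  · intro i
    by_cases h : k i = 0
    · left
      simp only [h, if_true]
    · right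
      simp only [h, if_false]
  · filter_upwards [hPu] with s hs i
    show eval (P s) (C (r i) * X i) = _
    rw [map_mul, eval_C, eval_X, hs i, hr]
    by_cases h : k i = 0
    · simp [h]
    · simp only [h, if_false]
      field_simp

end Pool.Agent.SepArc
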