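import Pool.Agent.Lib.MP_1a4606_ag.Red

/-!
# Arcs and separation (MP_1a4606_ag): multiplicity at most two
-/

set_option autoImplicit false

open Filter Topology MvPolynomial

namespace Pool.Agent.SepArc

/-- convex functions lie above their tangents -/
lemma tangent {g g1 g2 : ℝ → ℝ} (h1 : ∀ z, HasDerivAt g (g1 z) z)
    (h2 : ∀ z, HasDerivAt g1 (g2 z) z) {a z : ℝ}
    (hpos : ∀ τ ∈ Set.Icc (0 : ℝ) 1, 0 ≤ g2 (a + τ * (z - a))) :
    g a + g1 a * (z - a) ≤ g z := by
  have hl : ∀ τ : ℝ, HasDerivAt (fun τ : ℝ => a + τ * (z - a)) (z - a) τ := by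
    intro τ
    have := ((hasDerivAt_id τ).mul_const (z - a)).const_add a
    simpa using this
  have hF1 : ∀ τ, HasDerivAt (fun τ => (z - a) * g1 (a + τ * (z - a)))
      ((z - a) ^ 2 * g2 (a + τ * (z - a))) τ := by
    intro τ
    have := ((h2 (a + τ * (z - a))).comp τ (hl τ)).const_mul (z - a)
    refine this.congr_deriv ?_
    ring
  have hF : ∀ τ, HasDerivAt (fun τ => g (a + τ * (z - a)) - (z - a) * g1 a * τ)
      ((z - a) * g1 (a + τ * (z - a)) - (z - a) * g1 a) τ := by
    intro τ
    have e1 := (h1 (a + τ * (z - a))).comp τ (hl τ)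
    have e2 := (hasDerivAt_id τ).const_mul ((z - a) * g1 a)
    have := e1.sub e2
    refine this.congr_deriv ?_
    simp only [mul_one]
    ring
  have m1 := mono_aux hF1 le_rfl (fun τ hτ => by
    have := hpos τ hτ
    have h3 : 0 ≤ (z - a) ^ 2 := sq_nonneg _
    have h4 : 0 ≤ (z - a) ^ 2 * g2 (a + τ * (z - a)) := mul_nonneg h3 this
    linarith)
  have m2 := mono_aux hF le_rfl (fun τ hτ => by
    have := (m1 τ hτ).1
    simp only [zero_mul, add_zero, sub_zero] at this
    linarith)
  have := (m2 1 ⟨zero_le_one, le_rfl⟩).1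
  simp only [zero_mul, add_zero, sub_zero, mul_zero, mul_one, one_mul, add_sub_cancel] at this
  linarith

/-- vertical connections -/
lemma conn_vert {f : Poly} {p : Pt} {z : ℝ}
    (h : ∀ τ ∈ Set.Icc (0 : ℝ) 1, 0 < eval (Function.update p 2 (p 2 + τ * (z - p 2))) f) :
    Conn f p (Function.update p 2 z) := by
  have hpath := conn_path (f := f) (γ := fun τ => Function.update p 2 (p 2 + τ * (z - p 2)))
    (a := 0) (b := 1) zero_le_one
    (by
      apply Continuous.continuousOn
      exact continuous_const.update 2 (by fun_prop)) h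
  simp only [zero_mul, add_zero, one_mul, add_sub_cancel, Function.update_eq_self] at hpath
  exact hpath

/-- connections through a face -/
lemma meets_top {f : Poly} {P Q : ℝ → Pt} (hP : IsArc P) (hQ : IsArc Q) {z0 : ℝ}
    (h0 : 0 < eval (Function.update (0 : Pt) 2 z0) f)
    (vP : ∀ᶠ t in 𝓝[>] (0 : ℝ), Conn f (P t) (Function.update (P t) 2 z0))
    (vQ : ∀ᶠ t in 𝓝[>] (0 : ℝ), Conn f (Q t) (Function.update (Q t) 2 z0)) : Meets f P Q := by
  have hc : Continuous (fun x : Pt => eval (Function.update x 2 z0) f) :=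
    (continuous_eval_poly f).comp (continuous_id.update 2 continuous_const)
  have h1 : ∀ᶠ x in 𝓝 (0 : Pt), 0 < eval (Function.update x 2 z0) f :=
    (hc.tendsto 0).eventually (eventually_gt_nhds h0)
  obtain ⟨r, hr, h2⟩ := Metric.eventually_nhds_iff.mp h1
  apply Filter.Eventually.frequently
  filter_upwards [ev_fst vP, ev_snd vQ, ev_fst (hP.norm_ev hr), ev_snd (hQ.norm_ev hr)]
    with p e1 e2 e3 e4
  refine e1.trans (Conn.trans ?_ e2.symm)
  have hpath := conn_path (f := f)
    (γ := fun τ => Function.update (P p.1 + τ • (Q p.2 - P p.1)) 2 z0) (a := 0) (b := 1)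
    zero_le_one
    (by
      apply Continuous.continuousOn
      exact Continuous.update (by fun_prop) 2 continuous_const)
    (by
      intro τ hτ
      apply h2
      have h3 : P p.1 + τ • (Q p.2 - P p.1) ∈ Metric.ball (0 : Pt) r := by
        apply (convex_ball (0 : Pt) r).add_smul_sub_mem _ _ hτ
        · simpa using e3
        · simpa using e4
      simpa using h3)
  simp only [zero_smul, add_zero, one_smul, add_sub_cancel] at hpath
  exact hpath

lemma Ctx.f0 {f : Poly} {P Q : ℝ → Pt} (c : Ctx f P Q) : 0 ≤ eval 0 f :=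
  ge_of_tendsto (c.hP.tendsto_eval f) (c.hf.mono fun _ h => h.le)

/-- local sign of a polynomial -/
lemma sign_near {g : Poly} (h : 0 < eval 0 g) : ∃ δ > (0 : ℝ), ∀ x : Pt, ‖x‖ ≤ δ →
    eval 0 g / 2 < eval x g := by
  have h1 : ∀ᶠ x in 𝓝 (0 : Pt), eval 0 g / 2 < eval x g :=
    ((continuous_eval_poly g).tendsto 0).eventually (eventually_gt_nhds (by linarith))
  obtain ⟨r, hr, h2⟩ := Metric.eventually_nhds_iff.mp h1
  refine ⟨r / 2, by positivity, fun x hx => h2 ?_⟩
  rw [dist_zero_right]
  linarith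

lemma norm_update_le {p : Pt} {δ z : ℝ} (hp : ‖p‖ ≤ δ) (hz : |z| ≤ δ) :
    ‖Function.update p 2 z‖ ≤ δ := by
  rw [pi_norm_le_iff_of_nonneg ((norm_nonneg _).trans hp)]
  intro i
  by_cases h : i = 2
  · subst h
    simpa using hz
  · rw [Function.update_of_ne h]
    exact (norm_le_pi_norm p i).trans hp

lemma abs_between {a z δ τ : ℝ} (ha : |a| ≤ δ) (hz : |z| ≤ δ) (hτ : τ ∈ Set.Icc (0 : ℝ) 1) :
    |a + τ * (z - a)| ≤ δ := by
  have h1 := abs_le.mp ha
  have h2 := abs_le.mp hz
  rw [abs_le]
  have e : a + τ * (z - a) = (1 - τ) * a + τ * z := by ring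
  rw [e]
  constructor
  · nlinarith [h1.1, h2.1, hτ.1, hτ.2]
  · nlinarith [h1.2, h2.2, hτ.1, hτ.2]

/-- the two derivatives along a vertical line -/
lemma line_tangent (f : Poly) (p : Pt) {a z : ℝ}
    (hpos : ∀ τ ∈ Set.Icc (0 : ℝ) 1,
      0 ≤ eval (Function.update p 2 (a + τ * (z - a))) (pderiv 2 (pderiv 2 f))) :
    eval (Function.update p 2 a) f + eval (Function.update p 2 a) (pderiv 2 f) * (z - a) ≤
      eval (Function.update p 2 z) f :=
  tangent (fun z => hasDerivAt_line f p 2 z) (fun z => hasDerivAt_line (pderiv 2 f) p 2 z) hpos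

/-- nonsingular points, vertical derivative positive in direction `σ` -/
theorem Ctx.mult1z {f : Poly} {P Q : ℝ → Pt} (c : Ctx f P Q)
    (h : eval 0 (pderiv 2 f) ≠ 0) : Meets f P Q := by
  obtain ⟨σ, hσ, hpos⟩ : ∃ σ : ℝ, |σ| = 1 ∧ 0 < σ * eval 0 (pderiv 2 f) := by
    rcases lt_or_gt_of_ne h with h1 | h1
    · exact ⟨-1, by simp, by linarith⟩
    · exact ⟨1, by simp, by linarith⟩
  have hpos' : 0 < eval 0 (C σ * pderiv 2 f) := by rwa [map_mul, eval_C]
  obtain ⟨δ, hδ, hδ'⟩ := sign_near hpos'
  -- monotonicity in the direction `σ`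
  have mono : ∀ p : Pt, ‖p‖ ≤ δ → ∀ a : ℝ, |a| ≤ δ → ∀ s : ℝ, 0 ≤ s → |a + s * σ| ≤ δ →
      eval (Function.update p 2 a) f ≤ eval (Function.update p 2 (a + s * σ)) f ∧
      (0 < s → eval (Function.update p 2 a) f < eval (Function.update p 2 (a + s * σ)) f) := by
    intro p hp a ha s hs has
    have hd := hasDerivAt_seg f p 2 a (a + s * σ)
    set κ := eval 0 (C σ * pderiv 2 f) / 2 with hκ
    have hκ0 : 0 < κ := by positivity
    have hF : ∀ u, HasDerivAt (fun u => eval (Function.update p 2 (a + u * (a + s * σ - a))) f -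
        s * κ * u) ((a + s * σ - a) * eval (Function.update p 2 (a + u * (a + s * σ - a)))
        (pderiv 2 f) - s * κ) u := by
      intro u
      have e2 := (hasDerivAt_id u).const_mul (s * κ)
      have := (hd u).sub e2
      refine this.congr_deriv ?_
      simp
    have m := mono_aux hF le_rfl (fun u hu => by
      have hx : ‖Function.update p 2 (a + u * (a + s * σ - a))‖ ≤ δ :=
        norm_update_le hp (abs_between ha has hu)
      have h3 := hδ' _ hx
      rw [map_mul, eval_C] at h3
      have h4 : (a + s * σ - a) * eval (Function.update p 2 (a + u * (a + s * σ - a)))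
          (pderiv 2 f) = s * (σ * eval (Function.update p 2 (a + u * (a + s * σ - a)))
          (pderiv 2 f)) := by ring
      rw [h4]
      have h5 := mul_le_mul_of_nonneg_left h3.le hs
      linarith)
    have := (m 1 ⟨zero_le_one, le_rfl⟩).1
    simp only [zero_mul, add_zero, sub_zero, mul_zero, mul_one, one_mul, add_sub_cancel] at this
    have h6 : 0 ≤ s * κ := by positivity
    refine ⟨by linarith, fun hs0 => ?_⟩
    have h7 : 0 < s * κ := by positivity
    linarith
  have hσδ : |δ * σ| ≤ δ := by rw [abs_mul, hσ, mul_one, abs_of_pos hδ]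
  have h0 : 0 < eval (Function.update (0 : Pt) 2 (δ * σ)) f := by
    have := (mono 0 (by simpa using hδ.le) 0 (by simpa using hδ.le) δ hδ.le
      (by rwa [zero_add])).2 hδ
    rw [zero_add] at this
    have e : Function.update (0 : Pt) 2 0 = 0 := by
      funext i
      by_cases hi : i = 2
      · subst hi
        simp
      · simp [hi]
    rw [e] at this
    linarith [c.f0]
  have vert : ∀ R : ℝ → Pt, IsArc R → FPos R f →
      ∀ᶠ t in 𝓝[>] (0 : ℝ), Conn f (R t) (Function.update (R t) 2 (δ * σ)) := by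
    intro R hR hfR
    filter_upwards [hR.norm_ev hδ, hfR] with t e1 e2
    apply conn_vert
    intro τ hτ
    have hz : |R t 2| ≤ δ := (norm_le_pi_norm (R t) 2).trans e1.le
    -- `δσ - z = s σ`
    obtain ⟨s, hs, hs'⟩ : ∃ s : ℝ, 0 ≤ s ∧ δ * σ - R t 2 = s * σ := by
      have hσ2 : σ * σ = 1 := by
        have : |σ| * |σ| = 1 := by rw [hσ, mul_one]
        rwa [abs_mul_abs_self] at this
      refine ⟨δ - R t 2 * σ, ?_, by linear_combination (R t 2) * hσ2⟩
      have : |R t 2 * σ| ≤ δ := by rwa [abs_mul, hσ, mul_one]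
      linarith [(abs_le.mp this).2]
    have h1 := (mono (R t) e1.le (R t 2) hz (τ * s) (mul_nonneg hτ.1 hs) (by
      have := abs_between hz hσδ hτ
      rwa [hs', ← mul_assoc] at this)).1
    rw [Function.update_eq_self] at h1
    rw [hs', ← mul_assoc]
    linarith
  exact meets_top c.hP c.hQ h0 (vert P c.hP c.hf) (vert Q c.hQ c.hfQ)

/-- convex in the vertical direction -/
theorem Ctx.mult2z_pos {f : Poly} {P Q : ℝ → Pt} (c : Ctx f P Q)
    (h1 : eval 0 (pderiv 2 f) = 0) (h : 0 < eval 0 (pderiv 2 (pderiv 2 f))) : Meets f P Q := by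
  obtain ⟨δ, hδ, hδ'⟩ := sign_near h
  have hconv : ∀ p : Pt, ‖p‖ ≤ δ → ∀ a z : ℝ, |a| ≤ δ → |z| ≤ δ →
      eval (Function.update p 2 a) f + eval (Function.update p 2 a) (pderiv 2 f) * (z - a) ≤
      eval (Function.update p 2 z) f := by
    intro p hp a z ha hz
    apply line_tangent
    intro τ hτ
    have := hδ' _ (norm_update_le hp (abs_between ha hz hτ))
    linarith
  -- strict convexity at the origin
  have hface : ∀ z0 : ℝ, |z0| = δ → 0 < eval (Function.update (0 : Pt) 2 z0) f := by
    intro z0 hz0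
    set κ := eval 0 (pderiv 2 (pderiv 2 f)) / 2 with hκ
    have hκ0 : 0 < κ := by positivity
    have ht := tangent (g := fun z => eval (Function.update (0 : Pt) 2 z) f - κ / 2 * z ^ 2)
      (g1 := fun z => eval (Function.update (0 : Pt) 2 z) (pderiv 2 f) - κ * z)
      (g2 := fun z => eval (Function.update (0 : Pt) 2 z) (pderiv 2 (pderiv 2 f)) - κ)
      (a := 0) (z := z0)
      (fun z => by
        have e1 := hasDerivAt_line f 0 2 z
        have e2 := ((hasDerivAt_id z).pow 2).const_mul (κ / 2)
        have := e1.sub e2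
        refine this.congr_deriv ?_
        simp
        ring)
      (fun z => by
        have e1 := hasDerivAt_line (pderiv 2 f) 0 2 z
        have e2 := (hasDerivAt_id z).const_mul κ
        have := e1.sub e2
        refine this.congr_deriv ?_
        simp)
      (fun τ hτ => by
        have h3 := hδ' (Function.update (0 : Pt) 2 (0 + τ * (z0 - 0)))
          (norm_update_le (by simpa using hδ.le)
            (abs_between (by simpa using hδ.le) hz0.le hτ))
        linarith)
    have e : Function.update (0 : Pt) 2 0 = 0 := by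
      funext i
      by_cases hi : i = 2
      · subst hi
        simp
      · simp [hi]
    simp only [e, h1] at ht
    have hz2 : 0 < z0 ^ 2 := by
      have : z0 ≠ 0 := by
        intro h0
        rw [h0, abs_zero] at hz0
        linarith
      positivity
    have : 0 < κ / 2 * z0 ^ 2 := by positivity
    nlinarith [c.f0]
  have vert : ∀ (R : ℝ → Pt) (z0 : ℝ), |z0| = δ → IsArc R → FPos R f →
      (∀ᶠ t in 𝓝[>] (0 : ℝ), 0 < z0 * eval (R t) (pderiv 2 f) ∨
        |eval (R t) (pderiv 2 f)| ≤ 1 / (4 * δ) * eval (R t) f) →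
      ∀ᶠ t in 𝓝[>] (0 : ℝ), Conn f (R t) (Function.update (R t) 2 z0) := by
    intro R z0 hz0 hR hfR hd
    filter_upwards [hR.norm_ev hδ, hfR, hd] with t e1 e2 e3
    apply conn_vert
    intro τ hτ
    have hz : |R t 2| ≤ δ := (norm_le_pi_norm (R t) 2).trans e1.le
    have h3 := hconv (R t) e1.le (R t 2) (R t 2 + τ * (z0 - R t 2)) hz
      (abs_between hz hz0.le hτ)
    rw [Function.update_eq_self, add_sub_cancel_left] at h3
    rcases e3 with e3 | e3
    · -- the vertical derivative points towards `z0`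
      have h4 : 0 ≤ eval (R t) (pderiv 2 f) * (τ * (z0 - R t 2)) := by
        have hz0' : z0 = δ ∨ z0 = -δ := by
          rcases abs_cases z0 with ⟨h5, _⟩ | ⟨h5, _⟩
          · left; linarith
          · right; linarith
        have hz' := abs_le.mp hz
        rcases hz0' with h5 | h5
        · rw [h5] at e3 ⊢
          have h6 : 0 < eval (R t) (pderiv 2 f) := pos_of_mul_pos_right e3 hδ.le
          have h7 : 0 ≤ δ - R t 2 := by linarith [hz'.2]
          exact mul_nonneg h6.le (mul_nonneg hτ.1 h7)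
        · rw [h5] at e3 ⊢
          have h6 : 0 < -eval (R t) (pderiv 2 f) := by
            have : 0 < δ * -eval (R t) (pderiv 2 f) := by linarith
            exact pos_of_mul_pos_right this hδ.le
          have h7 : 0 ≤ δ + R t 2 := by linarith [hz'.1]
          have h8 : 0 ≤ -eval (R t) (pderiv 2 f) * (τ * (δ + R t 2)) :=
            mul_nonneg h6.le (mul_nonneg hτ.1 h7)
          linarith
      linarith
    · have h4 : |eval (R t) (pderiv 2 f) * (τ * (z0 - R t 2))| ≤ 1 / 2 * eval (R t) f := by
        rw [abs_mul, abs_mul]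
        have h5 : |τ| ≤ 1 := by rw [abs_of_nonneg hτ.1]; exact hτ.2
        have h6 : |z0 - R t 2| ≤ 2 * δ := (abs_sub _ _).trans (by linarith)
        have h7 : |τ| * |z0 - R t 2| ≤ 1 * (2 * δ) :=
          mul_le_mul h5 h6 (abs_nonneg _) zero_le_one
        calc |eval (R t) (pderiv 2 f)| * (|τ| * |z0 - R t 2|)
            ≤ (1 / (4 * δ) * eval (R t) f) * (1 * (2 * δ)) :=
              mul_le_mul e3 h7 (by positivity) (by positivity)
          _ = 1 / 2 * eval (R t) f := by field_simp; ring
      linarith [(abs_le.mp h4).1]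
  have hεδ : (0 : ℝ) < 1 / (4 * δ) := by positivity
  rcases ns_trich c.hP c.hQ c.hf c.hfQ c.hns (pderiv 2 f) with ⟨h2, h3⟩ | ⟨h2, h3⟩ | ⟨h2, h3⟩
  · refine meets_top c.hP c.hQ (hface δ (abs_of_pos hδ))
      (vert P δ (abs_of_pos hδ) c.hP c.hf ?_) (vert Q δ (abs_of_pos hδ) c.hQ c.hfQ ?_)
    · filter_upwards [h2 _ hεδ, c.hf] with t e1 e2
      rw [abs_of_pos e2] at e1
      exact Or.inr e1
    · filter_upwards [h3 _ hεδ, c.hfQ] with t e1 e2
      rw [abs_of_pos e2] at e1
      exact Or.inr e1
  · refine meets_top c.hP c.hQ (hface δ (abs_of_pos hδ))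
      (vert P δ (abs_of_pos hδ) c.hP c.hf ?_) (vert Q δ (abs_of_pos hδ) c.hQ c.hfQ ?_)
    · filter_upwards [h2.ev_pos c.hf] with t e1
      exact Or.inl (mul_pos hδ e1)
    · filter_upwards [h3.ev_pos c.hfQ] with t e1
      exact Or.inl (mul_pos hδ e1)
  · have hδn : |-δ| = δ := by rw [abs_neg, abs_of_pos hδ]
    refine meets_top c.hP c.hQ (hface (-δ) hδn)
      (vert P (-δ) hδn c.hP c.hf ?_) (vert Q (-δ) hδn c.hQ c.hfQ ?_)
    · filter_upwards [h2.ev_pos c.hf] with t e1
      rw [map_neg] at e1
      left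
      nlinarith
    · filter_upwards [h3.ev_pos c.hfQ] with t e1
      rw [map_neg] at e1
      left
      nlinarith

/-- concave in the vertical direction -/
theorem Ctx.mult2z_neg {f : Poly} {P Q : ℝ → Pt} (c : Ctx f P Q)
    (h1 : eval 0 (pderiv 2 f) = 0) (h : eval 0 (pderiv 2 (pderiv 2 f)) < 0) : Meets f P Q := by
  have hneg : 0 < eval 0 (-(pderiv 2 (pderiv 2 f))) := by
    rw [map_neg]
    linarith
  obtain ⟨δ, hδ, hδ'⟩ := sign_near hneg
  obtain ⟨N, hN⟩ := c.hf.hasOrd c.hP
  obtain ⟨φ, hfree, hφ0, hord⟩ := impl c.hP h1 h.ne N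
  have hconc : ∀ p : Pt, ‖p‖ ≤ δ → ∀ a z : ℝ, |a| ≤ δ → |z| ≤ δ →
      eval (Function.update p 2 z) f ≤
      eval (Function.update p 2 a) f + eval (Function.update p 2 a) (pderiv 2 f) * (z - a) := by
    intro p hp a z ha hz
    have := line_tangent (-f) p (a := a) (z := z) (fun τ hτ => by
      have := hδ' _ (norm_update_le hp (abs_between ha hz hτ))
      rw [map_neg, map_neg]
      linarith)
    simp only [map_neg] at this
    linarith
  set Φ : Fin 3 → Poly := Function.update X 2 φ with hΦ
  have happ : ∀ x : Pt, app Φ x = Function.update x 2 (eval x φ) := by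
    intro x
    funext i
    show eval x (Φ i) = _
    by_cases hi : i = 2
    · subst hi
      rw [hΦ, Function.update_self, Function.update_self]
    · rw [hΦ, Function.update_of_ne hi, Function.update_of_ne hi, eval_X]
  have hΦ0 : ∀ i, eval 0 (Φ i) = 0 := by
    intro i
    by_cases hi : i = 2
    · subst hi
      rw [hΦ, Function.update_self, hφ0]
    · rw [hΦ, Function.update_of_ne hi, eval_X]
      rfl
  have hloP : LO P (bind₁ Φ (pderiv 2 f)) f := lo_of_ord hord hN
  have hloQ : LO Q (bind₁ Φ (pderiv 2 f)) f :=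
    ns_lo c.hQ c.hf c.hfQ c.hns (pos_self P f) hloP
  -- moving to the sheet
  have move : ∀ R : ℝ → Pt, IsArc R → FPos R f → LO R (bind₁ Φ (pderiv 2 f)) f →
      ∀ᶠ t in 𝓝[>] (0 : ℝ), Conn f (R t) (app Φ (R t)) ∧
        1 / 2 * eval (R t) f ≤ eval (app Φ (R t)) f := by
    intro R hR hfR hlo
    have hφt : ∀ᶠ t in 𝓝[>] (0 : ℝ), |eval (R t) φ| < δ := by
      have := (hR.tendsto_eval φ).abs
      rw [hφ0, abs_zero] at this
      exact this.eventually (eventually_lt_nhds hδ)
    filter_upwards [hR.norm_ev hδ, hfR, hlo (1 / (4 * δ)) (by positivity), hφt]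
      with t e1 e2 e3 e4
    rw [← eval_app, abs_of_pos e2, happ] at e3
    have hz : |R t 2| ≤ δ := (norm_le_pi_norm (R t) 2).trans e1.le
    have hval : 1 / 2 * eval (R t) f ≤ eval (Function.update (R t) 2 (eval (R t) φ)) f := by
      have h3 := hconc (R t) e1.le (eval (R t) φ) (R t 2) e4.le hz
      rw [Function.update_eq_self] at h3
      have h4 : |eval (Function.update (R t) 2 (eval (R t) φ)) (pderiv 2 f) *
          (R t 2 - eval (R t) φ)| ≤ 1 / 2 * eval (R t) f := by
        rw [abs_mul]
        have h6 : |R t 2 - eval (R t) φ| ≤ 2 * δ := (abs_sub _ _).trans (by linarith)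
        calc _ ≤ (1 / (4 * δ) * eval (R t) f) * (2 * δ) :=
              mul_le_mul e3 h6 (abs_nonneg _) (by positivity)
          _ = 1 / 2 * eval (R t) f := by field_simp; ring
      linarith [(abs_le.mp h4).2]
    rw [happ]
    refine ⟨?_, hval⟩
    apply conn_vert
    intro τ hτ
    set z := R t 2 + τ * (eval (R t) φ - R t 2) with hzdef
    have hz' : |z| ≤ δ := abs_between hz e4.le hτ
    have g1 := hconc (R t) e1.le z (R t 2) hz' hz
    have g2 := hconc (R t) e1.le z (eval (R t) φ) hz' e4.le
    rw [Function.update_eq_self] at g1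
    set D := eval (Function.update (R t) 2 z) (pderiv 2 f) with hD
    have k1 : R t 2 - z = -(τ * (eval (R t) φ - R t 2)) := by rw [hzdef]; ring
    have k2 : eval (R t) φ - z = (1 - τ) * (eval (R t) φ - R t 2) := by rw [hzdef]; ring
    rw [k1] at g1
    rw [k2] at g2
    -- one of the two increments is nonpositive
    rcases le_total 0 (D * (eval (R t) φ - R t 2)) with h5 | h5
    · have h6 : D * -(τ * (eval (R t) φ - R t 2)) ≤ 0 := by
        have : 0 ≤ τ * (D * (eval (R t) φ - R t 2)) := mul_nonneg hτ.1 h5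
        linarith
      linarith
    · have h6 : D * ((1 - τ) * (eval (R t) φ - R t 2)) ≤ 0 := by
        have : 0 ≤ (1 - τ) * -(D * (eval (R t) φ - R t 2)) :=
          mul_nonneg (by linarith [hτ.2]) (by linarith)
        linarith
      linarith
  have mP := move P c.hP c.hf hloP
  have mQ := move Q c.hQ c.hfQ hloQ
  have hf0 : FPos (fun t => app Φ (P t)) f := by
    filter_upwards [mP, c.hf] with t e1 e2
    linarith [e1.2]
  have hfQ0 : FPos (fun t => app Φ (Q t)) f := by
    filter_upwards [mQ, c.hfQ] with t e1 e2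
    linarith [e1.2]
  have hns0 : ¬ Sep f (fun t => app Φ (P t)) (fun t => app Φ (Q t)) := by
    rintro ⟨g, hg⟩
    apply c.hns
    refine ⟨C 2 * bind₁ Φ g, ?_⟩
    filter_upwards [hg, mP] with t e1 e2
    rw [map_mul, map_mul, eval_C, eval_C, ← eval_app, ← eval_app]
    constructor
    · linarith [e1.1, e2.2]
    · linarith [e1.2]
  have hm : Meets f (fun t => app Φ (P t)) (fun t => app Φ (Q t)) := by
    refine t1_graph (c.hP.map hΦ0) (c.hQ.map hΦ0) hf0 hfQ0 hns0 (φ := -φ) hfree.neg
      (by rw [map_neg, hφ0, neg_zero]) ?_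
    intro ε hε
    filter_upwards with t
    have e1 : eval (app Φ (P t)) (X 2 + -φ) = 0 := by
      rw [eval_app, map_add, map_neg, bind₁_X_right, hfree φ]
      have : Φ 2 = φ := by rw [hΦ, Function.update_self]
      rw [this, add_neg_cancel, map_zero]
    rw [e1, abs_zero]
    positivity
  refine (hm.and_eventually ((ev_fst mP).and (ev_snd mQ))).mono ?_
  rintro p ⟨e1, e2, e3⟩
  exact e2.1.trans (e1.trans e3.1.symm)

/-- a second derivative in the third variable -/
theorem Ctx.mult2z {f : Poly} {P Q : ℝ → Pt} (c : Ctx f P Q)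
    (h : eval 0 (pderiv 2 (pderiv 2 f)) ≠ 0) : Meets f P Q := by
  by_cases h1 : eval 0 (pderiv 2 f) = 0
  · rcases lt_or_gt_of_ne h with h2 | h2
    · exact c.mult2z_neg h1 h2
    · exact c.mult2z_pos h1 h2
  · exact c.mult1z h1

/-- chain rule for a linear shear -/
lemma pderiv_shear {i j : Fin 3} (hij : i ≠ j) (f : Poly) :
    pderiv i (bind₁ (Function.update X j (X j - X i)) f) =
      bind₁ (Function.update X j (X j - X i)) (pderiv i f) -
        bind₁ (Function.update X j (X j - X i)) (pderiv j f) := by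
  induction f using MvPolynomial.induction_on with
  | C a => simp
  | add g h hg hh =>
    simp only [map_add, hg, hh]
    ring
  | mul_X g k hg =>
    simp only [map_mul, bind₁_X_right, Derivation.leibniz, smul_eq_mul, map_add, hg]
    by_cases hkj : k = j
    · subst hkj
      rw [Function.update_self, pderiv_X_self, pderiv_X_of_ne hij.symm, map_sub,
        pderiv_X_self, pderiv_X_of_ne hij.symm]
      simp only [map_zero, map_one]
      ring
    · rw [Function.update_of_ne hkj]
      by_cases hki : k = i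
      · subst hki
        rw [pderiv_X_self, pderiv_X_of_ne hij]
        simp only [map_zero, map_one]
        ring
      · rw [pderiv_X_of_ne hki, pderiv_X_of_ne hkj]
        simp only [map_zero]
        ring

lemma eval_zero_bind {Ψ : Fin 3 → Poly} (h : ∀ i, eval 0 (Ψ i) = 0) (g : Poly) :
    eval 0 (bind₁ Ψ g) = eval 0 g := by
  rw [← eval_app, app_zero h]

lemma bind_perm (σ : Equiv.Perm (Fin 3)) (g : Poly) :
    bind₁ (fun k => X (σ k)) g = rename σ g := by
  induction g using MvPolynomial.induction_on with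
  | C a => simp
  | add g h hg hh => rw [map_add, map_add, hg, hh]
  | mul_X g i hg => rw [map_mul, map_mul, hg, bind₁_X_right, rename_X]

/-- **Nonsingular points** -/
theorem Ctx.mult1 {f : Poly} {P Q : ℝ → Pt} (c : Ctx f P Q) (i : Fin 3)
    (h : eval 0 (pderiv i f) ≠ 0) : Meets f P Q := by
  have hc := cc_perm (Equiv.swap i 2)
  refine Meets.map_back hc ?_
  apply (c.map hc).mult1z
  rw [Equiv.symm_swap, bind_perm]
  have := pderiv_rename (R := ℝ) (f := Equiv.swap i 2) (Equiv.injective _) i f
  rw [Equiv.swap_apply_left] at this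
  rw [this, ← bind_perm, eval_zero_bind (by simp)]
  exact h

lemma Ctx.mult2ii {f : Poly} {P Q : ℝ → Pt} (c : Ctx f P Q) (i : Fin 3)
    (h : eval 0 (pderiv i (pderiv i f)) ≠ 0) : Meets f P Q := by
  have hc := cc_perm (Equiv.swap i 2)
  refine Meets.map_back hc ?_
  apply (c.map hc).mult2z
  rw [Equiv.symm_swap, bind_perm]
  have h1 := pderiv_rename (R := ℝ) (f := Equiv.swap i 2) (Equiv.injective _) i f
  have h2 := pderiv_rename (R := ℝ) (f := Equiv.swap i 2) (Equiv.injective _) i (pderiv i f)
  rw [Equiv.swap_apply_left] at h1 h2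
  rw [h1, h2, ← bind_perm, eval_zero_bind (by simp)]
  exact h

lemma pderiv_comm3 (i j : Fin 3) (f : Poly) : pderiv i (pderiv j f) = pderiv j (pderiv i f) := by
  induction f using MvPolynomial.induction_on with
  | C a => simp
  | add g h hg hh => simp only [map_add, hg, hh]
  | mul_X g k hg =>
    have hXX : ∀ a b : Fin 3, pderiv a (pderiv b (X k : Poly)) = 0 := by
      intro a b
      by_cases h : k = b
      · subst h
        simp
      · rw [pderiv_X_of_ne h, map_zero]
    simp only [Derivation.leibniz, smul_eq_mul, map_add, hg, hXX]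
    ring

/-- **Multiplicity two** -/
theorem Ctx.mult2 {f : Poly} {P Q : ℝ → Pt} (c : Ctx f P Q) (i j : Fin 3)
    (h : eval 0 (pderiv i (pderiv j f)) ≠ 0) : Meets f P Q := by
  by_cases hij : i = j
  · subst hij
    exact c.mult2ii i h
  by_cases h1 : eval 0 (pderiv i (pderiv i f)) = 0
  swap
  · exact c.mult2ii i h1
  by_cases h2 : eval 0 (pderiv j (pderiv j f)) = 0
  swap
  · exact c.mult2ii j h2
  have hX0 : eval (0 : Pt) (X i : Poly) = 0 := by simp
  have hc := cc_shear (j := j) (φ := X i) (free_X hij) hX0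
  refine Meets.map_back hc ?_
  apply (c.map hc).mult2ii i
  have hΨ : ∀ k, eval (0 : Pt) (Function.update X j (X j - X i) k) = 0 := by
    intro k
    by_cases hk : k = j
    · subst hk
      rw [Function.update_self]
      simp
    · rw [Function.update_of_ne hk]
      simp
  rw [pderiv_shear hij, map_sub, pderiv_shear hij, pderiv_shear hij, map_sub, map_sub, map_sub,
    eval_zero_bind hΨ, eval_zero_bind hΨ, eval_zero_bind hΨ, eval_zero_bind hΨ, h1, h2,
    pderiv_comm3 j i f]
  intro h3
  apply h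
  linarith

end Pool.Agent.SepArc
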