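import Pool.Agent.Lib.MP_1a4606_ag.O3f
import Pool.Agent.Lib.MP_1a4606_ag.Mono2
import Pool.Agent.Lib.MP_1a4606_ag.Mult

/-!
# Arcs and separation (MP_1a4606_ag): rational arcs
-/

set_option autoImplicit false

open Filter Topology MvPolynomial

namespace Pool.Agent.SepArc

/-- the rational arc with numerators `a` and denominator `b` -/
noncomputable def rarc (a : Fin 3 → Polynomial ℝ) (b : Polynomial ℝ) (t : ℝ) : Pt :=
  fun i => (a i).eval t / b.eval t

lemma ev_ne {b : Polynomial ℝ} (hb : b.eval 0 ≠ 0) : ∀ᶠ t in 𝓝[>] (0 : ℝ), b.eval t ≠ 0 := by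
  have h1 : ∀ᶠ t in 𝓝 (0 : ℝ), b.eval t ≠ 0 := (b.continuous.tendsto 0).eventually_ne hb
  exact h1.filter_mono nhdsWithin_le_nhds

lemma eval_rarc (a : Fin 3 → Polynomial ℝ) (b : Polynomial ℝ) (g : Poly) :
    ∃ (A : Polynomial ℝ) (n : ℕ), ∀ t, b.eval t ≠ 0 →
      eval (rarc a b t) g = A.eval t / (b.eval t) ^ n := by
  induction g using MvPolynomial.induction_on with
  | C r => exact ⟨Polynomial.C r, 0, fun t _ => by simp⟩
  | add g h hg hh =>
    obtain ⟨A, n, h1⟩ := hg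
    obtain ⟨B, m, h2⟩ := hh
    refine ⟨A * b ^ m + B * b ^ n, n + m, fun t ht => ?_⟩
    rw [map_add, h1 t ht, h2 t ht, Polynomial.eval_add, Polynomial.eval_mul, Polynomial.eval_mul,
      Polynomial.eval_pow, Polynomial.eval_pow, pow_add]
    field_simp
  | mul_X g i hg =>
    obtain ⟨A, n, h1⟩ := hg
    refine ⟨A * a i, n + 1, fun t ht => ?_⟩
    rw [map_mul, h1 t ht, eval_X, Polynomial.eval_mul, pow_succ]
    unfold rarc
    field_simp

/-- orders of one-variable polynomials -/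
lemma poly_factor {A : Polynomial ℝ} (hA : A ≠ 0) : ∃ (k : ℕ) (q : Polynomial ℝ),
    A = Polynomial.X ^ k * q ∧ q.eval 0 ≠ 0 := by
  obtain ⟨q, hq, hq'⟩ := Polynomial.exists_eq_pow_rootMultiplicity_mul_and_not_dvd A hA 0
  rw [Polynomial.C_0, sub_zero] at hq hq'
  refine ⟨_, q, hq, ?_⟩
  intro h
  apply hq'
  rw [Polynomial.X_dvd_iff, Polynomial.coeff_zero_eq_eval_zero]
  exact h

lemma isArc_rarc {a : Fin 3 → Polynomial ℝ} {b : Polynomial ℝ} (hb : b.eval 0 ≠ 0)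
    (ha : ∀ i, (a i).eval 0 = 0) : IsArc (rarc a b) := by
  refine ⟨?_, ?_, ?_⟩
  · obtain ⟨δ, hδ, h1⟩ := ev_pos_iff (ev_ne hb)
    refine ⟨δ, hδ, ?_⟩
    unfold rarc
    apply continuousOn_pi.mpr
    intro i
    exact (a i).continuous.continuousOn.div b.continuous.continuousOn h1
  · rw [tendsto_pi_nhds]
    intro i
    have h1 : Tendsto (fun t => (a i).eval t / b.eval t) (𝓝 0)
        (𝓝 ((a i).eval 0 / b.eval 0)) :=
      ((a i).continuous.tendsto 0).div (b.continuous.tendsto 0) hb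
    rw [ha i, zero_div] at h1
    exact h1.mono_left nhdsWithin_le_nhds
  · intro g
    obtain ⟨A, n, h1⟩ := eval_rarc a b g
    by_cases hA : A = 0
    · left
      filter_upwards [ev_ne hb] with t ht
      rw [h1 t ht, hA, Polynomial.eval_zero, zero_div]
    · right
      obtain ⟨k, q, hq, hq0⟩ := poly_factor hA
      refine ⟨k, q.eval 0 / (b.eval 0) ^ n, div_ne_zero hq0 (pow_ne_zero _ hb), ?_⟩
      have h2 : Tendsto (fun t => q.eval t / (b.eval t) ^ n) (𝓝 0)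
          (𝓝 (q.eval 0 / (b.eval 0) ^ n)) :=
        (q.continuous.tendsto 0).div ((b.continuous.tendsto 0).pow n) (pow_ne_zero _ hb)
      refine (h2.mono_left (nhdsWithin_le_nhds (s := Set.Ioi (0 : ℝ)))).congr' ?_
      filter_upwards [ev_ne hb, pos_ev] with t e1 e2
      rw [h1 t e1, hq, Polynomial.eval_mul, Polynomial.eval_pow, Polynomial.eval_X]
      have : t ^ k ≠ 0 := pow_ne_zero _ e2.ne'
      field_simp

/-- the order of a coordinate -/
lemma hasOrd_rarc {a : Fin 3 → Polynomial ℝ} {b : Polynomial ℝ} (hb : b.eval 0 ≠ 0) {i : Fin 3}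
    {N : ℕ} (h : ¬ Polynomial.X ^ (N + 1) ∣ a i) : ∃ m ≤ N, HasOrd (rarc a b) (X i) m := by
  have hA : a i ≠ 0 := by
    intro h0
    apply h
    rw [h0]
    exact dvd_zero _
  obtain ⟨k, q, hq, hq0⟩ := poly_factor hA
  have hk : k ≤ N := by
    by_contra hcon
    apply h
    rw [hq]
    exact Dvd.dvd.mul_right (pow_dvd_pow _ (by omega)) q
  refine ⟨k, hk, q.eval 0 / b.eval 0, div_ne_zero hq0 hb, ?_⟩
  have h2 : Tendsto (fun t => q.eval t / b.eval t) (𝓝 0) (𝓝 (q.eval 0 / b.eval 0)) :=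
    (q.continuous.tendsto 0).div (b.continuous.tendsto 0) hb
  refine (h2.mono_left (nhdsWithin_le_nhds (s := Set.Ioi (0 : ℝ)))).congr' ?_
  filter_upwards [ev_ne hb, pos_ev] with t e1 e2
  rw [eval_X]
  unfold rarc
  rw [hq, Polynomial.eval_mul, Polynomial.eval_pow, Polynomial.eval_X]
  have : t ^ k ≠ 0 := pow_ne_zero _ e2.ne'
  field_simp

/-- the end of all the proofs -/
theorem finish {f : Poly} {a c : Fin 3 → Polynomial ℝ} {b d : Polynomial ℝ}
    (hb : b.eval 0 ≠ 0) (hd : d.eval 0 ≠ 0) (ha : ∀ i, (a i).eval 0 = 0)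
    (hc : ∀ i, (c i).eval 0 = 0)
    (hadm : ∃ ε > (0 : ℝ), ∀ s ∈ Set.Ioo (0 : ℝ) ε, ∀ t ∈ Set.Ioo (0 : ℝ) ε,
       0 < MvPolynomial.eval (fun i => (a i).eval s / b.eval s) f ∧
       0 < MvPolynomial.eval (fun i => (c i).eval t / d.eval t) f ∧
       connectedComponentIn {x : Fin 3 → ℝ | 0 < MvPolynomial.eval x f}
           (fun i => (a i).eval s / b.eval s) ≠
         connectedComponentIn {x : Fin 3 → ℝ | 0 < MvPolynomial.eval x f}
           (fun i => (c i).eval t / d.eval t))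
    (main : Ctx f (rarc a b) (rarc c d) → Meets f (rarc a b) (rarc c d)) :
    ∃ g : MvPolynomial (Fin 3) ℝ, ∃ ε > (0 : ℝ), ∀ t ∈ Set.Ioo (0 : ℝ) ε,
       MvPolynomial.eval (fun i => (a i).eval t / b.eval t) f ≤
         MvPolynomial.eval (fun i => (a i).eval t / b.eval t) g ∧
       MvPolynomial.eval (fun i => (c i).eval t / d.eval t) g ≤ 0 := by
  obtain ⟨ε, hε, h1⟩ := hadm
  by_cases hsep : Sep f (rarc a b) (rarc c d)
  · obtain ⟨g, hg⟩ := hsep
    obtain ⟨δ, hδ, h2⟩ := ev_pos_iff hg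
    exact ⟨g, δ, hδ, h2⟩
  · exfalso
    have hf : FPos (rarc a b) f := by
      filter_upwards [pos_ev, lt_ev hε] with t e1 e2
      exact (h1 t ⟨e1, e2⟩ t ⟨e1, e2⟩).1
    have hfQ : FPos (rarc c d) f := by
      filter_upwards [pos_ev, lt_ev hε] with t e1 e2
      exact (h1 t ⟨e1, e2⟩ t ⟨e1, e2⟩).2.1
    have hm := main ⟨isArc_rarc hb ha, isArc_rarc hd hc, hf, hfQ, hsep⟩
    obtain ⟨p, e1, e2, e3, e4, e5⟩ := (hm.and_eventually ((ev_fst pos_ev).and
      ((ev_fst (lt_ev hε)).and ((ev_snd pos_ev).and (ev_snd (lt_ev hε)))))).exists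
    exact (h1 p.1 ⟨e2, e3⟩ p.2 ⟨e4, e5⟩).2.2 e1.component_eq

lemma lo_of_tendsto {f h : Poly} {R : ℝ → Pt} (hf : FPos R f)
    (hlo : Tendsto (fun t => eval (R t) h / eval (R t) f) (𝓝[>] 0) (𝓝 0)) : LO R h f := by
  intro ε hε
  have h1 := (hlo.abs).eventually (eventually_lt_nhds (show |(0 : ℝ)| < ε by simpa using hε))
  filter_upwards [h1, hf] with t e1 e2
  rw [abs_div, abs_of_pos e2, div_lt_iff₀ e2] at e1
  rw [abs_of_pos e2]
  exact e1.le

lemma Ctx.swap {f : Poly} {P Q : ℝ → Pt} (c : Ctx f P Q) : Ctx f Q P :=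
  ⟨c.hQ, c.hP, c.hfQ, c.hf, not_sep_symm c.hns⟩

lemma Meets.swap {f : Poly} {P Q : ℝ → Pt} (h : Meets f P Q) : Meets f Q P := by
  intro hcon
  apply h
  have h1 : ∀ᶠ p in FF, ¬ Conn f (Q p.2) (P p.1) :=
    (Filter.tendsto_prod_swap (f := 𝓝[>] (0 : ℝ)) (g := 𝓝[>] (0 : ℝ))).eventually hcon
  filter_upwards [h1] with p hp h2
  exact hp h2.symm

end Pool.Agent.SepArc
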