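import Pool.Agent.Lib.MP_1a4606_ag.Red

/-!
# Arcs and separation (MP_1a4606_ag): monomial arcs
-/

set_option autoImplicit false

open Filter Topology MvPolynomial

namespace Pool.Agent.SepArc

/-- weighted degree -/
def wt (n : Fin 3 → ℕ) (α : Fin 3 →₀ ℕ) : ℕ := n 0 * α 0 + n 1 * α 1 + n 2 * α 2

/-- the monomial with exponent `α` -/
noncomputable def mon (α : Fin 3 →₀ ℕ) : Poly := monomial α 1

lemma eval_monomial3 (x : Pt) (α : Fin 3 →₀ ℕ) (r : ℝ) :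
    eval x (monomial α r) = r * (x 0 ^ α 0 * x 1 ^ α 1 * x 2 ^ α 2) := by
  rw [eval_monomial, Finsupp.prod_fintype _ _ (fun i => pow_zero _), Fin.prod_univ_three]

lemma eval_mon (x : Pt) (α : Fin 3 →₀ ℕ) :
    eval x (mon α) = x 0 ^ α 0 * x 1 ^ α 1 * x 2 ^ α 2 := by
  unfold mon
  rw [eval_monomial3, one_mul]

lemma monomial_eq_mon (α : Fin 3 →₀ ℕ) (r : ℝ) : monomial α r = C r * mon α := by
  unfold mon
  rw [C_mul_monomial, mul_one]

/-- the ratio inequality -/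
lemma rpow_diff {A B τ : ℝ} (hA : 0 < A) (hB : 0 < B) (h0 : 0 ≤ τ) (h1 : τ ≤ 1) :
    |A ^ τ - B ^ τ| ≤ B ^ τ * (|A - B| / B) := by
  have hρ : 0 < A / B := div_pos hA hB
  have e1 : A ^ τ - B ^ τ = B ^ τ * ((A / B) ^ τ - 1) := by
    rw [Real.div_rpow hA.le hB.le]
    have : B ^ τ ≠ 0 := (Real.rpow_pos_of_pos hB τ).ne'
    field_simp
  have e2 : |A - B| / B = |A / B - 1| := by
    have : A / B - 1 = (A - B) / B := by field_simp
    rw [this, abs_div, abs_of_pos hB]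
  rw [e1, e2, abs_mul, abs_of_pos (Real.rpow_pos_of_pos hB τ)]
  apply mul_le_mul_of_nonneg_left _ (Real.rpow_pos_of_pos hB τ).le
  rcases le_total 1 (A / B) with h | h
  · have h3 : (A / B) ^ τ ≤ A / B := by
      calc (A / B) ^ τ ≤ (A / B) ^ (1 : ℝ) := Real.rpow_le_rpow_of_exponent_le h h1
        _ = A / B := Real.rpow_one _
    have h4 : 1 ≤ (A / B) ^ τ := Real.one_le_rpow h h0
    rw [abs_of_nonneg (by linarith), abs_of_nonneg (by linarith)]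
    linarith
  · have h3 : A / B ≤ (A / B) ^ τ := by
      calc A / B = (A / B) ^ (1 : ℝ) := (Real.rpow_one _).symm
        _ ≤ (A / B) ^ τ := Real.rpow_le_rpow_of_exponent_ge hρ h h1
    have h4 : (A / B) ^ τ ≤ 1 := Real.rpow_le_one hρ.le h h0
    rw [abs_of_nonpos (by linarith), abs_of_nonpos (by linarith)]
    linarith

lemma pow_path {v q τ : ℝ} (hv : 0 < v) (hq : 0 < q) (n a : ℕ) :
    ((v ^ n) ^ (1 - τ) * q ^ τ) ^ a = (v ^ (n * a)) ^ (1 - τ) * (q ^ a) ^ τ := by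
  rw [mul_pow, ← Real.rpow_natCast ((v ^ n) ^ (1 - τ)) a, ← Real.rpow_mul (by positivity),
    mul_comm (1 - τ) (a : ℝ), Real.rpow_mul (by positivity), Real.rpow_natCast,
    ← Real.rpow_natCast (q ^ τ) a, ← Real.rpow_mul hq.le, mul_comm τ (a : ℝ),
    Real.rpow_mul hq.le, Real.rpow_natCast, pow_mul]

/-- the log-linear path -/
noncomputable def gam (n : Fin 3 → ℕ) (A : Fin 3 → Prop) (v : ℝ) (q : Pt) (τ : ℝ) : Pt :=
  open Classical in fun i => if A i then (v ^ n i) ^ (1 - τ) * (q i) ^ τ else 0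

lemma gam_pow {n : Fin 3 → ℕ} {A : Fin 3 → Prop} {v : ℝ} {q : Pt} {τ : ℝ} (hv : 0 < v)
    (hq : ∀ i, A i → 0 < q i) {α : Fin 3 →₀ ℕ} (i : Fin 3) (hα : α i ≠ 0 → A i) :
    gam n A v q τ i ^ α i = (v ^ (n i * α i)) ^ (1 - τ) * (q i ^ α i) ^ τ := by
  by_cases h : α i = 0
  · rw [h]
    simp
  · have hi := hα h
    unfold gam
    simp only [hi, if_true]
    exact pow_path hv (hq i hi) _ _

lemma qpow_pos {A : Fin 3 → Prop} {q : Pt} (hq : ∀ i, A i → 0 < q i) {α : Fin 3 →₀ ℕ}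
    (i : Fin 3) (hα : α i ≠ 0 → A i) : 0 < q i ^ α i := by
  by_cases h : α i = 0
  · rw [h, pow_zero]
    exact one_pos
  · exact pow_pos (hq i (hα h)) _

lemma mon_pos {A : Fin 3 → Prop} {q : Pt} (hq : ∀ i, A i → 0 < q i) {α : Fin 3 →₀ ℕ}
    (hα : ∀ i, α i ≠ 0 → A i) : 0 < eval q (mon α) := by
  rw [eval_mon]
  exact mul_pos (mul_pos (qpow_pos hq 0 (hα 0)) (qpow_pos hq 1 (hα 1))) (qpow_pos hq 2 (hα 2))

/-- a monomial along the path -/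
lemma gam_mon {n : Fin 3 → ℕ} {A : Fin 3 → Prop} {v : ℝ} {q : Pt} {τ : ℝ} (hv : 0 < v)
    (hq : ∀ i, A i → 0 < q i) {α : Fin 3 →₀ ℕ} (hα : ∀ i, α i ≠ 0 → A i) :
    eval (gam n A v q τ) (mon α) = (v ^ wt n α) ^ (1 - τ) * (eval q (mon α)) ^ τ := by
  rw [eval_mon, gam_pow hv hq 0 (hα 0), gam_pow hv hq 1 (hα 1), gam_pow hv hq 2 (hα 2), eval_mon]
  have p0 := (qpow_pos hq 0 (hα 0)).le
  have p1 := (qpow_pos hq 1 (hα 1)).le
  have p2 := (qpow_pos hq 2 (hα 2)).le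
  rw [Real.mul_rpow (mul_nonneg p0 p1) p2, Real.mul_rpow p0 p1]
  unfold wt
  rw [pow_add, pow_add, Real.mul_rpow (by positivity) (by positivity),
    Real.mul_rpow (by positivity) (by positivity)]
  ring

lemma gam_mon_zero {n : Fin 3 → ℕ} {A : Fin 3 → Prop} {v : ℝ} {q : Pt} {τ : ℝ}
    {α : Fin 3 →₀ ℕ} {i : Fin 3} (hi : ¬ A i) (hα : α i ≠ 0) :
    eval (gam n A v q τ) (mon α) = 0 := by
  have h0 : gam n A v q τ i ^ α i = 0 := by
    unfold gam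
    simp only [hi, if_false]
    exact zero_pow hα
  rw [eval_mon]
  fin_cases i
  · have : gam n A v q τ 0 ^ α 0 = 0 := h0
    rw [this]
    ring
  · have : gam n A v q τ 1 ^ α 1 = 0 := h0
    rw [this]
    ring
  · have : gam n A v q τ 2 ^ α 2 = 0 := h0
    rw [this]
    ring

/-- small along the paths -/
def Sm (n : Fin 3 → ℕ) (A : Fin 3 → Prop) (u : ℝ → ℝ) (Q : ℝ → Pt) (m g : Poly) : Prop :=
  ∀ ε > (0 : ℝ), ∀ᶠ s in 𝓝[>] (0 : ℝ), ∀ᶠ t in 𝓝[>] (0 : ℝ), ∀ τ ∈ Set.Icc (0 : ℝ) 1,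
    |eval (gam n A (u s) (Q t) τ) g| ≤ ε * eval (gam n A (u s) (Q t) τ) m

section

variable {n : Fin 3 → ℕ} {A : Fin 3 → Prop} {u : ℝ → ℝ} {Q : ℝ → Pt} {m : Poly}

lemma Sm.add {g h : Poly} (hg : Sm n A u Q m g) (hh : Sm n A u Q m h) : Sm n A u Q m (g + h) := by
  intro ε hε
  filter_upwards [hg (ε / 2) (by positivity), hh (ε / 2) (by positivity)] with s e1 e2
  filter_upwards [e1, e2] with t e3 e4 τ hτ
  rw [map_add]
  refine (abs_add_le _ _).trans ?_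
  linarith [e3 τ hτ, e4 τ hτ]

lemma sm_zero (hm : ∀ᶠ s in 𝓝[>] (0 : ℝ), ∀ᶠ t in 𝓝[>] (0 : ℝ), ∀ τ ∈ Set.Icc (0 : ℝ) 1,
    0 ≤ eval (gam n A (u s) (Q t) τ) m) {g : Poly}
    (hg : ∀ (v : ℝ) (q : Pt) (τ : ℝ), eval (gam n A v q τ) g = 0) : Sm n A u Q m g := by
  intro ε hε
  filter_upwards [hm] with s e1
  filter_upwards [e1] with t e2 τ hτ
  rw [hg, abs_zero]
  exact mul_nonneg hε.le (e2 τ hτ)

lemma Sm.smul {g : Poly} (hm : ∀ᶠ s in 𝓝[>] (0 : ℝ), ∀ᶠ t in 𝓝[>] (0 : ℝ),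
    ∀ τ ∈ Set.Icc (0 : ℝ) 1, 0 ≤ eval (gam n A (u s) (Q t) τ) m) (hg : Sm n A u Q m g) (r : ℝ) :
    Sm n A u Q m (C r * g) := by
  intro ε hε
  have hr : 0 < |r| + 1 := by positivity
  filter_upwards [hm, hg (ε / (|r| + 1)) (by positivity)] with s e1 e2
  filter_upwards [e1, e2] with t e3 e4 τ hτ
  rw [map_mul, eval_C, abs_mul]
  have h0 := e3 τ hτ
  calc |r| * |eval (gam n A (u s) (Q t) τ) g|
      ≤ (|r| + 1) * |eval (gam n A (u s) (Q t) τ) g| :=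
        mul_le_mul_of_nonneg_right (by linarith) (abs_nonneg _)
    _ ≤ (|r| + 1) * (ε / (|r| + 1) * eval (gam n A (u s) (Q t) τ) m) :=
        mul_le_mul_of_nonneg_left (e4 τ hτ) hr.le
    _ = ε * eval (gam n A (u s) (Q t) τ) m := by field_simp

/-- binomials are small -/
lemma sm_binom (hu : ∀ᶠ s in 𝓝[>] (0 : ℝ), 0 < u s)
    (hQ : ∀ᶠ t in 𝓝[>] (0 : ℝ), ∀ i, A i → 0 < Q t i) {α β μ : Fin 3 →₀ ℕ}
    (hα : ∀ i, α i ≠ 0 → A i) (hβ : ∀ i, β i ≠ 0 → A i) (hμ : ∀ i, μ i ≠ 0 → A i)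
    (hαβ : wt n α = wt n β) (hβμ : wt n β ≤ wt n μ)
    (h1 : LO Q (mon α - mon β) (mon μ))
    (h2 : β = μ ∨ LO Q (mon μ) (mon β)) : Sm n A u Q (mon μ) (mon α - mon β) := by
  intro ε hε
  filter_upwards [hu] with s hs
  set v := u s with hv
  obtain ⟨k, hk⟩ := Nat.exists_eq_add_of_le hβμ
  have hratio : ∀ᶠ t in 𝓝[>] (0 : ℝ), eval (Q t) (mon μ) ≤ v ^ k * eval (Q t) (mon β) := by
    rcases h2 with rfl | h2
    · have : k = 0 := by omega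
      subst this
      filter_upwards with t
      rw [pow_zero, one_mul]
    · filter_upwards [h2 (v ^ k) (by positivity), hQ] with t e1 e2
      rw [abs_of_pos (mon_pos e2 hβ), abs_of_pos (mon_pos e2 hμ)] at e1
      exact e1
  filter_upwards [hratio, h1 ε hε, hQ] with t e1 e2 e3 τ hτ
  have hA := mon_pos e3 hα
  have hB := mon_pos e3 hβ
  have hM := mon_pos e3 hμ
  rw [map_sub, gam_mon hs e3 hα, gam_mon hs e3 hβ, gam_mon hs e3 hμ, hαβ, ← mul_sub, abs_mul]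
  rw [abs_of_pos hM, map_sub] at e2
  set a := eval (Q t) (mon α)
  set b := eval (Q t) (mon β)
  set M := eval (Q t) (mon μ)
  set w := wt n β
  have hvw : 0 < (v ^ w) ^ (1 - τ) := by positivity
  rw [abs_of_pos hvw]
  have e4 := rpow_diff hA hB hτ.1 hτ.2
  have e5 : |a - b| / b ≤ ε * (M / b) := by
    rw [div_le_iff₀ hB]
    have : ε * (M / b) * b = ε * M := by field_simp
    rw [this]
    exact e2
  have hbτ : 0 < b ^ τ := by positivity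
  have e6 : (v ^ w) ^ (1 - τ) * |a ^ τ - b ^ τ| ≤
      (v ^ w) ^ (1 - τ) * (b ^ τ * (ε * (M / b))) :=
    mul_le_mul_of_nonneg_left (e4.trans (mul_le_mul_of_nonneg_left e5 hbτ.le)) hvw.le
  refine e6.trans ?_
  -- `M / b = (M / b) ^ τ * (M / b) ^ (1 - τ)`
  have hMb : 0 < M / b := by positivity
  have e7 : M / b = (M / b) ^ τ * (M / b) ^ (1 - τ) := by
    rw [← Real.rpow_add hMb]
    simp
  have e8 : (M / b) ^ τ * b ^ τ = M ^ τ := by
    rw [← Real.mul_rpow hMb.le hB.le]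
    congr 1
    field_simp
  have e9 : (M / b) ^ (1 - τ) ≤ (v ^ k) ^ (1 - τ) := by
    apply Real.rpow_le_rpow hMb.le _ (by linarith [hτ.2])
    rw [div_le_iff₀ hB]
    exact e1
  have e10 : (v ^ (wt n μ)) ^ (1 - τ) = (v ^ w) ^ (1 - τ) * (v ^ k) ^ (1 - τ) := by
    rw [← Real.mul_rpow (by positivity) (by positivity), ← pow_add, hk]
  calc (v ^ w) ^ (1 - τ) * (b ^ τ * (ε * (M / b)))
      = (v ^ w) ^ (1 - τ) * (b ^ τ * (ε * ((M / b) ^ τ * (M / b) ^ (1 - τ)))) := by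
        rw [← e7]
    _ = ε * ((v ^ w) ^ (1 - τ) * ((M / b) ^ τ * b ^ τ) * (M / b) ^ (1 - τ)) := by ring
    _ = ε * ((v ^ w) ^ (1 - τ) * M ^ τ * (M / b) ^ (1 - τ)) := by rw [e8]
    _ ≤ ε * ((v ^ w) ^ (1 - τ) * M ^ τ * (v ^ k) ^ (1 - τ)) := by
        apply mul_le_mul_of_nonneg_left _ hε.le
        exact mul_le_mul_of_nonneg_left e9 (by positivity)
    _ = ε * ((v ^ (wt n μ)) ^ (1 - τ) * M ^ τ) := by rw [e10]; ring

/-- monomials of high weight are small -/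
lemma sm_high (hu : ∀ᶠ s in 𝓝[>] (0 : ℝ), 0 < u s) (hu0 : Tendsto u (𝓝[>] 0) (𝓝 0))
    (hQ : ∀ᶠ t in 𝓝[>] (0 : ℝ), ∀ i, A i → 0 < Q t i) {α μ : Fin 3 →₀ ℕ}
    (hα : ∀ i, α i ≠ 0 → A i) (hμ : ∀ i, μ i ≠ 0 → A i)
    (hαμ : wt n μ < wt n α)
    (h1 : LO Q (mon α) (mon μ)) : Sm n A u Q (mon μ) (mon α) := by
  intro ε hε
  have hu1 : ∀ᶠ s in 𝓝[>] (0 : ℝ), u s < min ε 1 :=
    hu0.eventually (eventually_lt_nhds (lt_min hε one_pos))
  filter_upwards [hu, hu1] with s hs hs1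
  filter_upwards [h1 ε hε, hQ] with t e2 e3 τ hτ
  have hA := mon_pos e3 hα
  have hM := mon_pos e3 hμ
  rw [gam_mon hs e3 hα, gam_mon hs e3 hμ]
  rw [abs_of_pos hA, abs_of_pos hM] at e2
  rw [abs_of_pos (by positivity)]
  obtain ⟨k, hk⟩ := Nat.exists_eq_add_of_lt hαμ
  have hsε : u s ≤ ε := (hs1.trans_le (min_le_left _ _)).le
  have hs1' : u s ≤ 1 := (hs1.trans_le (min_le_right _ _)).le
  have e4 : u s ^ wt n α ≤ ε * u s ^ wt n μ := by
    rw [hk, pow_add, pow_add, pow_one]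
    have h3 : u s ^ k ≤ 1 := pow_le_one₀ hs.le hs1'
    have h4 : 0 < u s ^ wt n μ := by positivity
    calc u s ^ wt n μ * u s ^ k * u s ≤ u s ^ wt n μ * 1 * u s := by
          apply mul_le_mul_of_nonneg_right _ hs.le
          exact mul_le_mul_of_nonneg_left h3 h4.le
      _ ≤ u s ^ wt n μ * 1 * ε := mul_le_mul_of_nonneg_left hsε (by positivity)
      _ = ε * u s ^ wt n μ := by ring
  have e5 : (u s ^ wt n α) ^ (1 - τ) ≤ ε ^ (1 - τ) * (u s ^ wt n μ) ^ (1 - τ) := by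
    rw [← Real.mul_rpow hε.le (by positivity)]
    exact Real.rpow_le_rpow (by positivity) e4 (by linarith [hτ.2])
  have e6 : (eval (Q t) (mon α)) ^ τ ≤ ε ^ τ * (eval (Q t) (mon μ)) ^ τ := by
    rw [← Real.mul_rpow hε.le hM.le]
    exact Real.rpow_le_rpow hA.le e2 hτ.1
  have e7 : ε ^ (1 - τ) * ε ^ τ = ε := by
    rw [← Real.rpow_add hε]
    simp
  calc (u s ^ wt n α) ^ (1 - τ) * (eval (Q t) (mon α)) ^ τ
      ≤ (ε ^ (1 - τ) * (u s ^ wt n μ) ^ (1 - τ)) * (ε ^ τ * (eval (Q t) (mon μ)) ^ τ) :=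
        mul_le_mul e5 e6 (by positivity) (by positivity)
    _ = (ε ^ (1 - τ) * ε ^ τ) * ((u s ^ wt n μ) ^ (1 - τ) * (eval (Q t) (mon μ)) ^ τ) := by ring
    _ = _ := by rw [e7]

end

end Pool.Agent.SepArc
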