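import Mathlib

/-!
# Arcs and separation (MP_1a4606_ag): estimates for arcs of order three
-/

set_option autoImplicit false

namespace Pool.Agent.SepArc

/-- a monomial inequality at the ends of an interval holds on the interval -/
lemma ratio {B D u v : ℝ} (i j : ℕ) (hB : 0 ≤ B) (hD : 0 ≤ D) (hu : 0 < u)
    (h1 : B * u ^ j ≤ D * u ^ i) (h2 : B * v ^ j ≤ D * v ^ i) {y : ℝ} (hy1 : u ≤ y)
    (hy2 : y ≤ v) : B * y ^ j ≤ D * y ^ i := by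
  have hy : 0 < y := hu.trans_le hy1
  have hv : 0 < v := hy.trans_le hy2
  rcases le_total i j with h | h
  · obtain ⟨k, rfl⟩ := Nat.exists_eq_add_of_le h
    rw [pow_add] at h2 ⊢
    have h3 : B * v ^ k ≤ D := by
      have : (B * v ^ k) * v ^ i ≤ D * v ^ i := by linarith
      exact le_of_mul_le_mul_right this (pow_pos hv i)
    have h4 : B * y ^ k ≤ B * v ^ k :=
      mul_le_mul_of_nonneg_left (pow_le_pow_left₀ hy.le hy2 k) hB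
    calc B * (y ^ i * y ^ k) = (B * y ^ k) * y ^ i := by ring
      _ ≤ D * y ^ i := mul_le_mul_of_nonneg_right (h4.trans h3) (pow_pos hy i).le
  · obtain ⟨k, rfl⟩ := Nat.exists_eq_add_of_le h
    rw [pow_add] at h1 ⊢
    have h3 : B ≤ D * u ^ k := by
      have : B * u ^ j ≤ (D * u ^ k) * u ^ j := by linarith
      exact le_of_mul_le_mul_right this (pow_pos hu j)
    have h4 : D * u ^ k ≤ D * y ^ k :=
      mul_le_mul_of_nonneg_left (pow_le_pow_left₀ hu.le hy1 k) hD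
    calc B * y ^ j ≤ (D * y ^ k) * y ^ j :=
          mul_le_mul_of_nonneg_right (h3.trans h4) (pow_pos hy j).le
      _ = D * (y ^ j * y ^ k) := by ring

/-- The vertical moves. -/
lemma vertical {A0 A1 A2 B0 B1 B2 C0 C1 C2 F2 K ε φ y z Z : ℝ}
    (hA2 : 0 < A2) (hy : 0 < y) (hz : 0 < z) (hε : 0 < ε) (hε1 : ε ≤ 1 / 16)
    (hK : 0 ≤ K)
    (hzy : z ≤ ε * y) (hA0 : |A0| ≤ ε * y ^ 2) (hA1 : |A1| ≤ ε * y)
    (hk1 : |y ^ 2 - A0 - A1 * y - A2 * z| ≤ ε * φ)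
    (hk1' : |y ^ 2 - A0 - A1 * y - A2 * z| ≤ ε * y ^ 2)
    (hk2 : |y * z - B0 - B1 * y - B2 * z| ≤ ε * φ)
    (hk3 : |z ^ 2 - C0 - C1 * y - C2 * z| ≤ ε * φ)
    (hF2 : |F2| ≤ K * A2) (hB2 : |B2| ≤ ε * y) (hC2 : |C2| ≤ ε * z)
    (hZ : A2 * Z = y ^ 2 - A0 - A1 * y) :
    |Z - z| ≤ 2 * ε * z ∧ y ^ 2 ≤ 2 * (A2 * z) ∧ ∀ z', |z' - z| ≤ |Z - z| →
      |F2 * (z' - z)| ≤ K * ε * φ ∧
      |y ^ 2 - A0 - A1 * y - A2 * z'| ≤ 2 * ε * φ ∧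
      |y * z' - B0 - B1 * y - B2 * z'| ≤ 2 * ε * φ ∧
      |z' ^ 2 - C0 - C1 * y - C2 * z'| ≤ 2 * ε * φ := by
  have e0 : A2 * (Z - z) = y ^ 2 - A0 - A1 * y - A2 * z := by linarith
  have e00 : A2 * |Z - z| = |y ^ 2 - A0 - A1 * y - A2 * z| := by
    rw [← e0, abs_mul, abs_of_pos hA2]
  have e1 : A2 * |Z - z| ≤ ε * φ := by rwa [e00]
  have e1' : A2 * |Z - z| ≤ ε * y ^ 2 := by rwa [e00]
  have hA1y : |A1 * y| ≤ ε * y ^ 2 := by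
    rw [abs_mul, abs_of_pos hy]
    nlinarith
  have e2 : y ^ 2 ≤ 2 * (A2 * z) := by
    have h1 := (abs_le.mp hA0)
    have h2 := (abs_le.mp hA1y)
    have h3 := (abs_le.mp hk1')
    have h4 : 0 < y ^ 2 := by positivity
    nlinarith
  have e3 : |Z - z| ≤ 2 * ε * z := by
    have h1 : A2 * |Z - z| ≤ A2 * (2 * ε * z) := by nlinarith
    exact le_of_mul_le_mul_left h1 hA2
  have e4 : y ≤ 2 * ε * A2 := by
    have h1 : y * y ≤ y * (2 * ε * A2) := by nlinarith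
    exact le_of_mul_le_mul_left h1 hy
  refine ⟨e3, e2, fun z' hz' => ?_⟩
  have hD0 : 0 ≤ |z' - z| := abs_nonneg _
  have e5 : A2 * |z' - z| ≤ ε * φ := (mul_le_mul_of_nonneg_left hz' hA2.le).trans e1
  refine ⟨?_, ?_, ?_, ?_⟩
  · rw [abs_mul]
    calc |F2| * |z' - z| ≤ (K * A2) * |z' - z| := mul_le_mul_of_nonneg_right hF2 hD0
      _ = K * (A2 * |z' - z|) := by ring
      _ ≤ K * (ε * φ) := mul_le_mul_of_nonneg_left e5 hK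
      _ = K * ε * φ := by ring
  · have h1 : y ^ 2 - A0 - A1 * y - A2 * z' =
        (y ^ 2 - A0 - A1 * y - A2 * z) - A2 * (z' - z) := by ring
    rw [h1]
    refine (abs_sub _ _).trans ?_
    rw [abs_mul, abs_of_pos hA2]
    linarith
  · have h1 : y * z' - B0 - B1 * y - B2 * z' =
        (y * z - B0 - B1 * y - B2 * z) + (y - B2) * (z' - z) := by ring
    rw [h1]
    refine (abs_add_le _ _).trans ?_
    rw [abs_mul]
    have h2 : |y - B2| ≤ A2 := by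
      refine (abs_sub _ _).trans ?_
      rw [abs_of_pos hy]
      nlinarith
    have h3 : |y - B2| * |z' - z| ≤ A2 * |z' - z| := mul_le_mul_of_nonneg_right h2 hD0
    linarith
  · have h1 : z' ^ 2 - C0 - C1 * y - C2 * z' =
        (z ^ 2 - C0 - C1 * y - C2 * z) + (2 * z + (z' - z) - C2) * (z' - z) := by ring
    rw [h1]
    refine (abs_add_le _ _).trans ?_
    rw [abs_mul]
    have h2 : |2 * z + (z' - z) - C2| ≤ A2 := by
      refine (abs_sub _ _).trans ?_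
      have h3 : |2 * z + (z' - z)| ≤ 2 * z + 2 * ε * z := by
        refine (abs_add_le _ _).trans ?_
        rw [abs_of_pos (by positivity : 0 < 2 * z)]
        linarith
      have h4 : 2 * z + 2 * ε * z + ε * z ≤ 3 * z := by
        have : ε * z ≤ 1 / 16 * z := mul_le_mul_of_nonneg_right hε1 hz.le
        linarith
      have h5 : 3 * z ≤ 3 * (ε * (2 * ε * A2)) := by
        have := mul_le_mul_of_nonneg_left e4 hε.le
        linarith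
      have h6 : 3 * (ε * (2 * ε * A2)) ≤ A2 := by
        have h7 : ε * ε ≤ 1 / 16 * (1 / 16) := mul_le_mul hε1 hε1 hε.le (by norm_num)
        have h8 : (ε * ε) * A2 ≤ (1 / 16 * (1 / 16)) * A2 := mul_le_mul_of_nonneg_right h7 hA2.le
        linarith
      linarith
    have h3 : |2 * z + (z' - z) - C2| * |z' - z| ≤ A2 * |z' - z| :=
      mul_le_mul_of_nonneg_right h2 hD0
    linarith

/-- Value of a sum with small perturbation terms, vertical version. -/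
lemma vertical_pos {K L ε φ a k1 k2 k3 k1' k2' k3' h1 h2 h3 h1' h2' h3' d s s' : ℝ}
    (hφ : 0 < φ) (hεL : (K + 9 * L) * ε ≤ 1 / 2)
    (e1 : |k1| ≤ ε * φ) (e2 : |k2| ≤ ε * φ) (e3 : |k3| ≤ ε * φ)
    (e1' : |k1'| ≤ 2 * ε * φ) (e2' : |k2'| ≤ 2 * ε * φ) (e3' : |k3'| ≤ 2 * ε * φ)
    (b1 : |h1| ≤ L) (b2 : |h2| ≤ L) (b3 : |h3| ≤ L)
    (b1' : |h1'| ≤ L) (b2' : |h2'| ≤ L) (b3' : |h3'| ≤ L)
    (hd : |d| ≤ K * ε * φ) (hφ' : φ = a + s + (k1 * h1 + k2 * h2 + k3 * h3))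
    (hss : s' - s = d) :
    φ / 2 ≤ a + s' + (k1' * h1' + k2' * h2' + k3' * h3') ∧
      a + s' + (k1' * h1' + k2' * h2' + k3' * h3') ≤ 2 * φ := by
  have p : ∀ {k h c : ℝ}, |k| ≤ c → |h| ≤ L → |k * h| ≤ c * L := by
    intro k h c hk hh
    rw [abs_mul]
    exact mul_le_mul hk hh (abs_nonneg _) ((abs_nonneg _).trans hk)
  have q1 := abs_le.mp (p e1 b1)
  have q2 := abs_le.mp (p e2 b2)
  have q3 := abs_le.mp (p e3 b3)
  have q1' := abs_le.mp (p e1' b1')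
  have q2' := abs_le.mp (p e2' b2')
  have q3' := abs_le.mp (p e3' b3')
  have q4 := abs_le.mp hd
  have h5 : (K + 9 * L) * ε * φ ≤ 1 / 2 * φ := mul_le_mul_of_nonneg_right hεL hφ.le
  constructor
  · nlinarith [q1.1, q1.2, q2.1, q2.2, q3.1, q3.2, q1'.1, q2'.1, q3'.1, q4.1]
  · nlinarith [q1.1, q1.2, q2.1, q2.2, q3.1, q3.2, q1'.2, q2'.2, q3'.2, q4.2]

/-- The curved move: positivity. -/
lemma curve_pos {A0 A1 A2 F0 F1 F2 R0 R1 R2 G L δ u v : ℝ} {i : ℕ} {Z k2 k3 h2 h3 : ℝ → ℝ}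
    (hA2 : 0 < A2) (hu : 0 < u) (hG : 0 < G) (hδ : 0 < δ)
    (hδL : (7 + 2 * L) * δ < 1) (hZ : ∀ y, A2 * Z y = y ^ 2 - A0 - A1 * y)
    (hid : ∀ y, F0 + F1 * y + F2 / A2 * y ^ 2 = G * y ^ i + R0 + R1 * y + R2 * y ^ 2)
    (hR0 : ∀ r, r = u ∨ r = v → |R0| ≤ δ * G * r ^ i)
    (hR1 : ∀ r, r = u ∨ r = v → |R1| * r ≤ δ * G * r ^ i)
    (hR2 : ∀ r, r = u ∨ r = v → |R2| * r ^ 2 ≤ δ * G * r ^ i)
    (hF2 : ∀ r, r = u ∨ r = v → |F2 / A2| * r ^ 2 ≤ 2 * G * r ^ i)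
    (hA0 : |A0| ≤ δ * u ^ 2) (hA1 : |A1| ≤ δ * u)
    (hk2 : ∀ y, u ≤ y → y ≤ v → |k2 y| ≤ δ * G * y ^ i)
    (hk3 : ∀ y, u ≤ y → y ≤ v → |k3 y| ≤ δ * G * y ^ i)
    (hh2 : ∀ y, u ≤ y → y ≤ v → |h2 y| ≤ L) (hh3 : ∀ y, u ≤ y → y ≤ v → |h3 y| ≤ L) :
    ∀ y, u ≤ y → y ≤ v → 0 < F0 + F1 * y + F2 * Z y + (k2 y * h2 y + k3 y * h3 y) := by
  intro y hy1 hy2
  have hy : 0 < y := hu.trans_le hy1
  have hδG : 0 ≤ δ * G := by positivity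
  have hm : 0 < G * y ^ i := by positivity
  have r0 : |R0| ≤ δ * G * y ^ i := by
    have := ratio i 0 (abs_nonneg R0) hδG hu (v := v)
      (by simpa using hR0 u (Or.inl rfl)) (by simpa using hR0 v (Or.inr rfl)) hy1 hy2
    simpa using this
  have r1 : |R1| * y ≤ δ * G * y ^ i := by
    have := ratio i 1 (abs_nonneg R1) hδG hu (v := v)
      (by simpa using hR1 u (Or.inl rfl)) (by simpa using hR1 v (Or.inr rfl)) hy1 hy2
    simpa using this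
  have r2 : |R2| * y ^ 2 ≤ δ * G * y ^ i :=
    ratio i 2 (abs_nonneg R2) hδG hu (hR2 u (Or.inl rfl)) (hR2 v (Or.inr rfl)) hy1 hy2
  have r3 : |F2 / A2| * y ^ 2 ≤ 2 * G * y ^ i :=
    ratio i 2 (abs_nonneg _) (by positivity) hu (hF2 u (Or.inl rfl)) (hF2 v (Or.inr rfl)) hy1 hy2
  have a0 : |A0| ≤ δ * y ^ 2 := hA0.trans (by
    apply mul_le_mul_of_nonneg_left _ hδ.le
    exact pow_le_pow_left₀ hu.le hy1 2)
  have a1 : |A1 * y| ≤ δ * y ^ 2 := by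
    rw [abs_mul, abs_of_pos hy]
    have : |A1| ≤ δ * y := hA1.trans (mul_le_mul_of_nonneg_left hy1 hδ.le)
    nlinarith
  have r4 : |F2 / A2 * (A0 + A1 * y)| ≤ 4 * δ * (G * y ^ i) := by
    rw [abs_mul]
    have h1 : |A0 + A1 * y| ≤ 2 * δ * y ^ 2 := (abs_add_le _ _).trans (by linarith)
    calc |F2 / A2| * |A0 + A1 * y| ≤ |F2 / A2| * (2 * δ * y ^ 2) :=
          mul_le_mul_of_nonneg_left h1 (abs_nonneg _)
      _ = 2 * δ * (|F2 / A2| * y ^ 2) := by ring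
      _ ≤ 2 * δ * (2 * G * y ^ i) := mul_le_mul_of_nonneg_left r3 (by positivity)
      _ = 4 * δ * (G * y ^ i) := by ring
  have r5 : F2 * Z y = F2 / A2 * y ^ 2 - F2 / A2 * (A0 + A1 * y) := by
    have : Z y = (y ^ 2 - A0 - A1 * y) / A2 := by
      rw [eq_div_iff hA2.ne']
      linarith [hZ y]
    rw [this]
    field_simp
    ring
  have p : ∀ {k h c : ℝ}, |k| ≤ c → |h| ≤ L → |k * h| ≤ c * L := by
    intro k h c hk hh
    rw [abs_mul]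
    exact mul_le_mul hk hh (abs_nonneg _) ((abs_nonneg _).trans hk)
  have q2 := abs_le.mp (p (hk2 y hy1 hy2) (hh2 y hy1 hy2))
  have q3 := abs_le.mp (p (hk3 y hy1 hy2) (hh3 y hy1 hy2))
  have q4 := abs_le.mp r4
  have q0 := abs_le.mp r0
  have q1 : -(δ * G * y ^ i) ≤ R1 * y := by
    have : |R1 * y| ≤ δ * G * y ^ i := by rwa [abs_mul, abs_of_pos hy]
    exact (abs_le.mp this).1
  have q5 : -(δ * G * y ^ i) ≤ R2 * y ^ 2 := by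
    have : |R2 * y ^ 2| ≤ δ * G * y ^ i := by
      rwa [abs_mul, abs_of_pos (show 0 < y ^ 2 by positivity)]
    exact (abs_le.mp this).1
  have e1 : F0 + F1 * y + F2 * Z y + (k2 y * h2 y + k3 y * h3 y) =
      G * y ^ i + R0 + R1 * y + R2 * y ^ 2 - F2 / A2 * (A0 + A1 * y) +
        (k2 y * h2 y + k3 y * h3 y) := by
    rw [r5, ← hid y]
    ring
  rw [e1]
  have h5 : (7 + 2 * L) * δ * (G * y ^ i) < 1 * (G * y ^ i) := mul_lt_mul_of_pos_right hδL hm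
  have h6 : (7 + 2 * L) * δ * (G * y ^ i) = 7 * (δ * G * y ^ i) + 2 * (δ * G * y ^ i * L) := by
    ring
  nlinarith [q2.1, q3.1, q4.2, q0.1]

/-- size of `Z` on the curve -/
lemma z_bounds {A0 A1 A2 δ u : ℝ} {Z : ℝ → ℝ} (hu : 0 < u) (hδ : 0 < δ)
    (hδ1 : δ ≤ 1 / 16) (hZ : ∀ y, A2 * Z y = y ^ 2 - A0 - A1 * y)
    (hA0 : |A0| ≤ δ * u ^ 2) (hA1 : |A1| ≤ δ * u) {y : ℝ} (hy : u ≤ y) :
    7 / 8 * y ^ 2 ≤ A2 * Z y ∧ A2 * Z y ≤ 9 / 8 * y ^ 2 := by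
  have hy0 : 0 < y := hu.trans_le hy
  have h1 : |A0| ≤ 1 / 16 * y ^ 2 := by
    refine hA0.trans ?_
    have : u ^ 2 ≤ y ^ 2 := pow_le_pow_left₀ hu.le hy 2
    exact mul_le_mul hδ1 this (by positivity) (by norm_num)
  have h2 : |A1 * y| ≤ 1 / 16 * y ^ 2 := by
    rw [abs_mul, abs_of_pos hy0]
    have h3 : |A1| ≤ 1 / 16 * y := hA1.trans (mul_le_mul hδ1 hy hu.le (by norm_num))
    calc |A1| * y ≤ (1 / 16 * y) * y := mul_le_mul_of_nonneg_right h3 hy0.le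
      _ = 1 / 16 * y ^ 2 := by ring
  rw [hZ]
  have h3 := abs_le.mp h1
  have h4 := abs_le.mp h2
  constructor <;> linarith [h3.1, h3.2, h4.1, h4.2]

lemma k2_mono {A0 A1 A2 B0 B1 B2 δ u : ℝ} {Z : ℝ → ℝ} (hA2 : 0 < A2) (hu : 0 < u)
    (hδ : 0 < δ) (hδ1 : δ ≤ 1 / 16) (hZ : ∀ y, A2 * Z y = y ^ 2 - A0 - A1 * y)
    (hA0 : |A0| ≤ δ * u ^ 2) (hA1 : |A1| ≤ δ * u) (hB2 : |B2| ≤ δ * u)
    (hB1 : A2 * |B1| ≤ 2 * δ * u ^ 2) {y1 y2 : ℝ} (h1 : u ≤ y1) (h12 : y1 ≤ y2) :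
    y1 * Z y1 - B0 - B1 * y1 - B2 * Z y1 ≤ y2 * Z y2 - B0 - B1 * y2 - B2 * Z y2 := by
  have hy1 : 0 < y1 := hu.trans_le h1
  have hy2 : 0 < y2 := hy1.trans_le h12
  have hδu : δ * u ≤ 1 / 16 * y1 := mul_le_mul hδ1 h1 hu.le (by norm_num)
  have b1 := (z_bounds hu hδ hδ1 hZ hA0 hA1 (h1.trans h12)).1
  have e1 : A2 * ((y2 * Z y2 - B0 - B1 * y2 - B2 * Z y2) -
      (y1 * Z y1 - B0 - B1 * y1 - B2 * Z y1)) =
      (y2 - y1) * (A2 * Z y2 + (y1 - B2) * (y1 + y2 - A1) - A2 * B1) := by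
    have z1 := hZ y1
    have z2 := hZ y2
    linear_combination (y1 - B2) * (z2 - z1)
  have e2 : 0 ≤ (y1 - B2) * (y1 + y2 - A1) := by
    apply mul_nonneg
    · linarith [(abs_le.mp hB2).2]
    · linarith [(abs_le.mp hA1).2]
  have e3 : A2 * B1 ≤ 1 / 8 * y2 ^ 2 := by
    have h3 : A2 * B1 ≤ A2 * |B1| := mul_le_mul_of_nonneg_left (le_abs_self _) hA2.le
    have h4 : u ^ 2 ≤ y2 ^ 2 := pow_le_pow_left₀ hu.le (h1.trans h12) 2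
    have h5 : δ * u ^ 2 ≤ 1 / 16 * y2 ^ 2 := mul_le_mul hδ1 h4 (by positivity) (by norm_num)
    linarith
  have e4 : 0 ≤ (y2 - y1) * (A2 * Z y2 + (y1 - B2) * (y1 + y2 - A1) - A2 * B1) := by
    apply mul_nonneg (by linarith)
    have : 0 ≤ y2 ^ 2 := by positivity
    linarith
  rw [← e1] at e4
  have := nonneg_of_mul_nonneg_right e4 hA2
  linarith

lemma k3_mono {A0 A1 A2 C0 C1 C2 δ u : ℝ} {Z : ℝ → ℝ} (hA2 : 0 < A2) (hu : 0 < u)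
    (hδ : 0 < δ) (hδ1 : δ ≤ 1 / 16) (hZ : ∀ y, A2 * Z y = y ^ 2 - A0 - A1 * y)
    (hA0 : |A0| ≤ δ * u ^ 2) (hA1 : |A1| ≤ δ * u) (hC2 : A2 * |C2| ≤ 2 * δ * u ^ 2)
    (hC1 : A2 ^ 2 * C1 ≤ 2 * u ^ 3) {y1 y2 : ℝ} (h1 : u ≤ y1) (h12 : y1 ≤ y2) :
    Z y1 ^ 2 - C0 - C1 * y1 - C2 * Z y1 ≤ Z y2 ^ 2 - C0 - C1 * y2 - C2 * Z y2 := by
  have hy1 : 0 < y1 := hu.trans_le h1
  have hy2 : 0 < y2 := hy1.trans_le h12
  have hδu : δ * u ≤ 1 / 16 * y1 := mul_le_mul hδ1 h1 hu.le (by norm_num)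
  have b1 := (z_bounds hu hδ hδ1 hZ hA0 hA1 h1).1
  have b2 := (z_bounds hu hδ hδ1 hZ hA0 hA1 (h1.trans h12)).1
  have e1 : A2 ^ 2 * ((Z y2 ^ 2 - C0 - C1 * y2 - C2 * Z y2) -
      (Z y1 ^ 2 - C0 - C1 * y1 - C2 * Z y1)) =
      (y2 - y1) * ((y1 + y2 - A1) * (A2 * Z y1 + A2 * Z y2 - A2 * C2) - A2 ^ 2 * C1) := by
    have z1 := hZ y1
    have z2 := hZ y2
    linear_combination (A2 * Z y1 + A2 * Z y2 - A2 * C2) * (z2 - z1)
  have hy12 : y1 ^ 2 ≤ y2 ^ 2 := pow_le_pow_left₀ hy1.le h12 2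
  have hu1 : u ^ 2 ≤ y1 ^ 2 := pow_le_pow_left₀ hu.le h1 2
  have hu3 : u ^ 3 ≤ y1 ^ 3 := pow_le_pow_left₀ hu.le h1 3
  have e2 : 31 / 16 * y1 ≤ y1 + y2 - A1 := by linarith [(abs_le.mp hA1).2]
  have e3 : A2 * C2 ≤ 1 / 8 * y1 ^ 2 := by
    have h3 : A2 * C2 ≤ A2 * |C2| := mul_le_mul_of_nonneg_left (le_abs_self _) hA2.le
    have h5 : δ * u ^ 2 ≤ 1 / 16 * y1 ^ 2 := mul_le_mul hδ1 hu1 (by positivity) (by norm_num)
    linarith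
  have e4 : 13 / 8 * y1 ^ 2 ≤ A2 * Z y1 + A2 * Z y2 - A2 * C2 := by linarith
  have e5 : 2 * y1 ^ 3 ≤ (y1 + y2 - A1) * (A2 * Z y1 + A2 * Z y2 - A2 * C2) := by
    have h3 : (31 / 16 * y1) * (13 / 8 * y1 ^ 2) ≤
        (y1 + y2 - A1) * (A2 * Z y1 + A2 * Z y2 - A2 * C2) :=
      mul_le_mul e2 e4 (by positivity) (by linarith [(by positivity : 0 ≤ 31 / 16 * y1)])
    have h4 : (31 / 16 * y1) * (13 / 8 * y1 ^ 2) = 403 / 128 * y1 ^ 3 := by ring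
    have h5 : 0 < y1 ^ 3 := by positivity
    linarith
  have e6 : 0 ≤ (y2 - y1) *
      ((y1 + y2 - A1) * (A2 * Z y1 + A2 * Z y2 - A2 * C2) - A2 ^ 2 * C1) := by
    apply mul_nonneg (by linarith)
    linarith
  rw [← e1] at e6
  have := nonneg_of_mul_nonneg_right e6 (by positivity : 0 < A2 ^ 2)
  linarith

lemma mono_bound {k : ℝ → ℝ} {u v D : ℝ} {i : ℕ} (hi : i ≤ 2) (hu : 0 < u) (hD : 0 ≤ D)
    (hm : ∀ y1 y2, u ≤ y1 → y1 ≤ y2 → k y1 ≤ k y2) (h1 : |k u| ≤ D * u ^ i)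
    (h2 : |k v| ≤ D * v ^ i) (hv : v ≤ 3 * u) {y : ℝ} (hy1 : u ≤ y) (hy2 : y ≤ v) :
    |k y| ≤ 9 * D * y ^ i := by
  have hy : 0 < y := hu.trans_le hy1
  have e1 := hm u y le_rfl hy1
  have e2 := hm y v hy1 hy2
  have e3 := abs_le.mp h1
  have e4 := abs_le.mp h2
  have e5 : u ^ i ≤ y ^ i := pow_le_pow_left₀ hu.le hy1 i
  have e6 : v ^ i ≤ 9 * y ^ i := by
    have h3 : v ^ i ≤ (3 * y) ^ i := pow_le_pow_left₀ (hy.le.trans hy2) (by linarith) i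
    refine h3.trans ?_
    rw [mul_pow]
    apply mul_le_mul_of_nonneg_right _ (by positivity)
    calc (3 : ℝ) ^ i ≤ 3 ^ 2 := pow_le_pow_right₀ (by norm_num) hi
      _ = 9 := by norm_num
  have e7 : D * u ^ i ≤ 9 * D * y ^ i := by
    have h3 : D * u ^ i ≤ D * y ^ i := mul_le_mul_of_nonneg_left e5 hD
    have h4 : 0 ≤ D * y ^ i := by positivity
    linarith
  have e8 : D * v ^ i ≤ 9 * D * y ^ i := by
    have h3 : D * v ^ i ≤ D * (9 * y ^ i) := mul_le_mul_of_nonneg_left e6 hD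
    linarith
  rw [abs_le]
  constructor <;> linarith [e3.1, e4.2]

lemma yz_bound {A0 A1 A2 δ u v D : ℝ} {i : ℕ} {Z : ℝ → ℝ} (hA2 : 0 < A2) (hu : 0 < u)
    (hδ : 0 < δ) (hδ1 : δ ≤ 1 / 16) (hZ : ∀ y, A2 * Z y = y ^ 2 - A0 - A1 * y)
    (hA0 : |A0| ≤ δ * u ^ 2) (hA1 : |A1| ≤ δ * u) (hD : 0 ≤ D) (huv : u ≤ v)
    (h1 : |u * Z u| ≤ D * u ^ i) (h2 : |v * Z v| ≤ D * v ^ i) {y : ℝ} (hy1 : u ≤ y)
    (hy2 : y ≤ v) : |y * Z y| ≤ 4 * D * y ^ i := by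
  have hy : 0 < y := hu.trans_le hy1
  have st : ∀ r, u ≤ r → |r * Z r| ≤ D * r ^ i → 1 * r ^ 3 ≤ 2 * A2 * D * r ^ i := by
    intro r hr h
    have hr0 : 0 < r := hu.trans_le hr
    have b := (z_bounds hu hδ hδ1 hZ hA0 hA1 hr).1
    have h3 := (le_abs_self _).trans h
    have h4 : A2 * (r * Z r) ≤ A2 * (D * r ^ i) := mul_le_mul_of_nonneg_left h3 hA2.le
    have h5 : r * (7 / 8 * r ^ 2) ≤ r * (A2 * Z r) := mul_le_mul_of_nonneg_left b hr0.le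
    have h6 : 0 < r ^ 3 := by positivity
    have h7 : r * (7 / 8 * r ^ 2) = 7 / 8 * r ^ 3 := by ring
    have h8 : r * (A2 * Z r) = A2 * (r * Z r) := by ring
    have h9 : 2 * A2 * D * r ^ i = 2 * (A2 * (D * r ^ i)) := by ring
    linarith
  have h3 := ratio (B := 1) (D := 2 * A2 * D) i 3 zero_le_one (by positivity) hu
    (st u le_rfl h1) (st v huv h2) hy1 hy2
  obtain ⟨b1, b2⟩ := z_bounds hu hδ hδ1 hZ hA0 hA1 hy1
  have hZ0 : 0 ≤ Z y := by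
    have : 0 ≤ A2 * Z y := by
      have : 0 ≤ y ^ 2 := by positivity
      linarith
    exact nonneg_of_mul_nonneg_right this hA2
  rw [abs_of_nonneg (by positivity)]
  have h5 : y * (A2 * Z y) ≤ y * (9 / 8 * y ^ 2) := mul_le_mul_of_nonneg_left b2 hy.le
  have h6 : A2 * (y * Z y) ≤ A2 * (4 * D * y ^ i) := by
    have h7 : y * (9 / 8 * y ^ 2) = 9 / 8 * y ^ 3 := by ring
    have h8 : A2 * (4 * D * y ^ i) = 2 * (2 * A2 * D * y ^ i) := by ring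
    have h9 : 0 < y ^ 3 := by positivity
    linarith
  exact le_of_mul_le_mul_left h6 hA2

lemma zz_bound {A0 A1 A2 δ u v D : ℝ} {i : ℕ} {Z : ℝ → ℝ} (hA2 : 0 < A2) (hu : 0 < u)
    (hδ : 0 < δ) (hδ1 : δ ≤ 1 / 16) (hZ : ∀ y, A2 * Z y = y ^ 2 - A0 - A1 * y)
    (hA0 : |A0| ≤ δ * u ^ 2) (hA1 : |A1| ≤ δ * u) (hD : 0 ≤ D) (huv : u ≤ v)
    (h1 : |Z u ^ 2| ≤ D * u ^ i) (h2 : |Z v ^ 2| ≤ D * v ^ i) {y : ℝ} (hy1 : u ≤ y)
    (hy2 : y ≤ v) : |Z y ^ 2| ≤ 4 * D * y ^ i := by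
  have hy : 0 < y := hu.trans_le hy1
  have st : ∀ r, u ≤ r → |Z r ^ 2| ≤ D * r ^ i → 1 * r ^ 4 ≤ 2 * A2 ^ 2 * D * r ^ i := by
    intro r hr h
    have hr0 : 0 < r := hu.trans_le hr
    have b := (z_bounds hu hδ hδ1 hZ hA0 hA1 hr).1
    have h3 := (le_abs_self _).trans h
    have h4 : A2 ^ 2 * (Z r ^ 2) ≤ A2 ^ 2 * (D * r ^ i) :=
      mul_le_mul_of_nonneg_left h3 (by positivity)
    have h5 : (7 / 8 * r ^ 2) ^ 2 ≤ (A2 * Z r) ^ 2 := pow_le_pow_left₀ (by positivity) b 2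
    have h6 : 0 < r ^ 4 := by positivity
    have h7 : (7 / 8 * r ^ 2) ^ 2 = 49 / 64 * r ^ 4 := by ring
    have h8 : (A2 * Z r) ^ 2 = A2 ^ 2 * (Z r ^ 2) := by ring
    have h9 : 2 * A2 ^ 2 * D * r ^ i = 2 * (A2 ^ 2 * (D * r ^ i)) := by ring
    linarith
  have h3 := ratio (B := 1) (D := 2 * A2 ^ 2 * D) i 4 zero_le_one (by positivity) hu
    (st u le_rfl h1) (st v huv h2) hy1 hy2
  obtain ⟨b1, b2⟩ := z_bounds hu hδ hδ1 hZ hA0 hA1 hy1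
  have hAZ0 : 0 ≤ A2 * Z y := by
    have : 0 ≤ y ^ 2 := by positivity
    linarith
  rw [abs_of_nonneg (by positivity)]
  have h5 : (A2 * Z y) ^ 2 ≤ (9 / 8 * y ^ 2) ^ 2 := pow_le_pow_left₀ hAZ0 b2 2
  have h6 : A2 ^ 2 * (Z y ^ 2) ≤ A2 ^ 2 * (4 * D * y ^ i) := by
    have h7 : (9 / 8 * y ^ 2) ^ 2 = 81 / 64 * y ^ 4 := by ring
    have h8 : A2 ^ 2 * (4 * D * y ^ i) = 2 * (2 * A2 ^ 2 * D * y ^ i) := by ring
    have h9 : 0 < y ^ 4 := by positivity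
    have h10 : (A2 * Z y) ^ 2 = A2 ^ 2 * (Z y ^ 2) := by ring
    linarith
  exact le_of_mul_le_mul_left h6 (by positivity)

end Pool.Agent.SepArc
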