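import Pool.Agent.Lib.MP_1a4606_ag.O3a

/-!
# Arcs and separation (MP_1a4606_ag): estimates for arcs of order three, assembly
-/

set_option autoImplicit false

namespace Pool.Agent.SepArc

/-- the facts at an end point -/
structure Fct (A0 A1 A2 B0 B1 B2 C0 C1 C2 ε y z φ : ℝ) : Prop where
  hy : 0 < y
  hz : 0 < z
  hφ : 0 < φ
  hzy : z ≤ ε * y
  hA0 : |A0| ≤ ε * y ^ 2
  hA1 : |A1| ≤ ε * y
  hk1 : |y ^ 2 - A0 - A1 * y - A2 * z| ≤ ε * φ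
  hk1' : |y ^ 2 - A0 - A1 * y - A2 * z| ≤ ε * y ^ 2
  hk2 : |y * z - B0 - B1 * y - B2 * z| ≤ ε * φ
  hk3 : |z ^ 2 - C0 - C1 * y - C2 * z| ≤ ε * φ
  hB2 : |B2| ≤ ε * y
  hC2 : |C2| ≤ ε * z

/-- further facts when the second relation has a constant term -/
def FB (B0 B1 ε y z : ℝ) : Prop := |B1| ≤ ε * z ∧ |B0 - y * z| ≤ ε * (y * z)

/-- further facts when the third relation has a linear term -/
def FC (C1 ε y z : ℝ) : Prop := |C1 * y - z ^ 2| ≤ ε * z ^ 2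

/-- the alternatives for the second and third relations -/
def BC (B0 B1 B2 C0 C1 C2 ε u zu v zv : ℝ) : Prop :=
  (B0 = 0 ∧ B1 = 0 ∧ B2 = 0 ∧ C0 = 0 ∧ C1 = 0 ∧ C2 = 0) ∨
  (FB B0 B1 ε u zu ∧ FB B0 B1 ε v zv ∧
    ((C0 = 0 ∧ C1 = 0 ∧ C2 = 0) ∨ (FC C1 ε u zu ∧ FC C1 ε v zv)))

lemma Fct.az {A0 A1 A2 B0 B1 B2 C0 C1 C2 ε y z φ : ℝ}
    (h : Fct A0 A1 A2 B0 B1 B2 C0 C1 C2 ε y z φ) (hε1 : ε ≤ 1 / 16) :
    13 / 16 * y ^ 2 ≤ A2 * z ∧ A2 * z ≤ 19 / 16 * y ^ 2 := by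
  have hy := h.hy
  have hy2 : 0 < y ^ 2 := by positivity
  have h0 : ε * y ^ 2 ≤ 1 / 16 * y ^ 2 := mul_le_mul_of_nonneg_right hε1 hy2.le
  have h1 := abs_le.mp h.hA0
  have h2 := abs_le.mp h.hk1'
  have h3 : |A1 * y| ≤ 1 / 16 * y ^ 2 := by
    rw [abs_mul, abs_of_pos hy]
    calc |A1| * y ≤ (ε * y) * y := mul_le_mul_of_nonneg_right h.hA1 hy.le
      _ = ε * y ^ 2 := by ring
      _ ≤ _ := h0
  have h4 := abs_le.mp h3
  constructor <;> linarith [h1.1, h1.2, h2.1, h2.2, h4.1, h4.2]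

/-- bounds for the second and third relation on the curve -/
lemma kk {A0 A1 A2 B0 B1 B2 C0 C1 C2 F2 K ε u zu φu v zv φv G : ℝ} {i : ℕ} {Z : ℝ → ℝ}
    (hA2 : 0 < A2) (hε : 0 < ε) (hε1 : ε ≤ 1 / 16) (hK : 0 ≤ K) (hF2 : |F2| ≤ K * A2)
    (hZ : ∀ y, A2 * Z y = y ^ 2 - A0 - A1 * y)
    (hu : Fct A0 A1 A2 B0 B1 B2 C0 C1 C2 ε u zu φu)
    (hv : Fct A0 A1 A2 B0 B1 B2 C0 C1 C2 ε v zv φv) (huv : u ≤ v)
    (hBC : BC B0 B1 B2 C0 C1 C2 ε u zu v zv) (hi : i ≤ 2) (hG : 0 < G)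
    (hGu : φu ≤ 4 * G * u ^ i) (hGv : φv ≤ 4 * G * v ^ i) :
    ∀ y, u ≤ y → y ≤ v → |y * Z y - B0 - B1 * y - B2 * Z y| ≤ 72 * ε * G * y ^ i ∧
      |Z y ^ 2 - C0 - C1 * y - C2 * Z y| ≤ 72 * ε * G * y ^ i := by
  have hu0 := hu.hy
  have au := hu.az hε1
  have av := hv.az hε1
  obtain ⟨_, _, vu⟩ := vertical hA2 hu.hy hu.hz hε hε1 hK hu.hzy hu.hA0 hu.hA1 hu.hk1 hu.hk1'
    hu.hk2 hu.hk3 hF2 hu.hB2 hu.hC2 (hZ u)
  obtain ⟨_, _, vv⟩ := vertical hA2 hv.hy hv.hz hε hε1 hK hv.hzy hv.hA0 hv.hA1 hv.hk1 hv.hk1'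
    hv.hk2 hv.hk3 hF2 hv.hB2 hv.hC2 (hZ v)
  obtain ⟨_, _, pu2, pu3⟩ := vu (Z u) le_rfl
  obtain ⟨_, _, pv2, pv3⟩ := vv (Z v) le_rfl
  have conv : ∀ {a φ r : ℝ}, a ≤ 2 * ε * φ → φ ≤ 4 * G * r ^ i → a ≤ 8 * ε * G * r ^ i := by
    intro a φ r h1 h2
    calc a ≤ 2 * ε * φ := h1
      _ ≤ 2 * ε * (4 * G * r ^ i) := mul_le_mul_of_nonneg_left h2 (by positivity)
      _ = 8 * ε * G * r ^ i := by ring
  have qu2 := conv pu2 hGu
  have qu3 := conv pu3 hGu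
  have qv2 := conv pv2 hGv
  have qv3 := conv pv3 hGv
  have hD : 0 ≤ 8 * ε * G := by positivity
  have fin1 : ∀ {a y : ℝ}, 0 < y → a ≤ 4 * (8 * ε * G) * y ^ i → a ≤ 72 * ε * G * y ^ i := by
    intro a y hy ha
    have : 0 ≤ ε * G * y ^ i := by positivity
    linarith
  have fin2 : ∀ {a y : ℝ}, a ≤ 9 * (8 * ε * G) * y ^ i → a ≤ 72 * ε * G * y ^ i := by
    intro a y ha
    linarith
  rcases hBC with ⟨rfl, rfl, rfl, rfl, rfl, rfl⟩ | ⟨fbu, fbv, hC⟩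
  · intro y hy1 hy2
    have hy : 0 < y := hu0.trans_le hy1
    simp only [zero_mul, sub_zero] at qu2 qv2 qu3 qv3 ⊢
    exact ⟨fin1 hy (yz_bound hA2 hu0 hε hε1 hZ hu.hA0 hu.hA1 hD huv qu2 qv2 hy1 hy2),
      fin1 hy (zz_bound hA2 hu0 hε hε1 hZ hu.hA0 hu.hA1 hD huv qu3 qv3 hy1 hy2)⟩
  · have hv3 : v ≤ 3 * u := by
      obtain ⟨_, b1⟩ := fbu
      obtain ⟨_, b2⟩ := fbv
      have hv0 := hv.hy
      have c1 := (abs_le.mp b1).2
      have c2 := (abs_le.mp b2).1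
      have d1 : ε * (u * zu) ≤ 1 / 16 * (u * zu) :=
        mul_le_mul_of_nonneg_right hε1 (mul_pos hu0 hu.hz).le
      have d2 : ε * (v * zv) ≤ 1 / 16 * (v * zv) :=
        mul_le_mul_of_nonneg_right hε1 (mul_pos hv0 hv.hz).le
      have e1 : 15 / 16 * (v * zv) ≤ 17 / 16 * (u * zu) := by linarith
      have e2 : A2 * (15 / 16 * (v * zv)) ≤ A2 * (17 / 16 * (u * zu)) :=
        mul_le_mul_of_nonneg_left e1 hA2.le
      have e3 : v * (13 / 16 * v ^ 2) ≤ v * (A2 * zv) := mul_le_mul_of_nonneg_left av.1 hv0.le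
      have e4 : u * (A2 * zu) ≤ u * (19 / 16 * u ^ 2) := mul_le_mul_of_nonneg_left au.2 hu0.le
      have e5 : v ^ 3 ≤ 2 * u ^ 3 := by
        have f1 : A2 * (15 / 16 * (v * zv)) = 15 / 16 * (v * (A2 * zv)) := by ring
        have f2 : A2 * (17 / 16 * (u * zu)) = 17 / 16 * (u * (A2 * zu)) := by ring
        have f3 : v * (13 / 16 * v ^ 2) = 13 / 16 * v ^ 3 := by ring
        have f4 : u * (19 / 16 * u ^ 2) = 19 / 16 * u ^ 3 := by ring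
        have f5 : 0 < u ^ 3 := by positivity
        linarith
      by_contra hcon
      have hcon : 3 * u < v := not_le.mp hcon
      have e6 : (3 * u) ^ 3 ≤ v ^ 3 := pow_le_pow_left₀ (by positivity) hcon.le 3
      have e7 : (3 * u) ^ 3 = 27 * u ^ 3 := by ring
      have f5 : 0 < u ^ 3 := by positivity
      linarith
    have hεu : 0 ≤ ε * u ^ 2 := by positivity
    have hB1 : A2 * |B1| ≤ 2 * ε * u ^ 2 := by
      calc A2 * |B1| ≤ A2 * (ε * zu) := mul_le_mul_of_nonneg_left fbu.1 hA2.le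
        _ = ε * (A2 * zu) := by ring
        _ ≤ ε * (19 / 16 * u ^ 2) := mul_le_mul_of_nonneg_left au.2 hε.le
        _ ≤ 2 * ε * u ^ 2 := by linarith
    intro y hy1 hy2
    have hy : 0 < y := hu0.trans_le hy1
    refine ⟨fin2 (mono_bound (k := fun y => y * Z y - B0 - B1 * y - B2 * Z y) hi hu0 hD
      (fun y1 y2 h1 h12 => k2_mono hA2 hu0 hε hε1 hZ hu.hA0 hu.hA1 hu.hB2 hB1 h1 h12)
      qu2 qv2 hv3 hy1 hy2), ?_⟩
    rcases hC with ⟨rfl, rfl, rfl⟩ | ⟨fcu, _⟩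
    · simp only [zero_mul, sub_zero] at qu3 qv3 ⊢
      exact fin1 hy (zz_bound hA2 hu0 hε hε1 hZ hu.hA0 hu.hA1 hD huv qu3 qv3 hy1 hy2)
    · have hC2 : A2 * |C2| ≤ 2 * ε * u ^ 2 := by
        calc A2 * |C2| ≤ A2 * (ε * zu) := mul_le_mul_of_nonneg_left hu.hC2 hA2.le
          _ = ε * (A2 * zu) := by ring
          _ ≤ ε * (19 / 16 * u ^ 2) := mul_le_mul_of_nonneg_left au.2 hε.le
          _ ≤ 2 * ε * u ^ 2 := by linarith
      have hC1 : A2 ^ 2 * C1 ≤ 2 * u ^ 3 := by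
        have c1 := (abs_le.mp fcu).2
        have hz2 : 0 < zu ^ 2 := by have := hu.hz; positivity
        have d1 : ε * zu ^ 2 ≤ 1 / 16 * zu ^ 2 := mul_le_mul_of_nonneg_right hε1 hz2.le
        have e1 : C1 * u ≤ 17 / 16 * zu ^ 2 := by linarith
        have e2 : A2 ^ 2 * (C1 * u) ≤ A2 ^ 2 * (17 / 16 * zu ^ 2) :=
          mul_le_mul_of_nonneg_left e1 (by positivity)
        have hAz : 0 ≤ A2 * zu := (mul_pos hA2 hu.hz).le
        have e3 : (A2 * zu) ^ 2 ≤ (19 / 16 * u ^ 2) ^ 2 := pow_le_pow_left₀ hAz au.2 2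
        have e4 : (A2 ^ 2 * C1) * u ≤ (2 * u ^ 3) * u := by
          have f1 : A2 ^ 2 * (17 / 16 * zu ^ 2) = 17 / 16 * (A2 * zu) ^ 2 := by ring
          have f2 : (19 / 16 * u ^ 2) ^ 2 = 361 / 256 * u ^ 4 := by ring
          have f3 : (2 * u ^ 3) * u = 2 * u ^ 4 := by ring
          have f4 : (A2 ^ 2 * C1) * u = A2 ^ 2 * (C1 * u) := by ring
          have f5 : 0 < u ^ 4 := by positivity
          linarith
        exact le_of_mul_le_mul_right e4 hu0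
      exact fin2 (mono_bound (k := fun y => Z y ^ 2 - C0 - C1 * y - C2 * Z y) hi hu0 hD
        (fun y1 y2 h1 h12 => k3_mono hA2 hu0 hε hε1 hZ hu.hA0 hu.hA1 hC2 hC1 h1 h12)
        qu3 qv3 hv3 hy1 hy2)

/-- the main term, first alternative -/
def MT (i : ℕ) (F0 F1 F2 ε y z φ : ℝ) : Prop :=
  (i = 0 ∧ φ ≤ 2 * F0 ∧ |F1| * y ≤ ε * φ ∧ |F2| * z ≤ ε * φ) ∨
  (i = 1 ∧ φ ≤ 2 * (F1 * y) ∧ |F0| ≤ ε * φ ∧ |F2| * z ≤ ε * φ) ∨
  (i = 2 ∧ φ ≤ 2 * (F2 * z) ∧ |F0| ≤ ε * φ ∧ |F1| * y ≤ ε * φ)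

/-- positivity on the curve -/
lemma curve_all {A0 A1 A2 B0 B1 B2 C0 C1 C2 F0 F1 F2 K L ε u zu φu v zv φv : ℝ} {i : ℕ}
    {Z h2 h3 : ℝ → ℝ}
    (hA2 : 0 < A2) (hε : 0 < ε) (hε1 : ε ≤ 1 / 16) (hεL : (7 + 2 * L) * (72 * ε) < 1)
    (hK : 0 ≤ K) (hF2 : |F2| ≤ K * A2)
    (hZ : ∀ y, A2 * Z y = y ^ 2 - A0 - A1 * y)
    (hu : Fct A0 A1 A2 B0 B1 B2 C0 C1 C2 ε u zu φu)
    (hv : Fct A0 A1 A2 B0 B1 B2 C0 C1 C2 ε v zv φv) (huv : u ≤ v)
    (hBC : BC B0 B1 B2 C0 C1 C2 ε u zu v zv)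
    (hMu : MT i F0 F1 F2 ε u zu φu) (hMv : MT i F0 F1 F2 ε v zv φv)
    (hh2 : ∀ y, u ≤ y → y ≤ v → |h2 y| ≤ L) (hh3 : ∀ y, u ≤ y → y ≤ v → |h3 y| ≤ L) :
    ∀ y, u ≤ y → y ≤ v → 0 < F0 + F1 * y + F2 * Z y +
      ((y * Z y - B0 - B1 * y - B2 * Z y) * h2 y + (Z y ^ 2 - C0 - C1 * y - C2 * Z y) * h3 y) := by
  -- general end
  have fin : ∀ (G R0 R1 R2 : ℝ), i ≤ 2 → 0 < G →
      (∀ y, F0 + F1 * y + F2 / A2 * y ^ 2 = G * y ^ i + R0 + R1 * y + R2 * y ^ 2) →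
      (∀ r z φ, (r = u ∧ z = zu ∧ φ = φu) ∨ (r = v ∧ z = zv ∧ φ = φv) →
        φ ≤ 4 * G * r ^ i ∧ |R0| ≤ 4 * ε * G * r ^ i ∧ |R1| * r ≤ 4 * ε * G * r ^ i ∧
          |R2| * r ^ 2 ≤ 8 * ε * G * r ^ i ∧ |F2 / A2| * r ^ 2 ≤ 2 * G * r ^ i) →
      ∀ y, u ≤ y → y ≤ v → 0 < F0 + F1 * y + F2 * Z y +
        ((y * Z y - B0 - B1 * y - B2 * Z y) * h2 y +
          (Z y ^ 2 - C0 - C1 * y - C2 * Z y) * h3 y) := by
    intro G R0 R1 R2 hi hG hid hend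
    have hk := kk hA2 hε hε1 hK hF2 hZ hu hv huv hBC hi hG
      (hend u zu φu (Or.inl ⟨rfl, rfl, rfl⟩)).1 (hend v zv φv (Or.inr ⟨rfl, rfl, rfl⟩)).1
    have hend' : ∀ r, r = u ∨ r = v → |R0| ≤ 4 * ε * G * r ^ i ∧
        |R1| * r ≤ 4 * ε * G * r ^ i ∧
          |R2| * r ^ 2 ≤ 8 * ε * G * r ^ i ∧ |F2 / A2| * r ^ 2 ≤ 2 * G * r ^ i ∧ 0 < r := by
      rintro r (rfl | rfl)
      · obtain ⟨_, h1, h2, h3, h4⟩ := hend r zu φu (Or.inl ⟨rfl, rfl, rfl⟩)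
        exact ⟨h1, h2, h3, h4, hu.hy⟩
      · obtain ⟨_, h1, h2, h3, h4⟩ := hend r zv φv (Or.inr ⟨rfl, rfl, rfl⟩)
        exact ⟨h1, h2, h3, h4, hv.hy⟩
    have hu0 := hu.hy
    have hεu : 0 ≤ ε * u ^ 2 := by positivity
    have hεu' : 0 ≤ ε * u := by positivity
    refine curve_pos (δ := 72 * ε) (G := G) (R0 := R0) (R1 := R1) (R2 := R2) (i := i)
      (k2 := fun y => y * Z y - B0 - B1 * y - B2 * Z y)
      (k3 := fun y => Z y ^ 2 - C0 - C1 * y - C2 * Z y) hA2 hu0 hG (by positivity) hεL hZ hid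
      ?_ ?_ ?_ ?_ ?_ ?_ (fun y h1 h2 => (hk y h1 h2).1) (fun y h1 h2 => (hk y h1 h2).2) hh2 hh3
    · intro r hr
      obtain ⟨h1, _, _, _, h0⟩ := hend' r hr
      have : 0 ≤ ε * G * r ^ i := by positivity
      linarith
    · intro r hr
      obtain ⟨_, h1, _, _, h0⟩ := hend' r hr
      have : 0 ≤ ε * G * r ^ i := by positivity
      linarith
    · intro r hr
      obtain ⟨_, _, h1, _, h0⟩ := hend' r hr
      have : 0 ≤ ε * G * r ^ i := by positivity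
      linarith
    · intro r hr
      exact (hend' r hr).2.2.2.1
    · have := hu.hA0
      linarith
    · have := hu.hA1
      linarith
  -- the quadratic coefficient at the ends
  have quad : ∀ {r z φ : ℝ}, Fct A0 A1 A2 B0 B1 B2 C0 C1 C2 ε r z φ →
      |F2 / A2| * r ^ 2 ≤ 2 * (|F2| * z) := by
    intro r z φ h
    have h1 := (h.az hε1).1
    have h2 : |F2 / A2| = |F2| / A2 := by rw [abs_div, abs_of_pos hA2]
    rw [h2, div_mul_eq_mul_div, div_le_iff₀ hA2]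
    have h3 : 0 ≤ |F2| := abs_nonneg _
    have h4 : r ^ 2 ≤ 2 * (A2 * z) := by
      have := h.hy
      have : 0 < r ^ 2 := by positivity
      linarith
    calc |F2| * r ^ 2 ≤ |F2| * (2 * (A2 * z)) := mul_le_mul_of_nonneg_left h4 h3
      _ = 2 * (|F2| * z) * A2 := by ring
  have hFc : ∀ {r z φ : ℝ}, (r = u ∧ z = zu ∧ φ = φu) ∨ (r = v ∧ z = zv ∧ φ = φv) →
      Fct A0 A1 A2 B0 B1 B2 C0 C1 C2 ε r z φ ∧ MT i F0 F1 F2 ε r z φ := by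
    rintro r z φ (⟨rfl, rfl, rfl⟩ | ⟨rfl, rfl, rfl⟩)
    · exact ⟨hu, hMu⟩
    · exact ⟨hv, hMv⟩
  rcases hMu with ⟨rfl, m1, m2, m3⟩ | ⟨rfl, m1, m2, m3⟩ | ⟨rfl, m1, m2, m3⟩
  · refine fin F0 0 F1 (F2 / A2) (by norm_num) (by linarith [hu.hφ]) (fun y => by ring) ?_
    intro r z φ hr
    obtain ⟨hF, hM⟩ := hFc hr
    rcases hM with ⟨_, n1, n2, n3⟩ | ⟨h, _⟩ | ⟨h, _⟩
    · have hφ := hF.hφ
      have q := quad hF
      have e1 : ε * φ ≤ ε * (2 * F0) := mul_le_mul_of_nonneg_left n1 hε.le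
      have hF0 : 0 < F0 := by linarith
      have e2 : 0 < ε * F0 := by positivity
      have e3 : ε * φ ≤ 1 / 16 * φ := mul_le_mul_of_nonneg_right hε1 hφ.le
      simp only [pow_zero, mul_one, abs_zero]
      refine ⟨by linarith, by positivity, by linarith, by linarith, by linarith⟩
    · exact absurd h (by norm_num)
    · exact absurd h (by norm_num)
  · refine fin F1 F0 0 (F2 / A2) (by norm_num) ?_ (fun y => by ring) ?_
    · have h1 : 0 < F1 * u := by linarith [hu.hφ]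
      exact pos_of_mul_pos_left h1 hu.hy.le
    intro r z φ hr
    obtain ⟨hF, hM⟩ := hFc hr
    rcases hM with ⟨h, _⟩ | ⟨_, n1, n2, n3⟩ | ⟨h, _⟩
    · exact absurd h (by norm_num)
    · have hφ := hF.hφ
      have q := quad hF
      have e1 : ε * φ ≤ ε * (2 * (F1 * r)) := mul_le_mul_of_nonneg_left n1 hε.le
      have hF0 : 0 < F1 * r := by linarith
      have e2 : 0 < ε * (F1 * r) := by positivity
      have e3 : ε * φ ≤ 1 / 16 * φ := mul_le_mul_of_nonneg_right hε1 hφ.le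
      simp only [pow_one, abs_zero, zero_mul]
      refine ⟨by linarith, by linarith, by linarith, by linarith, by linarith⟩
    · exact absurd h (by norm_num)
  · have hF2pos : 0 < F2 := by
      have h1 : 0 < F2 * zu := by linarith [hu.hφ]
      exact pos_of_mul_pos_left h1 hu.hz.le
    refine fin (F2 / A2) F0 F1 0 le_rfl (by positivity) (fun y => by ring) ?_
    intro r z φ hr
    obtain ⟨hF, hM⟩ := hFc hr
    rcases hM with ⟨h, _⟩ | ⟨h, _⟩ | ⟨_, n1, n2, n3⟩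
    · exact absurd h (by norm_num)
    · exact absurd h (by norm_num)
    · have hφ := hF.hφ
      have hz := hF.hz
      have hr0 := hF.hy
      have b := (hF.az hε1).2
      have e0 : F2 * z ≤ 2 * (F2 / A2 * r ^ 2) := by
        have h1 : F2 * z = F2 / A2 * (A2 * z) := by field_simp
        rw [h1]
        have h2 : A2 * z ≤ 2 * r ^ 2 := by
          have : 0 < r ^ 2 := by positivity
          linarith
        calc F2 / A2 * (A2 * z) ≤ F2 / A2 * (2 * r ^ 2) :=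
              mul_le_mul_of_nonneg_left h2 (by positivity)
          _ = 2 * (F2 / A2 * r ^ 2) := by ring
      have e1 : φ ≤ 4 * (F2 / A2) * r ^ 2 := by linarith
      have e2 : ε * φ ≤ 4 * ε * (F2 / A2) * r ^ 2 := by
        calc ε * φ ≤ ε * (4 * (F2 / A2) * r ^ 2) := mul_le_mul_of_nonneg_left e1 hε.le
          _ = _ := by ring
      have e3 : |F2 / A2| = F2 / A2 := abs_of_pos (by positivity)
      have e4 : 0 < F2 / A2 * r ^ 2 := by positivity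
      refine ⟨e1, by linarith, by linarith, ?_, ?_⟩
      · rw [abs_zero, zero_mul]
        positivity
      · rw [e3]
        linarith

end Pool.Agent.SepArc
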