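import Pool.Agent.Lib.MP_1a4606_ag.CC

/-!
# Arcs and separation (MP_1a4606_ag): reduction of orders
-/

set_option autoImplicit false

open Filter Topology MvPolynomial

namespace Pool.Agent.SepArc

lemma HasOrd.le_of_ordGe {P : ℝ → Pt} {g : Poly} {m N : ℕ} (h : HasOrd P g m)
    (h' : OrdGe P N g) : N ≤ m := by
  by_contra hlt
  have hlt : m + 1 ≤ N := by omega
  obtain ⟨C, h2⟩ := h'.mono hlt
  obtain ⟨A, hA, B, hB, h1⟩ := h.bounds
  have hC : 0 < |C| + 1 := by positivity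
  have : ∀ᶠ t in 𝓝[>] (0 : ℝ), False := by
    filter_upwards [h1, h2, pos_ev, lt_ev (show 0 < A / (|C| + 1) by positivity)]
      with t e1 e2 e3 e4
    rw [lt_div_iff₀ hC] at e4
    have e5 := e1.1.trans e2
    rw [pow_succ] at e5
    have e6 : 0 < t ^ m := pow_pos e3 m
    have e7 : C * t ≤ (|C| + 1) * t := mul_le_mul_of_nonneg_right
      (by linarith [le_abs_self C]) e3.le
    nlinarith
  exact this.exists.elim (fun _ h => h)

lemma HasOrd.unique {P : ℝ → Pt} {g : Poly} {m n : ℕ} (h : HasOrd P g m)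
    (h' : HasOrd P g n) : m = n :=
  le_antisymm (h'.le_of_ordGe (h.ordGe le_rfl)) (h.le_of_ordGe (h'.ordGe le_rfl))

lemma not_hasOrd_zero {P : ℝ → Pt} {m : ℕ} : ¬ HasOrd P 0 m := by
  rintro ⟨c, hc, h⟩
  have : Tendsto (fun t => eval (P t) 0 / t ^ m) (𝓝[>] 0) (𝓝 0) := by
    simp only [map_zero, zero_div]
    exact tendsto_const_nhds
  exact hc (tendsto_nhds_unique h this)

lemma OrdGe.tendsto {P : ℝ → Pt} {g : Poly} {m : ℕ} (h : OrdGe P (m + 1) g) :
    Tendsto (fun t => eval (P t) g / t ^ m) (𝓝[>] 0) (𝓝 0) := by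
  obtain ⟨C, h1⟩ := h
  have h2 : Tendsto (fun t : ℝ => C * t) (𝓝[>] 0) (𝓝 0) := by
    have : Tendsto (fun t : ℝ => C * t) (𝓝 0) (𝓝 (C * 0)) := (continuous_const_mul C).tendsto 0
    rw [mul_zero] at this
    exact this.mono_left nhdsWithin_le_nhds
  apply squeeze_zero_norm' _ h2
  filter_upwards [h1, pos_ev] with t e1 e2
  have e3 : 0 < t ^ m := pow_pos e2 m
  rw [Real.norm_eq_abs, abs_div, abs_of_pos e3, div_le_iff₀ e3]
  rw [pow_succ] at e1
  linarith

lemma IsArc.ordGe_succ {P : ℝ → Pt} (hP : IsArc P) {g : Poly} {m : ℕ}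
    (h : Tendsto (fun t => eval (P t) g / t ^ m) (𝓝[>] 0) (𝓝 0)) : OrdGe P (m + 1) g := by
  rcases hP.dich g (m + 1) with h1 | ⟨n, hn, h1⟩
  · exact h1
  · exfalso
    obtain ⟨c, hc, h2⟩ := h1
    have h3 : Tendsto (fun t : ℝ => t ^ (m - n)) (𝓝[>] 0) (𝓝 (0 ^ (m - n))) :=
      ((continuous_pow (m - n)).tendsto 0).mono_left nhdsWithin_le_nhds
    have h4 := h.mul h3
    rw [zero_mul] at h4
    have h5 : Tendsto (fun t => eval (P t) g / t ^ n) (𝓝[>] 0) (𝓝 0) := by
      refine h4.congr' ?_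
      filter_upwards [pos_ev] with t ht
      have : t ^ m = t ^ n * t ^ (m - n) := by
        rw [← pow_add]
        congr 1
        omega
      rw [this]
      field_simp
    exact hc (tendsto_nhds_unique h2 h5)

lemma HasOrd.add_ordGe {P : ℝ → Pt} {g h : Poly} {m : ℕ} (hg : HasOrd P g m)
    (hh : OrdGe P (m + 1) h) : HasOrd P (g + h) m := by
  obtain ⟨c, hc, h1⟩ := hg
  refine ⟨c, hc, ?_⟩
  have := h1.add hh.tendsto
  rw [add_zero] at this
  refine this.congr fun t => ?_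
  rw [map_add]
  ring

lemma HasOrd.sub_ordGe {P : ℝ → Pt} {g h : Poly} {m : ℕ} (hg : HasOrd P g m)
    (hh : OrdGe P (m + 1) h) : HasOrd P (g - h) m := by
  rw [sub_eq_add_neg]
  exact hg.add_ordGe hh.neg

lemma eval_zero_of_ordGe {P : ℝ → Pt} (hP : IsArc P) {g : Poly} (h : OrdGe P 1 g) :
    eval 0 g = 0 := by
  have h1 := h.tendsto
  simp only [pow_zero, div_one] at h1
  exact tendsto_nhds_unique (hP.tendsto_eval g) h1

/-- **Reduction lemma** -/
lemma red {P : ℝ → Pt} (hP : IsArc P) (S : Poly → Prop) (h0 : S 0)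
    (hadd : ∀ a b, S a → S b → S (a + b)) (hsm : ∀ (c : ℝ) (a : Poly), S a → S (C c * a))
    (N : ℕ) (M : ℕ → Prop) : ∀ (k m0 : ℕ), N ≤ m0 + k →
    (∀ m, M m → m0 ≤ m → m < N → ∃ s, S s ∧ HasOrd P s m) →
    ∀ g, OrdGe P m0 g → ∃ w, S w ∧ OrdGe P m0 w ∧
      (OrdGe P N (g - w) ∨ ∃ m, m0 ≤ m ∧ m < N ∧ ¬ M m ∧ HasOrd P (g - w) m) := by
  have hz : ∀ n, OrdGe P n (0 : Poly) := fun n => ordGe_zero_of_ev n (by simp)
  intro k
  induction k with
  | zero =>
    intro m0 hm0 hM g hg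
    refine ⟨0, h0, hz m0, Or.inl ?_⟩
    rw [sub_zero]
    exact hg.mono (by omega)
  | succ k ih =>
    intro m0 hm0 hM g hg
    by_cases hN : N ≤ m0
    · refine ⟨0, h0, hz m0, Or.inl ?_⟩
      rw [sub_zero]
      exact hg.mono hN
    have hM' : ∀ m, M m → m0 + 1 ≤ m → m < N → ∃ s, S s ∧ HasOrd P s m :=
      fun m h1 h2 h3 => hM m h1 (by omega) h3
    rcases hP.dich g (m0 + 1) with h1 | ⟨m, hm, h1⟩
    · obtain ⟨w, h2, h3, h4⟩ := ih (m0 + 1) (by omega) hM' g h1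
      refine ⟨w, h2, h3.mono (by omega), ?_⟩
      rcases h4 with h4 | ⟨m, h5, h6, h7, h8⟩
      · exact Or.inl h4
      · exact Or.inr ⟨m, by omega, h6, h7, h8⟩
    · have hm0m : m0 ≤ m := h1.le_of_ordGe hg
      have hmm : m = m0 := by omega
      subst hmm
      by_cases hMm : M m
      · obtain ⟨s, hs, hs'⟩ := hM m hMm le_rfl (by omega)
        obtain ⟨c, hc, h2⟩ := h1
        obtain ⟨d, hd, h3⟩ := hs'
        have h4 : OrdGe P (m + 1) (g - C (c / d) * s) := by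
          apply hP.ordGe_succ
          have h5 := h2.sub (h3.const_mul (c / d))
          rw [div_mul_cancel₀ c hd, sub_self] at h5
          refine h5.congr fun t => ?_
          rw [map_sub, map_mul, eval_C]
          ring
        obtain ⟨w, h5, h6, h7⟩ := ih (m + 1) (by omega) hM' _ h4
        have h8 : OrdGe P m (C (c / d) * s) := (HasOrd.ordGe ⟨d, hd, h3⟩ le_rfl).cmul _
        refine ⟨C (c / d) * s + w, hadd _ _ (hsm _ _ hs) h5, h8.add (h6.mono (by omega)), ?_⟩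
        rw [← sub_sub]
        rcases h7 with h7 | ⟨n, h9, h10, h11, h12⟩
        · exact Or.inl h7
        · exact Or.inr ⟨n, by omega, h10, h11, h12⟩
      · refine ⟨0, h0, hz m, Or.inr ⟨m, le_rfl, by omega, hMm, ?_⟩⟩
        rw [sub_zero]
        exact h1

/-- polynomials in the first coordinate -/
noncomputable def px (p : Polynomial ℝ) : Poly := Polynomial.aeval (X 0 : Poly) p

lemma px_add (p q : Polynomial ℝ) : px (p + q) = px p + px q := map_add _ _ _

lemma px_mul (p q : Polynomial ℝ) : px (p * q) = px p * px q := map_mul _ _ _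

lemma px_zero : px 0 = 0 := map_zero _

lemma px_C (c : ℝ) : px (Polynomial.C c) = C c := by
  unfold px
  rw [Polynomial.aeval_C]
  rfl

lemma px_X : px Polynomial.X = X 0 := Polynomial.aeval_X _

lemma px_X_pow (k : ℕ) : px (Polynomial.X ^ k) = X 0 ^ k := by
  unfold px
  rw [map_pow, Polynomial.aeval_X]

lemma eval_px (p : Polynomial ℝ) (x : Pt) : eval x (px p) = p.eval (x 0) := by
  unfold px
  induction p using Polynomial.induction_on' with
  | add p q hp hq => rw [map_add, map_add, hp, hq, Polynomial.eval_add]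
  | monomial n a =>
    rw [Polynomial.aeval_monomial, Polynomial.eval_monomial, map_mul, map_pow, eval_X]
    congr 1
    exact eval_C _

lemma free_px {j : Fin 3} (hj : j ≠ 0) (p : Polynomial ℝ) : Free j (px p) := by
  intro v
  unfold px
  have := Polynomial.aeval_algHom_apply (bind₁ (Function.update X j v)) (X 0 : Poly) p
  rw [← this, bind₁_X_right, Function.update_of_ne hj.symm]

lemma pderiv_px {j : Fin 3} (hj : j ≠ 0) (p : Polynomial ℝ) : pderiv j (px p) = 0 := by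
  induction p using Polynomial.induction_on' with
  | add p q hp hq => rw [px_add, map_add, hp, hq, add_zero]
  | monomial n a =>
    rw [← Polynomial.C_mul_X_pow_eq_monomial, px_mul, px_C, px_X_pow, Derivation.leibniz,
      Derivation.leibniz_pow, pderiv_C, pderiv_X_of_ne hj.symm]
    simp

/-- orders of polynomials in the first coordinate -/
lemma px_ord {P : ℝ → Pt} (hP : IsArc P) {e : ℕ} (hx : HasOrd P (X 0) e) (he : 0 < e)
    {p : Polynomial ℝ} (hp : p ≠ 0) : ∃ (k : ℕ) (q : Polynomial ℝ),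
      p = Polynomial.X ^ k * q ∧ q.eval 0 ≠ 0 ∧ HasOrd P (px p) (e * k) := by
  obtain ⟨k, q, hq, hq0⟩ : ∃ (k : ℕ) (q : Polynomial ℝ),
      p = Polynomial.X ^ k * q ∧ q.eval 0 ≠ 0 := by
    obtain ⟨q, hq, hq'⟩ := Polynomial.exists_eq_pow_rootMultiplicity_mul_and_not_dvd p hp 0
    rw [Polynomial.C_0, sub_zero] at hq hq'
    refine ⟨_, q, hq, ?_⟩
    intro h
    apply hq'
    rw [Polynomial.X_dvd_iff, Polynomial.coeff_zero_eq_eval_zero]
    exact h
  subst hq
  refine ⟨k, q, rfl, hq0, ?_⟩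
  have h1 : HasOrd P (px q) 0 := by
    refine ⟨q.eval 0, hq0, ?_⟩
    simp only [pow_zero, div_one]
    have := hP.tendsto_eval (px q)
    rwa [eval_px] at this
  rw [px_mul, px_X_pow]
  have h2 := (hx.pow k).mul h1
  rwa [add_zero, mul_comm k e] at h2

/-- the orders of `T` are congruent to `r` modulo 3 -/
def Cl (P : ℝ → Pt) (T : Poly) (r : ℕ) : Prop := ∀ m, HasOrd P T m → m % 3 = r

lemma cl_px_mul {P : ℝ → Pt} (hP : IsArc P) (hx : HasOrd P (X 0) 3) {u : Poly} {r : ℕ}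
    (hu : HasOrd P u r) (p : Polynomial ℝ) : Cl P (px p * u) (r % 3) := by
  intro m hm
  by_cases hp : p = 0
  · subst hp
    rw [px_zero, zero_mul] at hm
    exact absurd hm not_hasOrd_zero
  · obtain ⟨k, q, _, _, h1⟩ := px_ord hP hx (by norm_num) hp
    have := (h1.mul hu).unique hm
    omega

lemma three_terms {P : ℝ → Pt} (hP : IsArc P) {T0 T1 T2 : Poly} {r0 r1 r2 : ℕ}
    (h0 : Cl P T0 r0) (h1 : Cl P T1 r1) (h2 : Cl P T2 r2) (h01 : r0 ≠ r1) (h02 : r0 ≠ r2)
    (h12 : r1 ≠ r2) {M : ℕ} (h : OrdGe P M (T0 + T1 + T2)) :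
    OrdGe P M T0 ∧ OrdGe P M T1 ∧ OrdGe P M T2 := by
  have key : ∀ k, k ≤ M → OrdGe P k T0 ∧ OrdGe P k T1 ∧ OrdGe P k T2 := by
    intro k
    induction k with
    | zero => exact fun _ => ⟨hP.ordGe_zero _, hP.ordGe_zero _, hP.ordGe_zero _⟩
    | succ k ih =>
      intro hk
      obtain ⟨e0, e1, e2⟩ := ih (by omega)
      have step : ∀ (T : Poly) (r : ℕ), Cl P T r → OrdGe P k T → k % 3 ≠ r →
          OrdGe P (k + 1) T := by
        intro T r hT hk' hr
        rcases hP.dich T (k + 1) with h3 | ⟨m, hm, h3⟩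
        · exact h3
        · exfalso
          have := h3.le_of_ordGe hk'
          have hmk : m = k := by omega
          subst hmk
          exact hr (hT _ h3)
      have hs : OrdGe P (k + 1) (T0 + T1 + T2) := h.mono hk
      by_cases c0 : k % 3 = r0
      · have f1 := step T1 r1 h1 e1 (by omega)
        have f2 := step T2 r2 h2 e2 (by omega)
        have : T0 = T0 + T1 + T2 - T1 - T2 := by ring
        refine ⟨?_, f1, f2⟩
        rw [this]
        exact (hs.sub f1).sub f2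
      · have f0 := step T0 r0 h0 e0 c0
        by_cases c1 : k % 3 = r1
        · have f2 := step T2 r2 h2 e2 (by omega)
          have : T1 = T0 + T1 + T2 - T0 - T2 := by ring
          refine ⟨f0, ?_, f2⟩
          rw [this]
          exact (hs.sub f0).sub f2
        · have f1 := step T1 r1 h1 e1 c1
          have : T2 = T0 + T1 + T2 - T0 - T1 := by ring
          refine ⟨f0, f1, ?_⟩
          rw [this]
          exact (hs.sub f0).sub f1
  exact key M le_rfl

/-- combinations of `1, u, v` with coefficients in the first coordinate -/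
def Sp (u v w : Poly) : Prop := ∃ p0 p1 p2 : Polynomial ℝ, w = px p0 + px p1 * u + px p2 * v

lemma sp_zero (u v : Poly) : Sp u v 0 := ⟨0, 0, 0, by simp [px_zero]⟩

lemma sp_add (u v : Poly) (a b : Poly) (ha : Sp u v a) (hb : Sp u v b) : Sp u v (a + b) := by
  obtain ⟨p0, p1, p2, rfl⟩ := ha
  obtain ⟨q0, q1, q2, rfl⟩ := hb
  exact ⟨p0 + q0, p1 + q1, p2 + q2, by simp only [px_add]; ring⟩

lemma sp_smul (u v : Poly) (c : ℝ) (a : Poly) (ha : Sp u v a) : Sp u v (C c * a) := by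
  obtain ⟨p0, p1, p2, rfl⟩ := ha
  exact ⟨Polynomial.C c * p0, Polynomial.C c * p1, Polynomial.C c * p2,
    by simp only [px_mul, px_C]; ring⟩

lemma sp_ord {P : ℝ → Pt} {e : ℕ} (hx : HasOrd P (X 0) e) {u v : Poly} :
    (∀ k, ∃ s, Sp u v s ∧ HasOrd P s (e * k)) ∧
    (∀ a, HasOrd P u a → ∀ k, ∃ s, Sp u v s ∧ HasOrd P s (e * k + a)) ∧
    (∀ a, HasOrd P v a → ∀ k, ∃ s, Sp u v s ∧ HasOrd P s (e * k + a)) := by
  refine ⟨fun k => ?_, fun a ha k => ?_, fun a ha k => ?_⟩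
  · refine ⟨X 0 ^ k, ⟨Polynomial.X ^ k, 0, 0, by simp [px_zero, px_X_pow]⟩, ?_⟩
    rw [mul_comm]
    exact hx.pow k
  · refine ⟨X 0 ^ k * u, ⟨0, Polynomial.X ^ k, 0, by simp [px_zero, px_X_pow]⟩, ?_⟩
    rw [mul_comm e k]
    exact (hx.pow k).mul ha
  · refine ⟨X 0 ^ k * v, ⟨0, 0, Polynomial.X ^ k, by simp [px_zero, px_X_pow]⟩, ?_⟩
    rw [mul_comm e k]
    exact (hx.pow k).mul ha

/-- the data of a hypothetical counterexample -/
structure Ctx (f : Poly) (P Q : ℝ → Pt) : Prop where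
  hP : IsArc P
  hQ : IsArc Q
  hf : FPos P f
  hfQ : FPos Q f
  hns : ¬ Sep f P Q

lemma Ctx.map {f : Poly} {P Q : ℝ → Pt} (c : Ctx f P Q) {Φ Ψ : Fin 3 → Poly} (h : CC Φ Ψ) :
    Ctx (bind₁ Ψ f) (fun t => app Φ (P t)) (fun t => app Φ (Q t)) :=
  ⟨c.hP.map h.zero, c.hQ.map h.zero, c.hf.map h, c.hfQ.map h, not_sep_map c.hns h⟩

lemma hasOrd_back {P : ℝ → Pt} {f : Poly} {N : ℕ} {Φ Ψ : Fin 3 → Poly} (h : CC Φ Ψ)
    (hN : HasOrd P f N) : HasOrd (fun t => app Φ (P t)) (bind₁ Ψ f) N := by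
  obtain ⟨c, hc, h1⟩ := hN
  refine ⟨c, hc, ?_⟩
  simp only [eval_back h]
  exact h1

theorem Ctx.surf {f : Poly} {P Q : ℝ → Pt} (c : Ctx f P Q) {h : Poly} (h0 : eval 0 h = 0)
    (i : Fin 3) (hd : eval 0 (pderiv i h) ≠ 0) (hlo : LO P h f) : Meets f P Q :=
  t1_surf c.hP c.hQ c.hf c.hfQ c.hns h0 i hd hlo

/-- first reduction of a coordinate `X j`, `j ≠ 0` -/
lemma Ctx.red_coord {f : Poly} {P Q : ℝ → Pt} (c : Ctx f P Q) {N e : ℕ} (hN : HasOrd P f N)
    (hx : HasOrd P (X 0) e) {j : Fin 3} (hj : j ≠ 0) :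
    Meets f P Q ∨ ∃ (p : Polynomial ℝ) (a : ℕ), 1 ≤ a ∧ a ≤ N ∧ ¬ e ∣ a ∧ p.eval 0 = 0 ∧
      HasOrd P (X j - px p) a := by
  have hXj : OrdGe P 1 (X j : Poly) := c.hP.ordGe_one (by simp)
  obtain ⟨w, ⟨p0, p1, p2, hw⟩, h1, h2⟩ := red c.hP (Sp 0 0) (sp_zero 0 0) (sp_add 0 0)
    (sp_smul 0 0) (N + 1) (fun m => e ∣ m) (N + 1) 1 (by omega)
    (fun m hm _ _ => by
      obtain ⟨k, rfl⟩ := hm
      exact (sp_ord hx).1 k) (X j) hXj
  have hw' : w = px p0 := by rw [hw]; ring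
  subst hw'
  have h3 : p0.eval 0 = 0 := by
    have := eval_zero_of_ordGe c.hP h1
    rwa [eval_px] at this
  rcases h2 with h2 | ⟨m, h4, h5, h6, h7⟩
  · left
    refine c.surf (h := X j - px p0) ?_ j ?_ (lo_of_ord h2 hN)
    · rw [map_sub, eval_px, eval_X]
      simp [h3]
    · rw [map_sub, pderiv_px hj, pderiv_X_self]
      simp
  · exact Or.inr ⟨p0, m, h4, by omega, h6, h3, h7⟩

/-- order one -/
theorem Ctx.o1 {f : Poly} {P Q : ℝ → Pt} (c : Ctx f P Q) (hx : HasOrd P (X 0) 1) :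
    Meets f P Q := by
  obtain ⟨N, hN⟩ := c.hf.hasOrd c.hP
  rcases c.red_coord hN hx (show (1 : Fin 3) ≠ 0 by decide) with h | ⟨p, a, _, _, h, _⟩
  · exact h
  · exact absurd (one_dvd a) h

/-- order two -/
theorem Ctx.o2 {f : Poly} {P Q : ℝ → Pt} (c : Ctx f P Q) (hx : HasOrd P (X 0) 2) :
    Meets f P Q := by
  obtain ⟨N, hN⟩ := c.hf.hasOrd c.hP
  -- the core
  have core : ∀ (i j : Fin 3), i ≠ 0 → j ≠ 0 → i ≠ j → ∀ (p q : Polynomial ℝ) (a b : ℕ),
      1 ≤ b → b ≤ N → ¬ 2 ∣ a → ¬ 2 ∣ b → a ≤ b → p.eval 0 = 0 → q.eval 0 = 0 →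
      HasOrd P (X i - px p) a → HasOrd P (X j - px q) b → Meets f P Q := by
    intro i j hi hj hij p q a b hb0 hbN ha hb hab hp0 hq0 hp hq
    obtain ⟨w, ⟨p0, p1, p2, hw⟩, h1, h2⟩ := red c.hP (Sp (X i - px p) 0) (sp_zero _ _)
      (sp_add _ _) (sp_smul _ _) (N + 1) (fun _ => True) (N + 1) b (by omega)
      (fun m _ hm1 _ => by
        rcases Nat.even_or_odd' m with ⟨k, hk | hk⟩
        · rw [hk]
          exact (sp_ord hx).1 k
        · obtain ⟨l, hl⟩ : ∃ l, m = 2 * l + a := ⟨(m - a) / 2, by omega⟩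
          rw [hl]
          exact (sp_ord hx).2.1 a hp l) (X j - px q) (hq.ordGe le_rfl)
    rcases h2 with h2 | ⟨m, _, _, h5, _⟩
    · refine c.surf (h := X j - px q - w) ?_ j ?_ (lo_of_ord h2 hN)
      · have e1 : eval 0 w = 0 := eval_zero_of_ordGe c.hP (h1.mono hb0)
        rw [map_sub, map_sub, e1, eval_px, eval_X]
        simp [hq0]
      · have e2 : pderiv j (X j - px q - w) = 1 := by
          rw [hw, mul_zero, add_zero]
          simp only [map_sub, map_add, Derivation.leibniz, pderiv_px hj, pderiv_X_self,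
            pderiv_X_of_ne hij]
          simp
        rw [e2]
        simp
    · exact absurd trivial h5
  rcases c.red_coord hN hx (show (1 : Fin 3) ≠ 0 by decide) with h | ⟨p, a, ha0, haN, ha, hp0, hp⟩
  · exact h
  rcases c.red_coord hN hx (show (2 : Fin 3) ≠ 0 by decide) with h | ⟨q, b, hb0, hbN, hb, hq0, hq⟩
  · exact h
  rcases le_total a b with hab | hab
  · exact core 1 2 (by decide) (by decide) (by decide) p q a b hb0 hbN ha hb hab hp0 hq0 hp hq
  · exact core 2 1 (by decide) (by decide) (by decide) q p b a ha0 haN hb ha hab hq0 hp0 hq hp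

end Pool.Agent.SepArc
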