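import Pool.Agent.Lib.MP_1a4606_ag.O3b
import Pool.Agent.Lib.MP_1a4606_ag.Red

/-!
# Arcs and separation (MP_1a4606_ag): the path for arcs of order three
-/

set_option autoImplicit false

open Filter Topology MvPolynomial

namespace Pool.Agent.SepArc

/-- `u` minus a combination of `1, y, z` -/
noncomputable def kap (u : Poly) (a : Fin 3 → Polynomial ℝ) : Poly :=
  u - px (a 0) - px (a 1) * X 1 - px (a 2) * X 2

lemma eval_kap (u : Poly) (a : Fin 3 → Polynomial ℝ) (x : Pt) :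
    eval x (kap u a) = eval x u - (a 0).eval (x 0) - (a 1).eval (x 0) * x 1 -
      (a 2).eval (x 0) * x 2 := by
  unfold kap
  simp only [map_sub, map_mul, eval_px, eval_X]

/-- the decomposition of `f` -/
structure Dec (f : Poly) (F a b c : Fin 3 → Polynomial ℝ) (h : Fin 3 → Poly) : Prop where
  eq : f = px (F 0) + px (F 1) * X 1 + px (F 2) * X 2 +
    (kap (X 1 ^ 2) a * h 0 + kap (X 1 * X 2) b * h 1 + kap (X 2 ^ 2) c * h 2)

lemma Dec.eval_eq {f : Poly} {F a b c : Fin 3 → Polynomial ℝ} {h : Fin 3 → Poly}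
    (d : Dec f F a b c h) (x : Pt) :
    eval x f = (F 0).eval (x 0) + (F 1).eval (x 0) * x 1 + (F 2).eval (x 0) * x 2 +
      ((x 1 ^ 2 - (a 0).eval (x 0) - (a 1).eval (x 0) * x 1 - (a 2).eval (x 0) * x 2) *
          eval x (h 0) +
        (x 1 * x 2 - (b 0).eval (x 0) - (b 1).eval (x 0) * x 1 - (b 2).eval (x 0) * x 2) *
          eval x (h 1) +
        (x 2 ^ 2 - (c 0).eval (x 0) - (c 1).eval (x 0) * x 1 - (c 2).eval (x 0) * x 2) *
          eval x (h 2)) := by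
  rw [d.eq]
  simp only [map_add, map_mul, eval_px, eval_X, eval_kap, map_pow]

lemma norm_le3 {x : Pt} {C : ℝ} (hC : 0 ≤ C) (h0 : |x 0| ≤ C) (h1 : |x 1| ≤ C)
    (h2 : |x 2| ≤ C) : ‖x‖ ≤ C := by
  rw [pi_norm_le_iff_of_nonneg hC]
  intro i
  fin_cases i
  · exact h0
  · exact h1
  · exact h2

/-- the vertical move in space -/
lemma conn_vertical {f : Poly} {F a b c : Fin 3 → Polynomial ℝ} {h : Fin 3 → Poly}
    (d : Dec f F a b c h) {K L ε : ℝ} (hK : 0 ≤ K) (hε : 0 < ε) (hε1 : ε ≤ 1 / 16)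
    (hεL : (K + 9 * L) * ε ≤ 1 / 2)
    (hL : ∀ (i : Fin 3) (x : Pt), ‖x‖ ≤ 1 → |eval x (h i)| ≤ L)
    {p : Pt} (hp : ‖p‖ ≤ 1 / 4) (hA2 : 0 < (a 2).eval (p 0))
    (hF2 : |(F 2).eval (p 0)| ≤ K * (a 2).eval (p 0))
    (hf : Fct ((a 0).eval (p 0)) ((a 1).eval (p 0)) ((a 2).eval (p 0))
      ((b 0).eval (p 0)) ((b 1).eval (p 0)) ((b 2).eval (p 0))
      ((c 0).eval (p 0)) ((c 1).eval (p 0)) ((c 2).eval (p 0)) ε (p 1) (p 2) (eval p f))
    {Z : ℝ} (hZ : (a 2).eval (p 0) * Z = p 1 ^ 2 - (a 0).eval (p 0) - (a 1).eval (p 0) * p 1) :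
    Conn f p (Function.update p 2 Z) := by
  obtain ⟨v1, _, v3⟩ := vertical hA2 hf.hy hf.hz hε hε1 hK hf.hzy hf.hA0 hf.hA1 hf.hk1 hf.hk1'
    hf.hk2 hf.hk3 hF2 hf.hB2 hf.hC2 hZ
  have hp0 : |p 0| ≤ 1 / 4 := (norm_le_pi_norm p 0).trans hp
  have hp1 : |p 1| ≤ 1 / 4 := (norm_le_pi_norm p 1).trans hp
  have hp2 : |p 2| ≤ 1 / 4 := (norm_le_pi_norm p 2).trans hp
  have hz := hf.hz
  rw [abs_of_pos hz] at hp2
  have hεz : ε * p 2 ≤ 1 / 16 * p 2 := mul_le_mul_of_nonneg_right hε1 hz.le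
  have key : ∀ z', |z' - p 2| ≤ |Z - p 2| → 0 < eval (Function.update p 2 z') f := by
    intro z' hz'
    obtain ⟨w1, w2, w3, w4⟩ := v3 z' hz'
    have hn : ‖Function.update p 2 z'‖ ≤ 1 := by
      apply norm_le3 zero_le_one
      · simpa using hp0.trans (by norm_num)
      · simpa using hp1.trans (by norm_num)
      · have h1 : |z'| ≤ |z' - p 2| + |p 2| := by
          have := abs_add_le (z' - p 2) (p 2)
          rwa [sub_add_cancel] at this
        rw [abs_of_pos hz] at h1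
        simp only [Function.update_self]
        linarith
    have e1 : eval p f = (F 0).eval (p 0) + (F 1).eval (p 0) * p 1 + (F 2).eval (p 0) * p 2 +
      ((p 1 ^ 2 - (a 0).eval (p 0) - (a 1).eval (p 0) * p 1 - (a 2).eval (p 0) * p 2) *
          eval p (h 0) +
        (p 1 * p 2 - (b 0).eval (p 0) - (b 1).eval (p 0) * p 1 - (b 2).eval (p 0) * p 2) *
          eval p (h 1) +
        (p 2 ^ 2 - (c 0).eval (p 0) - (c 1).eval (p 0) * p 1 - (c 2).eval (p 0) * p 2) *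
          eval p (h 2)) := d.eval_eq p
    have e2 := d.eval_eq (Function.update p 2 z')
    have u0 : Function.update p 2 z' 0 = p 0 := by simp
    have u1 : Function.update p 2 z' 1 = p 1 := by simp
    have u2 : Function.update p 2 z' 2 = z' := by simp
    rw [u0, u1, u2] at e2
    have hp' : ‖p‖ ≤ 1 := hp.trans (by norm_num)
    have hss : (F 2).eval (p 0) * z' - (F 2).eval (p 0) * p 2 =
        (F 2).eval (p 0) * (z' - p 2) := by ring
    have := (vertical_pos hf.hφ hεL hf.hk1 hf.hk2 hf.hk3 w2 w3 w4 (hL 0 p hp') (hL 1 p hp')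
      (hL 2 p hp') (hL 0 _ hn) (hL 1 _ hn) (hL 2 _ hn) w1 e1 hss).1
    rw [← e2] at this
    linarith [hf.hφ]
  have hpath := conn_path (f := f) (γ := fun τ => Function.update p 2 (p 2 + τ * (Z - p 2)))
    (a := 0) (b := 1) zero_le_one
    (by
      apply Continuous.continuousOn
      exact continuous_const.update 2 (by fun_prop))
    (by
      intro τ hτ
      apply key
      rw [add_sub_cancel_left, abs_mul, abs_of_nonneg hτ.1]
      exact mul_le_of_le_one_left (abs_nonneg _) hτ.2)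
  simp only [zero_mul, add_zero, one_mul, add_sub_cancel, Function.update_eq_self] at hpath
  exact hpath

/-- the connection between matched points -/
lemma conn3 {f : Poly} {F a b c : Fin 3 → Polynomial ℝ} {h : Fin 3 → Poly}
    (d : Dec f F a b c h) {K L ε : ℝ} (hK : 0 ≤ K) (hε : 0 < ε)
    (hε1 : ε ≤ 1 / 16) (hεL : (K + 9 * L) * ε ≤ 1 / 2)
    (hεL2 : (7 + 2 * L) * (72 * ε) < 1)
    (hL : ∀ (i : Fin 3) (x : Pt), ‖x‖ ≤ 1 → |eval x (h i)| ≤ L)
    {p q : Pt} (hp : ‖p‖ ≤ 1 / 4) (hq : ‖q‖ ≤ 1 / 4) (hpq : q 0 = p 0) (huv : p 1 ≤ q 1)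
    (hA2 : 0 < (a 2).eval (p 0)) (hF2 : |(F 2).eval (p 0)| ≤ K * (a 2).eval (p 0))
    (hfp : Fct ((a 0).eval (p 0)) ((a 1).eval (p 0)) ((a 2).eval (p 0))
      ((b 0).eval (p 0)) ((b 1).eval (p 0)) ((b 2).eval (p 0))
      ((c 0).eval (p 0)) ((c 1).eval (p 0)) ((c 2).eval (p 0)) ε (p 1) (p 2) (eval p f))
    (hfq : Fct ((a 0).eval (p 0)) ((a 1).eval (p 0)) ((a 2).eval (p 0))
      ((b 0).eval (p 0)) ((b 1).eval (p 0)) ((b 2).eval (p 0))
      ((c 0).eval (p 0)) ((c 1).eval (p 0)) ((c 2).eval (p 0)) ε (q 1) (q 2) (eval q f))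
    (hBC : BC ((b 0).eval (p 0)) ((b 1).eval (p 0)) ((b 2).eval (p 0))
      ((c 0).eval (p 0)) ((c 1).eval (p 0)) ((c 2).eval (p 0)) ε (p 1) (p 2) (q 1) (q 2))
    {i : ℕ} (hMp : MT i ((F 0).eval (p 0)) ((F 1).eval (p 0)) ((F 2).eval (p 0)) ε (p 1) (p 2)
      (eval p f))
    (hMq : MT i ((F 0).eval (p 0)) ((F 1).eval (p 0)) ((F 2).eval (p 0)) ε (q 1) (q 2)
      (eval q f)) :
    Conn f p q := by
  set A0 := (a 0).eval (p 0) with hA0
  set A1 := (a 1).eval (p 0) with hA1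
  set A2 := (a 2).eval (p 0) with hA2'
  obtain ⟨Z, hZdef⟩ : ∃ Z : ℝ → ℝ, Z = fun y => (y ^ 2 - A0 - A1 * y) / A2 := ⟨_, rfl⟩
  have hZ : ∀ y, A2 * Z y = y ^ 2 - A0 - A1 * y := by
    intro y
    rw [hZdef]
    field_simp
  have hZc : Continuous Z := by
    rw [hZdef]
    fun_prop
  have c1 : Conn f p (Function.update p 2 (Z (p 1))) :=
    conn_vertical d hK hε hε1 hεL hL hp hA2 hF2 hfp (hZ (p 1))
  have c2 : Conn f q (Function.update q 2 (Z (q 1))) := by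
    refine conn_vertical d hK hε hε1 hεL hL hq ?_ ?_ ?_ ?_
    · rw [hpq]; exact hA2
    · rw [hpq]; exact hF2
    · rw [hpq]; exact hfq
    · rw [hpq]; exact hZ (q 1)
  have hp0 : |p 0| ≤ 1 / 4 := (norm_le_pi_norm p 0).trans hp
  have hq1 : |q 1| ≤ 1 / 4 := (norm_le_pi_norm q 1).trans hq
  have hq2 : |q 2| ≤ 1 / 4 := (norm_le_pi_norm q 2).trans hq
  have hu0 := hfp.hy
  have hv0 := hfq.hy
  have hvz := hfq.hz
  rw [abs_of_pos hv0] at hq1
  rw [abs_of_pos hvz] at hq2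
  -- the curve
  have hn : ∀ y, p 1 ≤ y → y ≤ q 1 → ‖(![p 0, y, Z y] : Pt)‖ ≤ 1 := by
    intro y hy1 hy2
    have hy : 0 < y := hu0.trans_le hy1
    obtain ⟨b1, b2⟩ := z_bounds hu0 hε hε1 hZ hfp.hA0 hfp.hA1 hy1
    have b3 := (hfq.az hε1).1
    have hy2' : y ^ 2 ≤ q 1 ^ 2 := pow_le_pow_left₀ hy.le hy2 2
    have hZ0 : 0 ≤ Z y := by
      have : 0 ≤ A2 * Z y := by
        have : 0 ≤ y ^ 2 := by positivity
        linarith
      exact nonneg_of_mul_nonneg_right this hA2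
    have hZ1 : Z y ≤ 1 := by
      have h1 : A2 * Z y ≤ A2 * (2 * q 2) := by
        have : 0 ≤ q 1 ^ 2 := by positivity
        linarith
      have := le_of_mul_le_mul_left h1 hA2
      linarith
    apply norm_le3 zero_le_one
    · simpa using hp0.trans (by norm_num)
    · have : |y| ≤ 1 := by
        rw [abs_of_pos hy]
        linarith
      simpa using this
    · have : |Z y| ≤ 1 := by rwa [abs_of_nonneg hZ0]
      simpa using this
  have hcp := curve_all (L := L) (h2 := fun y => eval ![p 0, y, Z y] (h 1))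
    (h3 := fun y => eval ![p 0, y, Z y] (h 2)) hA2 hε hε1 hεL2 hK hF2 hZ hfp hfq huv hBC
    hMp hMq (fun y h1 h2 => hL 1 _ (hn y h1 h2)) (fun y h1 h2 => hL 2 _ (hn y h1 h2))
  have c3 := conn_path (f := f) (γ := fun y => ![p 0, y, Z y]) huv
    (by
      apply Continuous.continuousOn
      refine continuous_pi fun i => ?_
      fin_cases i
      · exact continuous_const
      · exact continuous_id
      · exact hZc)
    (by
      intro y hy
      have := hcp y hy.1 hy.2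
      rw [d.eval_eq]
      have e0 : (![p 0, y, Z y] : Pt) 0 = p 0 := rfl
      have e1 : (![p 0, y, Z y] : Pt) 1 = y := rfl
      have e2 : (![p 0, y, Z y] : Pt) 2 = Z y := rfl
      rw [e0, e1, e2]
      have e3 : y ^ 2 - (a 0).eval (p 0) - (a 1).eval (p 0) * y - (a 2).eval (p 0) * Z y = 0 := by
        have := hZ y
        rw [← hA0, ← hA1, ← hA2']
        linarith
      rw [e3, zero_mul, zero_add]
      exact this)
  have e4 : (![p 0, p 1, Z (p 1)] : Pt) = Function.update p 2 (Z (p 1)) := by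
    funext i
    fin_cases i <;> simp
  have e5 : (![p 0, q 1, Z (q 1)] : Pt) = Function.update q 2 (Z (q 1)) := by
    funext i
    fin_cases i <;> simp [hpq]
  rw [e4, e5] at c3
  exact c1.trans (c3.trans c2.symm)

/-- positivity on a segment -/
lemma seg_pos {F0 F1 F2 L ε yp zp φp yq zq φq s h0 h1 h2 : ℝ} {i : ℕ} (hs0 : 0 ≤ s)
    (hs1 : s ≤ 1) (hyp : 0 < yp) (hzp : 0 < zp) (hyq : 0 < yq) (hzq : 0 < zq)
    (hφp : 0 < φp) (hφq : 0 < φq)
    (hεL : (2 + 3 * L) * ε < 1 / 2)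
    (p1 : yp ^ 2 ≤ ε * φp) (p3 : zp ^ 2 ≤ ε * φp) (q1 : yq ^ 2 ≤ ε * φq)
    (q3 : zq ^ 2 ≤ ε * φq) (hMp : MT i F0 F1 F2 ε yp zp φp) (hMq : MT i F0 F1 F2 ε yq zq φq)
    (b0 : |h0| ≤ L) (b1 : |h1| ≤ L) (b2 : |h2| ≤ L) :
    0 < F0 + F1 * (yp + s * (yq - yp)) + F2 * (zp + s * (zq - zp)) +
      ((yp + s * (yq - yp)) ^ 2 * h0 +
        (yp + s * (yq - yp)) * (zp + s * (zq - zp)) * h1 + (zp + s * (zq - zp)) ^ 2 * h2) := by
  set y := yp + s * (yq - yp) with hy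
  set z := zp + s * (zq - zp) with hz
  set Φ := (1 - s) * φp + s * φq with hΦ
  have hs1' : 0 ≤ 1 - s := by linarith
  have hy' : y = (1 - s) * yp + s * yq := by rw [hy]; ring
  have hz' : z = (1 - s) * zp + s * zq := by rw [hz]; ring
  have hy0 : 0 ≤ y := by rw [hy']; positivity
  have hz0 : 0 ≤ z := by rw [hz']; positivity
  have hΦ0 : 0 < Φ := by
    rcases eq_or_lt_of_le hs0 with h | h
    · rw [hΦ, ← h]
      simpa using hφp
    · have : 0 < s * φq := by positivity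
      have : 0 ≤ (1 - s) * φp := by positivity
      linarith
  have hy2 : y ^ 2 ≤ ε * Φ := by
    have e1 : y ^ 2 ≤ (1 - s) * yp ^ 2 + s * yq ^ 2 := by
      have : (1 - s) * yp ^ 2 + s * yq ^ 2 - y ^ 2 = s * (1 - s) * (yp - yq) ^ 2 := by
        rw [hy']; ring
      have h3 : 0 ≤ s * (1 - s) * (yp - yq) ^ 2 := by positivity
      linarith
    have e2 := mul_le_mul_of_nonneg_left p1 hs1'
    have e3 := mul_le_mul_of_nonneg_left q1 hs0
    calc y ^ 2 ≤ (1 - s) * yp ^ 2 + s * yq ^ 2 := e1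
      _ ≤ (1 - s) * (ε * φp) + s * (ε * φq) := add_le_add e2 e3
      _ = ε * Φ := by rw [hΦ]; ring
  have hz2 : z ^ 2 ≤ ε * Φ := by
    have e1 : z ^ 2 ≤ (1 - s) * zp ^ 2 + s * zq ^ 2 := by
      have : (1 - s) * zp ^ 2 + s * zq ^ 2 - z ^ 2 = s * (1 - s) * (zp - zq) ^ 2 := by
        rw [hz']; ring
      have h3 : 0 ≤ s * (1 - s) * (zp - zq) ^ 2 := by positivity
      linarith
    have e2 := mul_le_mul_of_nonneg_left p3 hs1'
    have e3 := mul_le_mul_of_nonneg_left q3 hs0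
    calc z ^ 2 ≤ (1 - s) * zp ^ 2 + s * zq ^ 2 := e1
      _ ≤ (1 - s) * (ε * φp) + s * (ε * φq) := add_le_add e2 e3
      _ = ε * Φ := by rw [hΦ]; ring
  have hyz : y * z ≤ ε * Φ := by nlinarith [sq_nonneg (y - z)]
  have hyz0 : 0 ≤ y * z := mul_nonneg hy0 hz0
  have pr : ∀ {k h : ℝ}, 0 ≤ k → k ≤ ε * Φ → |h| ≤ L → -(ε * Φ * L) ≤ k * h := by
    intro k h hk hk' hh
    have : |k * h| ≤ ε * Φ * L := by
      rw [abs_mul, abs_of_nonneg hk]
      exact mul_le_mul hk' hh (abs_nonneg _) (hk.trans hk')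
    exact (abs_le.mp this).1
  have r0 := pr (by positivity : 0 ≤ y ^ 2) hy2 b0
  have r1 := pr hyz0 hyz b1
  have r2 := pr (by positivity : 0 ≤ z ^ 2) hz2 b2
  have lin : ∀ {c w wp wq : ℝ}, w = (1 - s) * wp + s * wq → 0 < wp → 0 < wq →
      |c| * wp ≤ ε * φp → |c| * wq ≤ ε * φq → -(ε * Φ) ≤ c * w := by
    intro c w wp wq hw h1 h2 h3 h4
    have hw0 : 0 ≤ w := by rw [hw]; positivity
    have e1 : |c * w| ≤ ε * Φ := by
      rw [abs_mul, abs_of_nonneg hw0, hw]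
      have e2 := mul_le_mul_of_nonneg_left h3 hs1'
      have e3 := mul_le_mul_of_nonneg_left h4 hs0
      calc |c| * ((1 - s) * wp + s * wq) = (1 - s) * (|c| * wp) + s * (|c| * wq) := by ring
        _ ≤ (1 - s) * (ε * φp) + s * (ε * φq) := add_le_add e2 e3
        _ = ε * Φ := by rw [hΦ]; ring
    exact (abs_le.mp e1).1
  have main : ∀ {c w wp wq : ℝ}, w = (1 - s) * wp + s * wq → φp ≤ 2 * (c * wp) →
      φq ≤ 2 * (c * wq) → 1 / 2 * Φ ≤ c * w := by
    intro c w wp wq hw h1 h2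
    have e2 := mul_le_mul_of_nonneg_left h1 hs1'
    have e3 := mul_le_mul_of_nonneg_left h2 hs0
    rw [hw, hΦ]
    nlinarith
  have h1w : (1 : ℝ) = (1 - s) * 1 + s * 1 := by ring
  have htot : 2 * (ε * Φ) + 3 * (ε * Φ * L) < 1 / 2 * Φ := by
    have h1 : (2 + 3 * L) * ε * Φ < 1 / 2 * Φ := mul_lt_mul_of_pos_right hεL hΦ0
    have h2 : (2 + 3 * L) * ε * Φ = 2 * (ε * Φ) + 3 * (ε * Φ * L) := by ring
    linarith
  rcases hMp with ⟨rfl, m1, m2, m3⟩ | ⟨rfl, m1, m2, m3⟩ | ⟨rfl, m1, m2, m3⟩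
  · rcases hMq with ⟨_, n1, n2, n3⟩ | ⟨h, _⟩ | ⟨h, _⟩
    · have t0 := main (c := F0) h1w (by linarith) (by linarith)
      have t1 := lin hy' hyp hyq m2 n2
      have t2 := lin hz' hzp hzq m3 n3
      linarith
    · exact absurd h (by norm_num)
    · exact absurd h (by norm_num)
  · rcases hMq with ⟨h, _⟩ | ⟨_, n1, n2, n3⟩ | ⟨h, _⟩
    · exact absurd h (by norm_num)
    · have t0 := lin (c := F0) h1w one_pos one_pos (by linarith) (by linarith)
      have t1 := main hy' m1 n1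
      have t2 := lin hz' hzp hzq m3 n3
      linarith
    · exact absurd h (by norm_num)
  · rcases hMq with ⟨h, _⟩ | ⟨h, _⟩ | ⟨_, n1, n2, n3⟩
    · exact absurd h (by norm_num)
    · exact absurd h (by norm_num)
    · have t0 := lin (c := F0) h1w one_pos one_pos (by linarith) (by linarith)
      have t1 := lin hy' hyp hyq m3 n3
      have t2 := main hz' m1 n1
      linarith

/-- the connection by a segment -/
lemma conn_seg3 {f : Poly} {F a b c : Fin 3 → Polynomial ℝ} {h : Fin 3 → Poly}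
    (d : Dec f F a b c h) (ha : ∀ i, a i = 0) (hb : ∀ i, b i = 0) (hc : ∀ i, c i = 0)
    {L ε : ℝ} (hεL : (2 + 3 * L) * ε < 1 / 2)
    (hL : ∀ (i : Fin 3) (x : Pt), ‖x‖ ≤ 1 → |eval x (h i)| ≤ L)
    {p q : Pt} (hp : ‖p‖ ≤ 1 / 4) (hq : ‖q‖ ≤ 1 / 4) (hpq : q 0 = p 0)
    (hyp : 0 < p 1) (hzp : 0 < p 2) (hyq : 0 < q 1) (hzq : 0 < q 2)
    (hφp : 0 < eval p f) (hφq : 0 < eval q f)
    (p1 : p 1 ^ 2 ≤ ε * eval p f) (p3 : p 2 ^ 2 ≤ ε * eval p f) (q1 : q 1 ^ 2 ≤ ε * eval q f)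
    (q3 : q 2 ^ 2 ≤ ε * eval q f)
    {i : ℕ} (hMp : MT i ((F 0).eval (p 0)) ((F 1).eval (p 0)) ((F 2).eval (p 0)) ε (p 1) (p 2)
      (eval p f))
    (hMq : MT i ((F 0).eval (p 0)) ((F 1).eval (p 0)) ((F 2).eval (p 0)) ε (q 1) (q 2)
      (eval q f)) :
    Conn f p q := by
  have hp0 : |p 0| ≤ 1 / 4 := (norm_le_pi_norm p 0).trans hp
  have hp1 : |p 1| ≤ 1 / 4 := (norm_le_pi_norm p 1).trans hp
  have hp2 : |p 2| ≤ 1 / 4 := (norm_le_pi_norm p 2).trans hp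
  have hq1 : |q 1| ≤ 1 / 4 := (norm_le_pi_norm q 1).trans hq
  have hq2 : |q 2| ≤ 1 / 4 := (norm_le_pi_norm q 2).trans hq
  have hb1 : ∀ {u v s : ℝ}, 0 ≤ s → s ≤ 1 → |u| ≤ 1 / 4 → |v| ≤ 1 / 4 →
      |u + s * (v - u)| ≤ 1 := by
    intro u v s h0 h1 h2 h3
    have e1 := abs_le.mp h2
    have e2 := abs_le.mp h3
    rw [abs_le]
    constructor <;> nlinarith [e1.1, e1.2, e2.1, e2.2]
  have c3 := conn_path (f := f)
    (γ := fun s => ![p 0, p 1 + s * (q 1 - p 1), p 2 + s * (q 2 - p 2)]) (a := 0) (b := 1)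
    zero_le_one
    (by
      apply Continuous.continuousOn
      refine continuous_pi fun i => ?_
      fin_cases i
      · exact continuous_const
      · show Continuous fun s : ℝ => p 1 + s * (q 1 - p 1)
        fun_prop
      · show Continuous fun s : ℝ => p 2 + s * (q 2 - p 2)
        fun_prop)
    (by
      intro s hs
      have hn : ‖(![p 0, p 1 + s * (q 1 - p 1), p 2 + s * (q 2 - p 2)] : Pt)‖ ≤ 1 := by
        apply norm_le3 zero_le_one
        · simpa using hp0.trans (by norm_num)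
        · simpa using hb1 hs.1 hs.2 hp1 hq1
        · simpa using hb1 hs.1 hs.2 hp2 hq2
      have := seg_pos hs.1 hs.2 hyp hzp hyq hzq hφp hφq hεL p1 p3 q1 q3 hMp hMq
        (hL 0 _ hn) (hL 1 _ hn) (hL 2 _ hn)
      rw [d.eval_eq]
      have e0 : (![p 0, p 1 + s * (q 1 - p 1), p 2 + s * (q 2 - p 2)] : Pt) 0 = p 0 := rfl
      have e1 : (![p 0, p 1 + s * (q 1 - p 1), p 2 + s * (q 2 - p 2)] : Pt) 1 =
        p 1 + s * (q 1 - p 1) := rfl
      have e2 : (![p 0, p 1 + s * (q 1 - p 1), p 2 + s * (q 2 - p 2)] : Pt) 2 =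
        p 2 + s * (q 2 - p 2) := rfl
      rw [e0, e1, e2]
      simp only [ha, hb, hc, Polynomial.eval_zero, zero_mul, sub_zero]
      exact this)
  have e4 : (![p 0, p 1 + 0 * (q 1 - p 1), p 2 + 0 * (q 2 - p 2)] : Pt) = p := by
    funext i
    fin_cases i <;> simp
  have e5 : (![p 0, p 1 + 1 * (q 1 - p 1), p 2 + 1 * (q 2 - p 2)] : Pt) = q := by
    funext i
    fin_cases i <;> simp [hpq]
  rw [e4, e5] at c3
  exact c3

end Pool.Agent.SepArc
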