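import Pool.Agent.Lib.MP_1a4606_ag.O3c

/-!
# Arcs and separation (MP_1a4606_ag): arcs of order three in normal form
-/

set_option autoImplicit false

open Filter Topology MvPolynomial

namespace Pool.Agent.SepArc

lemma v30 {α : Type*} (x y z : α) : (![x, y, z] : Fin 3 → α) 0 = x := rfl

lemma v31 {α : Type*} (x y z : α) : (![x, y, z] : Fin 3 → α) 1 = y := rfl

lemma v32 {α : Type*} (x y z : α) : (![x, y, z] : Fin 3 → α) 2 = z := rfl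

lemma dec_exists (a b c : Fin 3 → Polynomial ℝ) (f : Poly) :
    ∃ (F : Fin 3 → Polynomial ℝ) (h : Fin 3 → Poly), Dec f F a b c h := by
  induction f using MvPolynomial.induction_on with
  | C r =>
    refine ⟨![Polynomial.C r, 0, 0], 0, ⟨?_⟩⟩
    simp [px_C, px_zero, v32]
  | add g g' hg hg' =>
    obtain ⟨F, h, ⟨e⟩⟩ := hg
    obtain ⟨F', h', ⟨e'⟩⟩ := hg'
    refine ⟨F + F', h + h', ⟨?_⟩⟩
    rw [e, e']
    simp only [Pi.add_apply, px_add]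
    ring
  | mul_X g i hg =>
    obtain ⟨F, h, ⟨e⟩⟩ := hg
    fin_cases i
    · refine ⟨fun i => Polynomial.X * F i, fun i => X 0 * h i, ⟨?_⟩⟩
      rw [e]
      simp only [px_mul, px_X]
      show _ * X 0 = _
      ring
    · refine ⟨![F 1 * a 0 + F 2 * b 0, F 0 + F 1 * a 1 + F 2 * b 1, F 1 * a 2 + F 2 * b 2],
        ![X 1 * h 0 + px (F 1), X 1 * h 1 + px (F 2), X 1 * h 2], ⟨?_⟩⟩
      rw [e]
      simp only [kap, px_mul, px_add, v30, v31, v32]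
      show _ * X 1 = _
      ring
    · refine ⟨![F 1 * b 0 + F 2 * c 0, F 1 * b 1 + F 2 * c 1, F 0 + F 1 * b 2 + F 2 * c 2],
        ![X 2 * h 0, X 2 * h 1 + px (F 1), X 2 * h 2 + px (F 2)], ⟨?_⟩⟩
      rw [e]
      simp only [kap, px_mul, px_add, v30, v31, v32]
      show _ * X 2 = _
      ring

lemma Ctx.both_lo {f : Poly} {P Q : ℝ → Pt} (c : Ctx f P Q) {N m : ℕ} (hN : HasOrd P f N)
    (hm : m ≤ N) {g₁ g₂ : Poly} (h1 : HasOrd P g₁ m) (h2 : OrdGe P (m + 1) g₂) :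
    LO P g₂ g₁ ∧ LO Q g₂ g₁ :=
  ⟨lo_of_ord h2 h1, ns_ord c.hP c.hQ c.hf c.hfQ c.hns hN hm h1 h2⟩

lemma pos_of_ord {f g : Poly} {P : ℝ → Pt} {N m : ℕ} (hN : HasOrd P f N)
    (hm : m ≤ N) (h1 : HasOrd P g m) (hg : FPos P g) : Pos P f g := by
  obtain ⟨A, hA, B, hB, h2⟩ := h1.bounds
  obtain ⟨A', hA', B', hB', h3⟩ := hN.bounds
  refine ⟨A / B', by positivity, ?_⟩
  filter_upwards [h2, h3, hg, pos_ev, lt_ev one_pos] with t e1 e2 e3 e4 e5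
  have e6 : t ^ N ≤ t ^ m := pow_le_pow_of_le_one e4.le e5.le hm
  rw [abs_of_pos e3] at e1
  calc A / B' * eval (P t) f ≤ A / B' * (B' * t ^ N) :=
        mul_le_mul_of_nonneg_left ((le_abs_self _).trans e2.2) (by positivity)
    _ = A * t ^ N := by field_simp
    _ ≤ A * t ^ m := mul_le_mul_of_nonneg_left e6 hA.le
    _ ≤ eval (P t) g := e1.1

lemma Ctx.fposQ {f : Poly} {P Q : ℝ → Pt} (c : Ctx f P Q) {N m : ℕ} (hN : HasOrd P f N)
    (hm : m ≤ N) {g : Poly} (h1 : HasOrd P g m) (hg : FPos P g) : FPos Q g :=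
  (ns_pos c.hQ c.hf c.hns (pos_of_ord hN hm h1 hg)).ev_pos c.hfQ

/-- the facts at an end, eventually -/
lemma evF {R : ℝ → Pt} {f : Poly} {a b c : Fin 3 → Polynomial ℝ} (hf : FPos R f)
    (h1 : FPos R (X 1)) (h2 : FPos R (X 2)) (hzy : LO R (X 2) (X 1))
    (ha0 : LO R (px (a 0)) (X 1 ^ 2)) (ha1 : LO R (px (a 1) * X 1) (X 1 ^ 2))
    (hk1 : LO R (kap (X 1 ^ 2) a) f) (hk1' : LO R (kap (X 1 ^ 2) a) (X 1 ^ 2))
    (hk2 : LO R (kap (X 1 * X 2) b) f) (hk3 : LO R (kap (X 2 ^ 2) c) f)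
    (hb2 : LO R (px (b 2) * X 2) (X 1 * X 2)) (hc2 : LO R (px (c 2) * X 2) (X 2 ^ 2))
    {ε : ℝ} (hε : 0 < ε) : ∀ᶠ t in 𝓝[>] (0 : ℝ),
      Fct ((a 0).eval (R t 0)) ((a 1).eval (R t 0)) ((a 2).eval (R t 0))
      ((b 0).eval (R t 0)) ((b 1).eval (R t 0)) ((b 2).eval (R t 0))
      ((c 0).eval (R t 0)) ((c 1).eval (R t 0)) ((c 2).eval (R t 0)) ε (R t 1) (R t 2)
      (eval (R t) f) := by
  filter_upwards [hf, h1, h2, hzy ε hε, ha0 ε hε, ha1 ε hε, hk1 ε hε, hk1' ε hε, hk2 ε hε,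
    hk3 ε hε, hb2 ε hε, hc2 ε hε] with t e0 e1 e2 e3 e4 e5 e6 e7 e8 e9 e10 e11
  simp only [eval_kap, map_mul, map_pow, eval_X, eval_px] at e1 e2 e3 e4 e5 e6 e7 e8 e9 e10 e11
  rw [abs_of_pos e0] at e6 e8 e9
  rw [abs_of_pos e1, abs_of_pos e2] at e3
  rw [abs_of_pos (pow_pos e1 2)] at e4 e5 e7
  rw [abs_mul, abs_of_pos e2, abs_of_pos (mul_pos e1 e2)] at e10
  rw [abs_mul, abs_of_pos e2, abs_of_pos (pow_pos e2 2)] at e11
  rw [abs_mul, abs_of_pos e1] at e5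
  refine ⟨e1, e2, e0, e3, e4, ?_, e6, e7, e8, e9, ?_, ?_⟩
  · have : |(a 1).eval (R t 0)| * R t 1 ≤ (ε * R t 1) * R t 1 := by linarith
    exact le_of_mul_le_mul_right this e1
  · have : |(b 2).eval (R t 0)| * R t 2 ≤ (ε * R t 1) * R t 2 := by linarith
    exact le_of_mul_le_mul_right this e2
  · have : |(c 2).eval (R t 0)| * R t 2 ≤ (ε * R t 2) * R t 2 := by linarith
    exact le_of_mul_le_mul_right this e2

lemma evB {R : ℝ → Pt} {b : Fin 3 → Polynomial ℝ}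
    (h1 : FPos R (X 1)) (h2 : FPos R (X 2))
    (hb1 : LO R (px (b 1) * X 1) (X 1 * X 2)) (hb0 : LO R (px (b 0) - X 1 * X 2) (X 1 * X 2))
    {ε : ℝ} (hε : 0 < ε) : ∀ᶠ t in 𝓝[>] (0 : ℝ),
      FB ((b 0).eval (R t 0)) ((b 1).eval (R t 0)) ε (R t 1) (R t 2) := by
  filter_upwards [h1, h2, hb1 ε hε, hb0 ε hε] with t e1 e2 e3 e4
  simp only [map_sub, map_mul, eval_X, eval_px] at e1 e2 e3 e4
  rw [abs_of_pos (mul_pos e1 e2)] at e3 e4
  rw [abs_mul, abs_of_pos e1] at e3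
  refine ⟨?_, e4⟩
  have : |(b 1).eval (R t 0)| * R t 1 ≤ (ε * R t 2) * R t 1 := by linarith
  exact le_of_mul_le_mul_right this e1

lemma evC {R : ℝ → Pt} {c : Fin 3 → Polynomial ℝ} (h2 : FPos R (X 2))
    (hc1 : LO R (px (c 1) * X 1 - X 2 ^ 2) (X 2 ^ 2))
    {ε : ℝ} (hε : 0 < ε) : ∀ᶠ t in 𝓝[>] (0 : ℝ),
      FC ((c 1).eval (R t 0)) ε (R t 1) (R t 2) := by
  filter_upwards [h2, hc1 ε hε] with t e2 e3
  simp only [map_sub, map_mul, map_pow, eval_X, eval_px] at e2 e3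
  rw [abs_of_pos (pow_pos e2 2)] at e3
  exact e3

/-- the main term, in terms of `LO` -/
def MTlo (i : ℕ) (f : Poly) (F : Fin 3 → Polynomial ℝ) (R : ℝ → Pt) : Prop :=
  (i = 0 ∧ LO R (f - px (F 0)) f ∧ LO R (px (F 1) * X 1) f ∧ LO R (px (F 2) * X 2) f) ∨
  (i = 1 ∧ LO R (f - px (F 1) * X 1) f ∧ LO R (px (F 0)) f ∧ LO R (px (F 2) * X 2) f) ∨
  (i = 2 ∧ LO R (f - px (F 2) * X 2) f ∧ LO R (px (F 0)) f ∧ LO R (px (F 1) * X 1) f)

lemma evM {R : ℝ → Pt} {f : Poly} {F : Fin 3 → Polynomial ℝ} {i : ℕ} (hf : FPos R f)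
    (h1 : FPos R (X 1)) (h2 : FPos R (X 2)) (hM : MTlo i f F R) {ε : ℝ} (hε : 0 < ε) :
    ∀ᶠ t in 𝓝[>] (0 : ℝ), MT i ((F 0).eval (R t 0)) ((F 1).eval (R t 0))
      ((F 2).eval (R t 0)) ε (R t 1) (R t 2) (eval (R t) f) := by
  have half : (0 : ℝ) < 1 / 2 := by norm_num
  rcases hM with ⟨rfl, m1, m2, m3⟩ | ⟨rfl, m1, m2, m3⟩ | ⟨rfl, m1, m2, m3⟩
  · filter_upwards [hf, h1, h2, m1 _ half, m2 ε hε, m3 ε hε] with t e0 e1 e2 e3 e4 e5
    simp only [map_sub, map_mul, eval_X, eval_px] at e1 e2 e3 e4 e5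
    rw [abs_of_pos e0] at e3 e4 e5
    rw [abs_mul, abs_of_pos e1] at e4
    rw [abs_mul, abs_of_pos e2] at e5
    exact Or.inl ⟨rfl, by linarith [(abs_le.mp e3).2], e4, e5⟩
  · filter_upwards [hf, h1, h2, m1 _ half, m2 ε hε, m3 ε hε] with t e0 e1 e2 e3 e4 e5
    simp only [map_sub, map_mul, eval_X, eval_px] at e1 e2 e3 e4 e5
    rw [abs_of_pos e0] at e3 e4 e5
    rw [abs_mul, abs_of_pos e2] at e5
    exact Or.inr (Or.inl ⟨rfl, by linarith [(abs_le.mp e3).2], e4, e5⟩)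
  · filter_upwards [hf, h1, h2, m1 _ half, m2 ε hε, m3 ε hε] with t e0 e1 e2 e3 e4 e5
    simp only [map_sub, map_mul, eval_X, eval_px] at e1 e2 e3 e4 e5
    rw [abs_of_pos e0] at e3 e4 e5
    rw [abs_mul, abs_of_pos e1] at e5
    exact Or.inr (Or.inr ⟨rfl, by linarith [(abs_le.mp e3).2], e4, e5⟩)

/-- a relation for `u` of order `m ≤ N` -/
lemma rel {P : ℝ → Pt} (hP : IsArc P) {N a b m : ℕ} (hx : HasOrd P (X 0) 3)
    (hy : HasOrd P (X 1) a) (hz : HasOrd P (X 2) b) (ha3 : a % 3 ≠ 0)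
    (hb3 : b % 3 = (2 * a) % 3) (hab : a < b) {u : Poly} (hu : HasOrd P u m) (hbm : b ≤ m) :
    ∃ α : Fin 3 → Polynomial ℝ, OrdGe P (N + 1) (kap u α) ∧
      (m % 3 ≠ 0 → OrdGe P (m + 1) (px (α 0))) ∧
      (m % 3 ≠ a % 3 → OrdGe P (m + 1) (px (α 1) * X 1)) ∧
      (m % 3 ≠ b % 3 → OrdGe P (m + 1) (px (α 2) * X 2)) := by
  obtain ⟨w, ⟨p0, p1, p2, hw⟩, h1, h2⟩ := red hP (Sp (X 1) (X 2)) (sp_zero _ _)
    (sp_add _ _) (sp_smul _ _) (N + 1) (fun _ => True) (N + 1) m (by omega)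
    (fun n _ hn _ => by
      obtain ⟨s0, s1, s2⟩ := sp_ord (P := P) (u := X 1) (v := X 2) hx
      have hcase : n % 3 = 0 ∨ n % 3 = a % 3 ∨ n % 3 = b % 3 := by omega
      rcases hcase with h | h | h
      · obtain ⟨k, hk⟩ : ∃ k, n = 3 * k := ⟨n / 3, by omega⟩
        rw [hk]
        exact s0 k
      · obtain ⟨k, hk⟩ : ∃ k, n = 3 * k + a := ⟨(n - a) / 3, by omega⟩
        rw [hk]
        exact s1 a hy k
      · obtain ⟨k, hk⟩ : ∃ k, n = 3 * k + b := ⟨(n - b) / 3, by omega⟩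
        rw [hk]
        exact s2 b hz k) u (hu.ordGe le_rfl)
  have h3 : OrdGe P (N + 1) (u - w) := by
    rcases h2 with h2 | ⟨_, _, _, h4, _⟩
    · exact h2
    · exact absurd trivial h4
  have c0 : Cl P (px p0) 0 := by
    have := cl_px_mul hP hx (hasOrd_one P) p0
    simpa using this
  have c1 := cl_px_mul hP hx hy p1
  have c2 := cl_px_mul hP hx hz p2
  rw [hw] at h1
  obtain ⟨t0, t1, t2⟩ := three_terms hP c0 c1 c2 (by omega) (by omega) (by omega) h1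
  have up : ∀ {T : Poly} {r : ℕ}, Cl P T r → OrdGe P m T → m % 3 ≠ r → OrdGe P (m + 1) T := by
    intro T r hc ht hr
    rcases hP.dich T (m + 1) with h | ⟨n, hn, h⟩
    · exact h
    · exfalso
      have h5 := h.le_of_ordGe ht
      have h6 : n = m := by omega
      subst h6
      exact hr (hc _ h)
  refine ⟨![p0, p1, p2], ?_, up c0 t0, up c1 t1, up c2 t2⟩
  have e : kap u ![p0, p1, p2] = u - w := by
    rw [hw]
    simp only [kap, v30, v31, v32]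
    ring
  rw [e]
  exact h3

end Pool.Agent.SepArc
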