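import Pool.Agent.Lib.MP_1a4606_ag.O3d

/-!
# Arcs and separation (MP_1a4606_ag): arcs of order three
-/

set_option autoImplicit false

open Filter Topology MvPolynomial

namespace Pool.Agent.SepArc

lemma Cl.up {P : ℝ → Pt} (hP : IsArc P) {T : Poly} {r m : ℕ} (hc : Cl P T r)
    (h : OrdGe P m T) (hr : m % 3 ≠ r) : OrdGe P (m + 1) T := by
  rcases hP.dich T (m + 1) with h1 | ⟨n, hn, h1⟩
  · exact h1
  · exfalso
    have h5 := h1.le_of_ordGe h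
    have h6 : n = m := by omega
    subst h6
    exact hr (hc _ h1)

/-- the main term -/
lemma Ctx.main_term {f : Poly} {P Q : ℝ → Pt} (c : Ctx f P Q) {N a b : ℕ}
    (hN : HasOrd P f N) (hx : HasOrd P (X 0) 3)
    (hy : HasOrd P (X 1) a) (hz : HasOrd P (X 2) b) (ha3 : a % 3 ≠ 0)
    (hb3 : b % 3 = (2 * a) % 3) {F α β γ : Fin 3 → Polynomial ℝ} {h : Fin 3 → Poly}
    (d : Dec f F α β γ h) (k1 : OrdGe P (N + 1) (kap (X 1 ^ 2) α))
    (k2 : OrdGe P (N + 1) (kap (X 1 * X 2) β)) (k3 : OrdGe P (N + 1) (kap (X 2 ^ 2) γ)) :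
    (∃ i, MTlo i f F P ∧ MTlo i f F Q) ∧ OrdGe P N (px (F 2) * X 2) := by
  set K : Poly := kap (X 1 ^ 2) α * h 0 + kap (X 1 * X 2) β * h 1 + kap (X 2 ^ 2) γ * h 2
    with hK
  have hK' : OrdGe P (N + 1) K := by
    have h1 := k1.mul (c.hP.ordGe_zero (h 0))
    have h2 := k2.mul (c.hP.ordGe_zero (h 1))
    have h3 := k3.mul (c.hP.ordGe_zero (h 2))
    rw [add_zero] at h1 h2 h3
    exact (h1.add h2).add h3
  have hd : f = px (F 0) + px (F 1) * X 1 + px (F 2) * X 2 + K := d.eq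
  have hS : OrdGe P N (px (F 0) + px (F 1) * X 1 + px (F 2) * X 2) := by
    have : px (F 0) + px (F 1) * X 1 + px (F 2) * X 2 = f - K := by rw [hd]; ring
    rw [this]
    exact (hN.ordGe le_rfl).sub (hK'.mono (by omega))
  have c0 : Cl P (px (F 0)) 0 := by
    have := cl_px_mul c.hP hx (hasOrd_one P) (F 0)
    simpa using this
  have c1 := cl_px_mul c.hP hx hy (F 1)
  have c2 := cl_px_mul c.hP hx hz (F 2)
  obtain ⟨t0, t1, t2⟩ := three_terms c.hP c0 c1 c2 (by omega) (by omega) (by omega) hS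
  refine ⟨?_, t2⟩
  have both : ∀ {g : Poly}, OrdGe P (N + 1) g → LO P g f ∧ LO Q g f :=
    fun hg => c.both_lo hN le_rfl hN hg
  have hcase : N % 3 = 0 ∨ N % 3 = a % 3 ∨ N % 3 = b % 3 := by omega
  rcases hcase with hc | hc | hc
  · have u1 := c1.up c.hP t1 (by omega)
    have u2 := c2.up c.hP t2 (by omega)
    have u0 : OrdGe P (N + 1) (f - px (F 0)) := by
      have : f - px (F 0) = px (F 1) * X 1 + px (F 2) * X 2 + K := by
        linear_combination hd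
      rw [this]
      exact (u1.add u2).add hK'
    exact ⟨0, Or.inl ⟨rfl, (both u0).1, (both u1).1, (both u2).1⟩,
      Or.inl ⟨rfl, (both u0).2, (both u1).2, (both u2).2⟩⟩
  · have u1 := c0.up c.hP t0 (by omega)
    have u2 := c2.up c.hP t2 (by omega)
    have u0 : OrdGe P (N + 1) (f - px (F 1) * X 1) := by
      have : f - px (F 1) * X 1 = px (F 0) + px (F 2) * X 2 + K := by
        linear_combination hd
      rw [this]
      exact (u1.add u2).add hK'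
    exact ⟨1, Or.inr (Or.inl ⟨rfl, (both u0).1, (both u1).1, (both u2).1⟩),
      Or.inr (Or.inl ⟨rfl, (both u0).2, (both u1).2, (both u2).2⟩)⟩
  · have u1 := c0.up c.hP t0 (by omega)
    have u2 := c1.up c.hP t1 (by omega)
    have u0 : OrdGe P (N + 1) (f - px (F 2) * X 2) := by
      have : f - px (F 2) * X 2 = px (F 0) + px (F 1) * X 1 + K := by
        linear_combination hd
      rw [this]
      exact (u1.add u2).add hK'
    exact ⟨2, Or.inr (Or.inr ⟨rfl, (both u0).1, (both u1).1, (both u2).1⟩),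
      Or.inr (Or.inr ⟨rfl, (both u0).2, (both u1).2, (both u2).2⟩)⟩

/-- facts on the `x`-axis -/
lemma xfacts {P : ℝ → Pt} (hP : IsArc P) {a2 F2 : Polynomial ℝ} (hx : HasOrd P (X 0) 3)
    (p0 : FPos P (X 0)) {b m N : ℕ} (hz : HasOrd P (X 2) b) (h1 : HasOrd P (px a2 * X 2) m)
    (hpos : FPos P (px a2)) (hmN : m ≤ N) (h2 : OrdGe P N (px F2 * X 2)) :
    ∃ K : ℝ, 0 ≤ K ∧ ∃ δ > (0 : ℝ), ∀ x ∈ Set.Ioo (0 : ℝ) δ,
      0 < a2.eval x ∧ |F2.eval x| ≤ K * a2.eval x := by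
  have ha2 : a2 ≠ 0 := by
    intro h
    rw [h, px_zero, zero_mul] at h1
    exact not_hasOrd_zero h1
  obtain ⟨k, q, hq, hq0, hqo⟩ := px_ord hP hx (by norm_num) ha2
  have hm : 3 * k + b = m := (hqo.mul hz).unique h1
  have hx0 : Tendsto (fun t => P t 0) (𝓝[>] 0) (𝓝 0) := by
    have := hP.tendsto_eval (X 0)
    simpa using this
  have hqpos : 0 < q.eval 0 := by
    have h3 : ∀ᶠ t in 𝓝[>] (0 : ℝ), 0 < q.eval (P t 0) := by
      filter_upwards [hpos, p0] with t e1 e2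
      rw [eval_px, hq, Polynomial.eval_mul, Polynomial.eval_pow, Polynomial.eval_X] at e1
      rw [eval_X] at e2
      exact pos_of_mul_pos_right e1 (pow_pos e2 k).le
    have h4 : Tendsto (fun t => q.eval (P t 0)) (𝓝[>] 0) (𝓝 (q.eval 0)) :=
      (q.continuous.tendsto 0).comp hx0
    have h5 : 0 ≤ q.eval 0 := ge_of_tendsto h4 (h3.mono fun t ht => ht.le)
    exact lt_of_le_of_ne h5 hq0.symm
  obtain ⟨r, hr⟩ : ∃ r : Polynomial ℝ, F2 = Polynomial.X ^ k * r := by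
    by_cases hF2 : F2 = 0
    · exact ⟨0, by rw [hF2, mul_zero]⟩
    · obtain ⟨l, r, hr, _, hro⟩ := px_ord hP hx (by norm_num) hF2
      have hl : N ≤ 3 * l + b := (hro.mul hz).le_of_ordGe h2
      obtain ⟨j, hj⟩ := Nat.exists_eq_add_of_le (show k ≤ l by omega)
      exact ⟨Polynomial.X ^ j * r, by rw [hr, hj, pow_add, mul_assoc]⟩
  -- bounds near zero
  have hqc : ∀ᶠ x in 𝓝 (0 : ℝ), q.eval 0 / 2 < q.eval x :=
    (q.continuous.tendsto 0).eventually (eventually_gt_nhds (by linarith))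
  have hrc : ∀ᶠ x in 𝓝 (0 : ℝ), |r.eval x| < |r.eval 0| + 1 :=
    ((r.continuous.abs).tendsto 0).eventually (eventually_lt_nhds (by linarith))
  have hboth := (hqc.and hrc).filter_mono (nhdsWithin_le_nhds (s := Set.Ioi (0 : ℝ)))
  obtain ⟨δ, hδ, h3⟩ := ev_pos_iff hboth
  refine ⟨2 * (|r.eval 0| + 1) / q.eval 0, by positivity, δ, hδ, fun x hx' => ?_⟩
  obtain ⟨e1, e2⟩ := h3 x hx'
  have hxk : 0 < x ^ k := pow_pos hx'.1 k
  rw [hq, hr, Polynomial.eval_mul, Polynomial.eval_mul, Polynomial.eval_pow, Polynomial.eval_X]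
  have hqx : 0 < q.eval x := by linarith
  refine ⟨by positivity, ?_⟩
  rw [abs_mul, abs_of_pos hxk]
  have e3 : x ^ k * |r.eval x| ≤ x ^ k * (|r.eval 0| + 1) :=
    mul_le_mul_of_nonneg_left e2.le hxk.le
  have e4 : (|r.eval 0| + 1) * (q.eval 0 / 2) ≤ (|r.eval 0| + 1) * q.eval x :=
    mul_le_mul_of_nonneg_left e1.le (by positivity)
  have e5 : 2 * (|r.eval 0| + 1) / q.eval 0 * (x ^ k * q.eval x) =
      x ^ k * ((|r.eval 0| + 1) * q.eval x / (q.eval 0 / 2)) := by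
    field_simp
  rw [e5]
  refine e3.trans (mul_le_mul_of_nonneg_left ?_ hxk.le)
  rw [le_div_iff₀ (by linarith)]
  exact e4

lemma zero_fn (i : Fin 3) : (0 : Fin 3 → Polynomial ℝ) i = 0 := rfl

lemma kap_zero (u : Poly) : kap u 0 = u := by
  unfold kap
  simp [px_zero]

lemma exists_L (h : Fin 3 → Poly) : ∃ L : ℝ, 0 ≤ L ∧
    ∀ (i : Fin 3) (x : Pt), ‖x‖ ≤ 1 → |eval x (h i)| ≤ L := by
  obtain ⟨L0, hL0, h0⟩ := poly_lip (h 0)
  obtain ⟨L1, hL1, h1⟩ := poly_lip (h 1)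
  obtain ⟨L2, hL2, h2⟩ := poly_lip (h 2)
  refine ⟨L0 + L1 + L2, by positivity, fun i x hx => ?_⟩
  fin_cases i
  · show |eval x (h 0)| ≤ _
    linarith [(h0 x x hx hx).1]
  · show |eval x (h 1)| ≤ _
    linarith [(h1 x x hx hx).1]
  · show |eval x (h 2)| ≤ _
    linarith [(h2 x x hx hx).1]

/-- order three, low order of `f` -/
theorem Ctx.o3_seg {f : Poly} {P Q : ℝ → Pt} (c : Ctx f P Q) {N a b : ℕ}
    (hN : HasOrd P f N) (hx : HasOrd P (X 0) 3)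
    (hy : HasOrd P (X 1) a) (hz : HasOrd P (X 2) b) (ha3 : a % 3 ≠ 0)
    (hb3 : b % 3 = (2 * a) % 3) (hab : a < b) (hbN : b ≤ N)
    (p0 : FPos P (X 0)) (p1 : FPos P (X 1)) (p2 : FPos P (X 2)) (hlow : N < 2 * a)
    (h3N : 3 ≤ N) :
    Meets f P Q := by
  obtain ⟨F, h, d⟩ := dec_exists 0 0 0 f
  have hyy := hy.pow 2
  have hyz := hy.mul hz
  have hzz := hz.pow 2
  have k1 : OrdGe P (N + 1) (X 1 ^ 2 : Poly) := hyy.ordGe (by omega)
  have k2 : OrdGe P (N + 1) (X 1 * X 2 : Poly) := hyz.ordGe (by omega)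
  have k3 : OrdGe P (N + 1) (X 2 ^ 2 : Poly) := hzz.ordGe (by omega)
  obtain ⟨⟨i, mP, mQ⟩, _⟩ := c.main_term hN hx hy hz ha3 hb3 d (by rwa [kap_zero])
    (by rwa [kap_zero]) (by rwa [kap_zero])
  obtain ⟨L, hL0, hL⟩ := exists_L h
  have q0 := c.fposQ hN h3N hx p0
  have q1 := c.fposQ hN (by omega) hy p1
  have q2 := c.fposQ hN (by omega) hz p2
  have hm := matching c.hP c.hQ (X 0) (by simp) p0 q0
  set ε : ℝ := 1 / (5 + 6 * L) with hε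
  have hε0 : 0 < ε := by positivity
  have hεL : (2 + 3 * L) * ε < 1 / 2 := by
    rw [hε, mul_one_div, div_lt_iff₀ (by positivity)]
    linarith
  obtain ⟨l1P, l1Q⟩ := c.both_lo hN le_rfl hN k1
  obtain ⟨l3P, l3Q⟩ := c.both_lo hN le_rfl hN k3
  refine (hm.and_eventually (((ev_fst (evM c.hf p1 p2 mP hε0)).and
    (ev_snd (evM c.hfQ q1 q2 mQ hε0))).and (((ev_fst (l1P ε hε0)).and
    (ev_snd (l1Q ε hε0))).and (((ev_fst (l3P ε hε0)).and (ev_snd (l3Q ε hε0))).and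
    (((ev_fst (c.hP.norm_ev (show (0 : ℝ) < 1 / 4 by norm_num))).and
      (ev_snd (c.hQ.norm_ev (show (0 : ℝ) < 1 / 4 by norm_num)))).and
    (((ev_fst p1).and (ev_snd q1)).and (((ev_fst p2).and (ev_snd q2)).and
      ((ev_fst c.hf).and (ev_snd c.hfQ))))))))).mono ?_
  rintro p ⟨em, ⟨eMP, eMQ⟩, ⟨e1P, e1Q⟩, ⟨e3P, e3Q⟩, ⟨enP, enQ⟩, ⟨e4P, e4Q⟩, ⟨e5P, e5Q⟩,
    ⟨efP, efQ⟩⟩
  simp only [map_pow, eval_X] at em e1P e1Q e3P e3Q e4P e4Q e5P e5Q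
  rw [abs_of_pos (pow_pos e4P 2), abs_of_pos efP] at e1P
  rw [abs_of_pos (pow_pos e4Q 2), abs_of_pos efQ] at e1Q
  rw [abs_of_pos (pow_pos e5P 2), abs_of_pos efP] at e3P
  rw [abs_of_pos (pow_pos e5Q 2), abs_of_pos efQ] at e3Q
  refine conn_seg3 d zero_fn zero_fn zero_fn hεL hL enP.le enQ.le em.symm e4P e5P e4Q e5Q
    efP efQ e1P e3P e1Q e3Q eMP ?_
  rw [em]
  exact eMQ

/-- the end of the proof for arcs of order three -/
theorem Ctx.o3_fin {f : Poly} {P Q : ℝ → Pt} (c : Ctx f P Q)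
    {F α β γ : Fin 3 → Polynomial ℝ} {h : Fin 3 → Poly} (d : Dec f F α β γ h)
    (p0 : FPos P (X 0)) (q0 : FPos Q (X 0)) {i : ℕ}
    (p1 : FPos P (X 1)) (p2 : FPos P (X 2)) (q1 : FPos Q (X 1)) (q2 : FPos Q (X 2))
    (mP : MTlo i f F P) (mQ : MTlo i f F Q)
    (hxf : ∃ K : ℝ, 0 ≤ K ∧ ∃ δ > (0 : ℝ), ∀ x ∈ Set.Ioo (0 : ℝ) δ,
      0 < (α 2).eval x ∧ |(F 2).eval x| ≤ K * (α 2).eval x)
    (fP : ∀ ε > (0 : ℝ), ∀ᶠ t in 𝓝[>] (0 : ℝ),
      Fct ((α 0).eval (P t 0)) ((α 1).eval (P t 0)) ((α 2).eval (P t 0))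
      ((β 0).eval (P t 0)) ((β 1).eval (P t 0)) ((β 2).eval (P t 0))
      ((γ 0).eval (P t 0)) ((γ 1).eval (P t 0)) ((γ 2).eval (P t 0)) ε (P t 1) (P t 2)
      (eval (P t) f))
    (fQ : ∀ ε > (0 : ℝ), ∀ᶠ t in 𝓝[>] (0 : ℝ),
      Fct ((α 0).eval (Q t 0)) ((α 1).eval (Q t 0)) ((α 2).eval (Q t 0))
      ((β 0).eval (Q t 0)) ((β 1).eval (Q t 0)) ((β 2).eval (Q t 0))
      ((γ 0).eval (Q t 0)) ((γ 1).eval (Q t 0)) ((γ 2).eval (Q t 0)) ε (Q t 1) (Q t 2)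
      (eval (Q t) f))
    (hBC : ((∀ i, β i = 0) ∧ (∀ i, γ i = 0)) ∨
      ((∀ ε > (0 : ℝ), (∀ᶠ t in 𝓝[>] (0 : ℝ),
          FB ((β 0).eval (P t 0)) ((β 1).eval (P t 0)) ε (P t 1) (P t 2)) ∧
        (∀ᶠ t in 𝓝[>] (0 : ℝ),
          FB ((β 0).eval (Q t 0)) ((β 1).eval (Q t 0)) ε (Q t 1) (Q t 2))) ∧
        ((∀ i, γ i = 0) ∨ (∀ ε > (0 : ℝ),
          (∀ᶠ t in 𝓝[>] (0 : ℝ), FC ((γ 1).eval (P t 0)) ε (P t 1) (P t 2)) ∧
          (∀ᶠ t in 𝓝[>] (0 : ℝ), FC ((γ 1).eval (Q t 0)) ε (Q t 1) (Q t 2)))))) :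
    Meets f P Q := by
  obtain ⟨L, hL0, hL⟩ := exists_L h
  obtain ⟨K, hK0, δ, hδ, hKδ⟩ := hxf
  have hm := matching c.hP c.hQ (X 0) (by simp) p0 q0
  set ε : ℝ := 1 / (16 + 2 * (K + 9 * L) + 144 * (7 + 2 * L)) with hε
  have hden : 0 < 16 + 2 * (K + 9 * L) + 144 * (7 + 2 * L) := by positivity
  have hε0 : 0 < ε := by positivity
  have hε1 : ε ≤ 1 / 16 := by
    rw [hε, div_le_div_iff₀ hden (by norm_num)]
    nlinarith
  have hεL : (K + 9 * L) * ε ≤ 1 / 2 := by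
    rw [hε, mul_one_div, div_le_iff₀ hden]
    nlinarith
  have hεL2 : (7 + 2 * L) * (72 * ε) < 1 := by
    have : (7 + 2 * L) * (72 * ε) = 72 * (7 + 2 * L) * ε := by ring
    rw [this, hε, mul_one_div, div_lt_iff₀ hden]
    nlinarith
  -- the alternatives for the relations
  have hBC' : ∀ᶠ p in FF, P p.1 0 = Q p.2 0 →
      BC ((β 0).eval (P p.1 0)) ((β 1).eval (P p.1 0)) ((β 2).eval (P p.1 0))
        ((γ 0).eval (P p.1 0)) ((γ 1).eval (P p.1 0)) ((γ 2).eval (P p.1 0)) ε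
        (P p.1 1) (P p.1 2) (Q p.2 1) (Q p.2 2) := by
    rcases hBC with ⟨hβ, hγ⟩ | ⟨hβ, hγ⟩
    · refine Filter.Eventually.of_forall fun p _ => Or.inl ?_
      simp only [hβ, hγ, Polynomial.eval_zero, and_self]
    · obtain ⟨hβP, hβQ⟩ := hβ ε hε0
      rcases hγ with hγ | hγ
      · filter_upwards [ev_fst hβP, ev_snd hβQ] with p e1 e2 hp
        refine Or.inr ⟨e1, ?_, Or.inl ?_⟩
        · rw [hp]
          exact e2
        · simp only [hγ, Polynomial.eval_zero, and_self]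
      · obtain ⟨hγP, hγQ⟩ := hγ ε hε0
        filter_upwards [ev_fst hβP, ev_snd hβQ, ev_fst hγP, ev_snd hγQ] with p e1 e2 e3 e4 hp
        refine Or.inr ⟨e1, ?_, Or.inr ⟨e3, ?_⟩⟩
        · rw [hp]
          exact e2
        · rw [hp]
          exact e4
  have hx0 : Tendsto (fun t => P t 0) (𝓝[>] 0) (𝓝 0) := by
    have := c.hP.tendsto_eval (X 0)
    simpa using this
  have hxδ : ∀ᶠ t in 𝓝[>] (0 : ℝ), P t 0 < δ := hx0.eventually (eventually_lt_nhds hδ)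
  refine (hm.and_eventually (((ev_fst (evM c.hf p1 p2 mP hε0)).and
    (ev_snd (evM c.hfQ q1 q2 mQ hε0))).and (((ev_fst (fP ε hε0)).and
    (ev_snd (fQ ε hε0))).and ((hBC'.and ((ev_fst p0).and (ev_fst hxδ))).and
    ((ev_fst (c.hP.norm_ev (show (0 : ℝ) < 1 / 4 by norm_num))).and
      (ev_snd (c.hQ.norm_ev (show (0 : ℝ) < 1 / 4 by norm_num)))))))).mono ?_
  rintro p ⟨em, ⟨eMP, eMQ⟩, ⟨eP, eQ⟩, ⟨eBC, ex0, exδ⟩, enP, enQ⟩
  simp only [eval_X] at em ex0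
  have hBCp := eBC em
  obtain ⟨hA2, hF2⟩ := hKδ _ ⟨ex0, exδ⟩
  rw [← em] at eQ eMQ
  rcases le_total (P p.1 1) (Q p.2 1) with hle | hle
  · exact conn3 d hK0 hε0 hε1 hεL hεL2 hL enP.le enQ.le em.symm hle hA2 hF2 eP eQ hBCp eMP eMQ
  · have hBCq : BC ((β 0).eval (P p.1 0)) ((β 1).eval (P p.1 0)) ((β 2).eval (P p.1 0))
        ((γ 0).eval (P p.1 0)) ((γ 1).eval (P p.1 0)) ((γ 2).eval (P p.1 0)) ε
        (Q p.2 1) (Q p.2 2) (P p.1 1) (P p.1 2) := by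
      rcases hBCp with h1 | ⟨h1, h2, h3 | ⟨h3, h4⟩⟩
      · exact Or.inl h1
      · exact Or.inr ⟨h2, h1, Or.inl h3⟩
      · exact Or.inr ⟨h2, h1, Or.inr ⟨h4, h3⟩⟩
    rw [em] at hA2 hF2 eP eQ hBCq eMP eMQ
    exact (conn3 d hK0 hε0 hε1 hεL hεL2 hL enQ.le enP.le em hle hA2 hF2 eQ eP hBCq
      eMQ eMP).symm

end Pool.Agent.SepArc
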