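import Pool.Agent.Lib.MP_1a4606_ag.O3e

/-!
# Arcs and separation (MP_1a4606_ag): arcs of order at most three
-/

set_option autoImplicit false

open Filter Topology MvPolynomial

namespace Pool.Agent.SepArc

lemma lo_zero {R : ℝ → Pt} {g h : Poly} (hg : g = 0) : LO R g h := by
  intro ε hε
  filter_upwards with t
  rw [hg, map_zero, abs_zero]
  positivity

/-- arcs of order three in normal form -/
theorem Ctx.o3_core {f : Poly} {P Q : ℝ → Pt} (c : Ctx f P Q) {N a b : ℕ}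
    (hN : HasOrd P f N) (hx : HasOrd P (X 0) 3)
    (hy : HasOrd P (X 1) a) (hz : HasOrd P (X 2) b) (ha3 : a % 3 ≠ 0)
    (hb3 : b % 3 = (2 * a) % 3) (hab : a < b) (hb2a : b < 2 * a) (hbN : b ≤ N)
    (p0 : FPos P (X 0)) (p1 : FPos P (X 1)) (p2 : FPos P (X 2)) :
    Meets f P Q := by
  rcases lt_or_ge N (2 * a) with hlow | hhigh
  · exact c.o3_seg hN hx hy hz ha3 hb3 hab hbN p0 p1 p2 hlow (by omega)
  have q0 := c.fposQ hN (by omega) hx p0
  have q1 := c.fposQ hN (by omega) hy p1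
  have q2 := c.fposQ hN (by omega) hz p2
  have hyy := hy.pow 2
  have hyz := hy.mul hz
  have hzz := hz.pow 2
  -- first relation
  obtain ⟨α, k1, α0, α1, _⟩ := rel c.hP (N := N) hx hy hz ha3 hb3 hab hyy (by omega)
  have hα0 := α0 (by omega)
  have hα1 := α1 (by omega)
  have k1' : OrdGe P (2 * a + 1) (kap (X 1 ^ 2) α) := k1.mono (by omega)
  have hα2 : HasOrd P (px (α 2) * X 2) (2 * a) := by
    have h1 := ((hyy.sub_ordGe hα0).sub_ordGe hα1).sub_ordGe k1'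
    have : (X 1 : Poly) ^ 2 - px (α 0) - px (α 1) * X 1 - kap (X 1 ^ 2) α = px (α 2) * X 2 := by
      unfold kap
      ring
    rwa [this] at h1
  obtain ⟨la0P, la0Q⟩ := c.both_lo hN hhigh hyy hα0
  obtain ⟨la1P, la1Q⟩ := c.both_lo hN hhigh hyy hα1
  obtain ⟨lk1P, lk1Q⟩ := c.both_lo hN le_rfl hN k1
  obtain ⟨lk1P', lk1Q'⟩ := c.both_lo hN hhigh hyy k1'
  obtain ⟨lzyP, lzyQ⟩ := c.both_lo hN (by omega : a ≤ N) hy (hz.ordGe (by omega : a + 1 ≤ b))
  have hα2pos : FPos P (px (α 2)) := by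
    have h1 : LO P (X 1 ^ 2 - px (α 2) * X 2) (X 1 ^ 2) := by
      have : (X 1 : Poly) ^ 2 - px (α 2) * X 2 = px (α 0) + px (α 1) * X 1 +
          kap (X 1 ^ 2) α := by
        unfold kap
        ring
      rw [this]
      exact (la0P.add la1P).add lk1P'
    filter_upwards [h1 (1 / 2) (by norm_num), p1, p2] with t e1 e2 e3
    rw [map_sub, map_mul, map_pow, eval_X, eval_X] at e1
    rw [eval_X] at e2 e3
    have h2 : 0 < P t 1 ^ 2 := pow_pos e2 2
    rw [abs_of_pos h2] at e1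
    have h3 : 0 < eval (P t) (px (α 2)) * P t 2 := by
      have := (abs_le.mp e1).2
      linarith
    exact pos_of_mul_pos_left h3 e3.le
  -- second relation
  obtain ⟨β, k2, ⟨lb2P, lb2Q⟩, hβ⟩ : ∃ β : Fin 3 → Polynomial ℝ,
      OrdGe P (N + 1) (kap (X 1 * X 2) β) ∧
      (LO P (px (β 2) * X 2) (X 1 * X 2) ∧ LO Q (px (β 2) * X 2) (X 1 * X 2)) ∧
      (((∀ i, β i = 0) ∧ N < a + b) ∨
        ((LO P (px (β 1) * X 1) (X 1 * X 2) ∧ LO Q (px (β 1) * X 1) (X 1 * X 2)) ∧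
          (LO P (px (β 0) - X 1 * X 2) (X 1 * X 2) ∧
            LO Q (px (β 0) - X 1 * X 2) (X 1 * X 2)))) := by
    rcases lt_or_ge N (a + b) with h | h
    · refine ⟨0, ?_, ⟨lo_zero ?_, lo_zero ?_⟩, Or.inl ⟨fun _ => rfl, h⟩⟩
      · rw [kap_zero]
        exact hyz.ordGe (by omega)
      · rw [zero_fn, px_zero, zero_mul]
      · rw [zero_fn, px_zero, zero_mul]
    · obtain ⟨β, k2, _, β1, β2⟩ := rel c.hP (N := N) hx hy hz ha3 hb3 hab hyz (by omega)
      have hβ1 := β1 (by omega)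
      have hβ2 := β2 (by omega)
      have k2' : OrdGe P (a + b + 1) (kap (X 1 * X 2) β) := k2.mono (by omega)
      have hβ0 : OrdGe P (a + b + 1) (px (β 0) - X 1 * X 2) := by
        have : px (β 0) - X 1 * X 2 =
            -(px (β 1) * X 1 + px (β 2) * X 2 + kap (X 1 * X 2) β) := by
          unfold kap
          ring
        rw [this]
        exact ((hβ1.add hβ2).add k2').neg
      exact ⟨β, k2, c.both_lo hN h hyz hβ2, Or.inr ⟨c.both_lo hN h hyz hβ1,
        c.both_lo hN h hyz hβ0⟩⟩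
  -- third relation
  obtain ⟨γ, k3, ⟨lc2P, lc2Q⟩, hγ⟩ : ∃ γ : Fin 3 → Polynomial ℝ,
      OrdGe P (N + 1) (kap (X 2 ^ 2) γ) ∧
      (LO P (px (γ 2) * X 2) (X 2 ^ 2) ∧ LO Q (px (γ 2) * X 2) (X 2 ^ 2)) ∧
      ((∀ i, γ i = 0) ∨ (2 * b ≤ N ∧
        (LO P (px (γ 1) * X 1 - X 2 ^ 2) (X 2 ^ 2) ∧
          LO Q (px (γ 1) * X 1 - X 2 ^ 2) (X 2 ^ 2)))) := by
    rcases lt_or_ge N (2 * b) with h | h
    · refine ⟨0, ?_, ⟨lo_zero ?_, lo_zero ?_⟩, Or.inl fun _ => rfl⟩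
      · rw [kap_zero]
        exact hzz.ordGe (by omega)
      · rw [zero_fn, px_zero, zero_mul]
      · rw [zero_fn, px_zero, zero_mul]
    · obtain ⟨γ, k3, γ0, _, γ2⟩ := rel c.hP (N := N) hx hy hz ha3 hb3 hab hzz (by omega)
      have hγ0 := γ0 (by omega)
      have hγ2 := γ2 (by omega)
      have k3' : OrdGe P (2 * b + 1) (kap (X 2 ^ 2) γ) := k3.mono (by omega)
      have hγ1 : OrdGe P (2 * b + 1) (px (γ 1) * X 1 - X 2 ^ 2) := by
        have : px (γ 1) * X 1 - X 2 ^ 2 =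
            -(px (γ 0) + px (γ 2) * X 2 + kap (X 2 ^ 2) γ) := by
          unfold kap
          ring
        rw [this]
        exact ((hγ0.add hγ2).add k3').neg
      exact ⟨γ, k3, c.both_lo hN h hzz hγ2, Or.inr ⟨h, c.both_lo hN h hzz hγ1⟩⟩
  obtain ⟨lk2P, lk2Q⟩ := c.both_lo hN le_rfl hN k2
  obtain ⟨lk3P, lk3Q⟩ := c.both_lo hN le_rfl hN k3
  obtain ⟨F, h, d⟩ := dec_exists α β γ f
  obtain ⟨⟨i, mP, mQ⟩, hF2⟩ := c.main_term hN hx hy hz ha3 hb3 d k1 k2 k3
  refine c.o3_fin d p0 q0 p1 p2 q1 q2 mP mQ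
    (xfacts c.hP hx p0 hz hα2 hα2pos hhigh hF2)
    (fun ε hε => evF c.hf p1 p2 lzyP la0P la1P lk1P lk1P' lk2P lk3P lb2P lc2P hε)
    (fun ε hε => evF c.hfQ q1 q2 lzyQ la0Q la1Q lk1Q lk1Q' lk2Q lk3Q lb2Q lc2Q hε) ?_
  rcases hβ with ⟨hβ, hab'⟩ | ⟨⟨lb1P, lb1Q⟩, ⟨lb0P, lb0Q⟩⟩
  · left
    refine ⟨hβ, ?_⟩
    rcases hγ with hγ | ⟨hγ, _⟩
    · exact hγ
    · omega
  · right
    refine ⟨fun ε hε => ⟨evB p1 p2 lb1P lb0P hε, evB q1 q2 lb1Q lb0Q hε⟩, ?_⟩
    rcases hγ with hγ | ⟨_, lc1P, lc1Q⟩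
    · exact Or.inl hγ
    · exact Or.inr fun ε hε => ⟨evC p2 lc1P hε, evC q2 lc1Q hε⟩

/-- choice of signs -/
theorem Ctx.o3_sign {f : Poly} {P Q : ℝ → Pt} (c : Ctx f P Q) {N a b : ℕ}
    (hN : HasOrd P f N) (hx : HasOrd P (X 0) 3)
    (hy : HasOrd P (X 1) a) (hz : HasOrd P (X 2) b) (ha3 : a % 3 ≠ 0)
    (hb3 : b % 3 = (2 * a) % 3) (hab : a < b) (hb2a : b < 2 * a) (hbN : b ≤ N) :
    Meets f P Q := by
  have hsg : ∀ i : Fin 3, ∃ r : ℝ, r ≠ 0 ∧ FPos P (C r * X i) := by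
    intro i
    have hi : ∃ m, HasOrd P (X i) m := by
      fin_cases i
      · exact ⟨3, hx⟩
      · exact ⟨a, hy⟩
      · exact ⟨b, hz⟩
    obtain ⟨m, hm⟩ := hi
    rcases hm.sign with ⟨A, hA, h1⟩ | ⟨A, hA, h1⟩
    · refine ⟨1, one_ne_zero, ?_⟩
      filter_upwards [h1, pos_ev] with t e1 e2
      rw [map_mul, eval_C, one_mul]
      have : 0 < A * t ^ m := by positivity
      linarith
    · refine ⟨-1, by norm_num, ?_⟩
      filter_upwards [h1, pos_ev] with t e1 e2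
      rw [map_mul, eval_C]
      have : 0 < A * t ^ m := by positivity
      linarith
  choose r hr hr' using hsg
  have hc := cc_scale r hr
  have tr : ∀ (i : Fin 3) (m : ℕ), HasOrd P (X i) m →
      HasOrd (fun t => app (fun i => C (r i) * X i) (P t)) (X i) m := by
    intro i m hm
    apply HasOrd.map
    rw [bind₁_X_right]
    exact hm.smul (hr i)
  have trp : ∀ i : Fin 3, FPos (fun t => app (fun i => C (r i) * X i) (P t)) (X i) := by
    intro i
    filter_upwards [hr' i] with t ht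
    rw [eval_app, bind₁_X_right]
    exact ht
  exact ((c.map hc).o3_core (hasOrd_back hc hN) (tr 0 3 hx) (tr 1 a hy) (tr 2 b hz) ha3 hb3 hab
    hb2a hbN (trp 0) (trp 1) (trp 2)).map_back hc

/-- shears preserve the orders of the other coordinates -/
lemma shear_ord {P : ℝ → Pt} {i j : Fin 3} (hij : i ≠ j) (φ : Poly) {m : ℕ}
    (h : HasOrd P (X i) m) :
    HasOrd (fun t => app (Function.update X j (X j + φ)) (P t)) (X i) m := by
  apply HasOrd.map
  rw [bind₁_X_right, Function.update_of_ne hij]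
  exact h

lemma shear_ord_self {P : ℝ → Pt} {j : Fin 3} {φ : Poly} {m : ℕ}
    (h : HasOrd P (X j + φ) m) :
    HasOrd (fun t => app (Function.update X j (X j + φ)) (P t)) (X j) m := by
  apply HasOrd.map
  rw [bind₁_X_right, Function.update_self]
  exact h

/-- second reduction of the last coordinate -/
theorem Ctx.o3_red2 {f : Poly} {P Q : ℝ → Pt} (c : Ctx f P Q) {N a b : ℕ}
    (hN : HasOrd P f N) (hx : HasOrd P (X 0) 3)
    (hy : HasOrd P (X 1) a) (hz : HasOrd P (X 2) b) (ha3 : a % 3 ≠ 0) (hb1 : 1 ≤ b)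
    (hab : a ≤ b) : Meets f P Q := by
  obtain ⟨w, ⟨p0, p1, p2, hw⟩, h1, h2⟩ := red c.hP (Sp (X 1) (X 1 ^ 2)) (sp_zero _ _)
    (sp_add _ _) (sp_smul _ _) (N + 1)
    (fun m => m % 3 = 0 ∨ m % 3 = a % 3 ∨ (m % 3 = (2 * a) % 3 ∧ 2 * a ≤ m)) (N + 1) b (by omega)
    (fun n hM hn _ => by
      obtain ⟨s0, s1, s2⟩ := sp_ord (P := P) (u := X 1) (v := X 1 ^ 2) hx
      rcases hM with h | h | ⟨h, h'⟩
      · obtain ⟨k, hk⟩ : ∃ k, n = 3 * k := ⟨n / 3, by omega⟩
        rw [hk]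
        exact s0 k
      · obtain ⟨k, hk⟩ : ∃ k, n = 3 * k + a := ⟨(n - a) / 3, by omega⟩
        rw [hk]
        exact s1 a hy k
      · obtain ⟨k, hk⟩ : ∃ k, n = 3 * k + 2 * a := ⟨(n - 2 * a) / 3, by omega⟩
        rw [hk]
        exact s2 (2 * a) (hy.pow 2) k) (X 2) (hz.ordGe le_rfl)
  have hw0 : eval 0 w = 0 := eval_zero_of_ordGe c.hP (h1.mono hb1)
  have h2ne0 : (2 : Fin 3) ≠ 0 := by decide
  have h12 : (1 : Fin 3) ≠ 2 := by decide
  rcases h2 with h2 | ⟨b', hb', hb'N, hnM, h3⟩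
  · refine c.surf (h := X 2 - w) ?_ 2 ?_ (lo_of_ord h2 hN)
    · rw [map_sub, hw0, eval_X]
      simp
    · have e2 : pderiv 2 (X 2 - w) = 1 := by
        rw [hw]
        simp only [map_sub, map_add, Derivation.leibniz, Derivation.leibniz_pow,
          pderiv_px h2ne0, pderiv_X_self, pderiv_X_of_ne h12]
        simp
      rw [e2]
      simp
  · have hfree : Free 2 (-w) := by
      apply Free.neg
      rw [hw]
      have hX1 : Free 2 (X 1) := free_X h12
      have hX1' : Free 2 (X 1 ^ 2) := by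
        rw [pow_two]
        exact hX1.mul hX1
      exact ((free_px h2ne0 p0).add ((free_px h2ne0 p1).mul hX1)).add
        ((free_px h2ne0 p2).mul hX1')
    have hc := cc_shear hfree (by rw [map_neg, hw0, neg_zero])
    have e3 : (X 2 : Poly) - w = X 2 + -w := by ring
    rw [e3] at h3
    have hb3 : b' % 3 = (2 * a) % 3 := by omega
    exact ((c.map hc).o3_sign (hasOrd_back hc hN) (shear_ord (by decide) _ hx)
      (shear_ord h12 _ hy) (shear_ord_self h3) ha3 hb3 (by omega) (by omega)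
      (by omega)).map_back hc

/-- swap -/
theorem Ctx.o3_swap {f : Poly} {P Q : ℝ → Pt} (c : Ctx f P Q) {N a b : ℕ}
    (hN : HasOrd P f N) (hx : HasOrd P (X 0) 3)
    (hy : HasOrd P (X 1) a) (hz : HasOrd P (X 2) b) (ha3 : a % 3 ≠ 0) (hb3 : b % 3 ≠ 0) :
    Meets f P Q := by
  rcases le_total a b with h | h
  · exact c.o3_red2 hN hx hy hz ha3 (by omega) h
  · have hc := cc_perm (Equiv.swap (1 : Fin 3) 2)
    have tr : ∀ (i : Fin 3) (m : ℕ), HasOrd P (X (Equiv.swap (1 : Fin 3) 2 i)) m →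
        HasOrd (fun t => app (fun i => X (Equiv.swap (1 : Fin 3) 2 i)) (P t)) (X i) m := by
      intro i m hm
      apply HasOrd.map
      rw [bind₁_X_right]
      exact hm
    exact ((c.map hc).o3_red2 (hasOrd_back hc hN) (tr 0 3 hx) (tr 1 b hz) (tr 2 a hy) hb3
      (by omega) h).map_back hc

/-- **Arcs with a coordinate of order three** -/
theorem Ctx.o3 {f : Poly} {P Q : ℝ → Pt} (c : Ctx f P Q) (hx : HasOrd P (X 0) 3) :
    Meets f P Q := by
  obtain ⟨N, hN⟩ := c.hf.hasOrd c.hP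
  have h1ne0 : (1 : Fin 3) ≠ 0 := by decide
  have h2ne0 : (2 : Fin 3) ≠ 0 := by decide
  rcases c.red_coord hN hx h1ne0 with h | ⟨p, a, _, _, ha, hp0, hp⟩
  · exact h
  have hc := cc_shear (j := 1) (φ := -px p) (free_px h1ne0 p).neg
    (by rw [map_neg, eval_px]; simp [hp0])
  have e3 : (X 1 : Poly) - px p = X 1 + -px p := by ring
  rw [e3] at hp
  refine Meets.map_back hc ?_
  have c' := c.map hc
  have hN' := hasOrd_back hc hN
  have hx' := shear_ord (P := P) (i := 0) (j := 1) (by decide) (-px p) hx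
  have hy' := shear_ord_self hp
  rcases c'.red_coord hN' hx' h2ne0 with h | ⟨q, b, _, _, hb, hq0, hq⟩
  · exact h
  have hc2 := cc_shear (j := 2) (φ := -px q) (free_px h2ne0 q).neg
    (by rw [map_neg, eval_px]; simp [hq0])
  have e4 : (X 2 : Poly) - px q = X 2 + -px q := by ring
  rw [e4] at hq
  refine Meets.map_back hc2 ?_
  exact (c'.map hc2).o3_swap (hasOrd_back hc2 hN') (shear_ord (by decide) _ hx')
    (shear_ord (by decide) _ hy') (shear_ord_self hq) (by omega) (by omega)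

/-- **Arcs with a coordinate of order at most three** -/
theorem Ctx.ord_le_three {f : Poly} {P Q : ℝ → Pt} (c : Ctx f P Q) {i : Fin 3} {m : ℕ}
    (hm : m ≤ 3) (hx : HasOrd P (X i) m) : Meets f P Q := by
  have hm1 : 1 ≤ m := hx.le_of_ordGe (c.hP.ordGe_one (by simp))
  have hc := cc_perm (Equiv.swap 0 i)
  refine Meets.map_back hc ?_
  have c' := c.map hc
  have hx' : HasOrd (fun t => app (fun k => X (Equiv.swap 0 i k)) (P t)) (X 0) m := by
    apply HasOrd.map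
    rw [bind₁_X_right, Equiv.swap_apply_left]
    exact hx
  have hcase : m = 1 ∨ m = 2 ∨ m = 3 := by omega
  rcases hcase with rfl | rfl | rfl
  · exact c'.o1 hx'
  · exact c'.o2 hx'
  · exact c'.o3 hx'

end Pool.Agent.SepArc
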