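import Pool.Agent.Lib.MP_1a4606_ag.BF

/-!
# Arcs and separation (MP_1a4606_ag): arcs close to a plane
-/

set_option autoImplicit false

open Filter Topology MvPolynomial

namespace Pool.Agent.SepArc

lemma FF_ev {Φ : ℝ × ℝ → Prop} (h : ∀ᶠ p in FF, Φ p) :
    ∃ δ > (0 : ℝ), ∀ s ∈ Set.Ioo (0 : ℝ) δ, ∀ t ∈ Set.Ioo (0 : ℝ) δ, Φ (s, t) := by
  obtain ⟨S, hS, T, hT, hST⟩ := Filter.mem_prod_iff.mp h
  obtain ⟨δ₁, hδ₁, h1⟩ := mem_nhdsGT_iff_exists_Ioo_subset.mp hS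
  obtain ⟨δ₂, hδ₂, h2⟩ := mem_nhdsGT_iff_exists_Ioo_subset.mp hT
  refine ⟨min δ₁ δ₂, lt_min hδ₁ hδ₂, fun s hs t ht => ?_⟩
  exact hST ⟨h1 ⟨hs.1, hs.2.trans_le (min_le_left _ _)⟩, h2 ⟨ht.1, ht.2.trans_le (min_le_right _ _)⟩⟩

lemma ev_pos_iff {Φ : ℝ → Prop} (h : ∀ᶠ t in 𝓝[>] (0 : ℝ), Φ t) :
    ∃ δ > (0 : ℝ), ∀ t ∈ Set.Ioo (0 : ℝ) δ, Φ t := by
  obtain ⟨δ₁, hδ₁, h1⟩ := mem_nhdsGT_iff_exists_Ioo_subset.mp h
  exact ⟨δ₁, hδ₁, fun t ht => h1 ht⟩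

lemma ev_fst {Φ : ℝ → Prop} (h : ∀ᶠ t in 𝓝[>] (0 : ℝ), Φ t) : ∀ᶠ p in FF, Φ p.1 :=
  h.prod_inl _

lemma ev_snd {Φ : ℝ → Prop} (h : ∀ᶠ t in 𝓝[>] (0 : ℝ), Φ t) : ∀ᶠ p in FF, Φ p.2 :=
  h.prod_inr _

lemma IsArc.norm_ev {P : ℝ → Pt} (hP : IsArc P) {δ : ℝ} (hδ : 0 < δ) :
    ∀ᶠ t in 𝓝[>] (0 : ℝ), ‖P t‖ < δ := by
  have h1 : Tendsto (fun t => ‖P t‖) (𝓝[>] 0) (𝓝 ‖(0 : Pt)‖) := hP.lim.norm
  rw [norm_zero] at h1
  exact h1.eventually (eventually_lt_nhds hδ)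

lemma continuous_eval_poly (u : Poly) : Continuous (fun x : Pt => eval x u) :=
  MvPolynomial.continuous_eval u

lemma IsArc.tendsto_eval {P : ℝ → Pt} (hP : IsArc P) (u : Poly) :
    Tendsto (fun t => eval (P t) u) (𝓝[>] 0) (𝓝 (eval 0 u)) :=
  ((continuous_eval_poly u).tendsto 0).comp hP.lim

/-- matching of the values of a polynomial on two arcs -/
lemma matching {P Q : ℝ → Pt} (hP : IsArc P) (hQ : IsArc Q) (u : Poly) (h0 : eval 0 u = 0)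
    (hu : FPos P u) (hv : FPos Q u) : ∃ᶠ p in FF, eval (P p.1) u = eval (Q p.2) u := by
  intro hcon
  obtain ⟨δ, hδ, h1⟩ := FF_ev hcon
  obtain ⟨ε, hε, hc⟩ := hQ.cont
  obtain ⟨δ', hδ', h2⟩ := ev_pos_iff hv
  -- choose the big parameter for `Q`
  set t₁ := min δ (min ε δ') / 2 with ht₁
  have hm : 0 < min δ (min ε δ') := lt_min hδ (lt_min hε hδ')
  have ht₁0 : 0 < t₁ := by positivity
  have ht₁m : t₁ < min δ (min ε δ') := by rw [ht₁]; linarith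
  have ht₁δ : t₁ < δ := ht₁m.trans_le (min_le_left _ _)
  have ht₁ε : t₁ < ε := ht₁m.trans_le ((min_le_right _ _).trans (min_le_left _ _))
  have ht₁δ' : t₁ < δ' := ht₁m.trans_le ((min_le_right _ _).trans (min_le_right _ _))
  have hv1 : 0 < eval (Q t₁) u := h2 t₁ ⟨ht₁0, ht₁δ'⟩
  -- choose the parameter for `P`
  have hPt := hP.tendsto_eval u
  have hQt := hQ.tendsto_eval u
  rw [h0] at hPt hQt
  have e1 := hPt.eventually (eventually_lt_nhds hv1)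
  obtain ⟨s, hs1, hs2, hs3, hs4⟩ := (e1.and (hu.and (pos_ev.and (lt_ev hδ)))).exists
  have e2 := hQt.eventually (eventually_lt_nhds hs2)
  obtain ⟨t₂, h3, h4, h5⟩ := (e2.and (pos_ev.and (lt_ev ht₁0))).exists
  have hcQ : ContinuousOn (fun t => eval (Q t) u) (Set.Icc t₂ t₁) := by
    apply (continuous_eval_poly u).comp_continuousOn
    exact hc.mono (fun t ht => ⟨h4.trans_le ht.1, ht.2.trans_lt ht₁ε⟩)
  obtain ⟨t, ht, hte⟩ := intermediate_value_Icc h5.le hcQ ⟨h3.le, hs1.le⟩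
  exact h1 s ⟨hs3, hs4⟩ t ⟨h4.trans_le ht.1, ht.2.trans_lt ht₁δ⟩ hte.symm

/-- uniform constants in the trichotomy -/
lemma unif_trich {f : Poly} {P Q : ℝ → Pt} (hP : IsArc P) (hQ : IsArc Q) (hf : FPos P f)
    (hfQ : FPos Q f) (h : ¬ Sep f P Q) (G : ℕ → Poly) (n : ℕ) :
    ∃ c > (0 : ℝ), ∀ k < n, (LO P (G k) f ∧ LO Q (G k) f) ∨
      ((∀ᶠ t in 𝓝[>] (0 : ℝ), c * eval (P t) f ≤ eval (P t) (G k)) ∧
        (∀ᶠ t in 𝓝[>] (0 : ℝ), c * eval (Q t) f ≤ eval (Q t) (G k))) ∨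
      ((∀ᶠ t in 𝓝[>] (0 : ℝ), c * eval (P t) f ≤ -eval (P t) (G k)) ∧
        (∀ᶠ t in 𝓝[>] (0 : ℝ), c * eval (Q t) f ≤ -eval (Q t) (G k))) := by
  induction n with
  | zero => exact ⟨1, one_pos, fun k hk => absurd hk (Nat.not_lt_zero k)⟩
  | succ n ih =>
    obtain ⟨c, hc, h1⟩ := ih
    have shrink : ∀ {R : ℝ → Pt} {g : ℝ → ℝ} {a b : ℝ}, FPos R f → a ≤ b →
        (∀ᶠ t in 𝓝[>] (0 : ℝ), b * eval (R t) f ≤ g t) →
        (∀ᶠ t in 𝓝[>] (0 : ℝ), a * eval (R t) f ≤ g t) := by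
      intro R g a b hR hab hb
      filter_upwards [hR, hb] with t h2 h3
      exact (mul_le_mul_of_nonneg_right hab h2.le).trans h3
    have step : ∃ d > (0 : ℝ), (LO P (G n) f ∧ LO Q (G n) f) ∨
      ((∀ᶠ t in 𝓝[>] (0 : ℝ), d * eval (P t) f ≤ eval (P t) (G n)) ∧
        (∀ᶠ t in 𝓝[>] (0 : ℝ), d * eval (Q t) f ≤ eval (Q t) (G n))) ∨
      ((∀ᶠ t in 𝓝[>] (0 : ℝ), d * eval (P t) f ≤ -eval (P t) (G n)) ∧
        (∀ᶠ t in 𝓝[>] (0 : ℝ), d * eval (Q t) f ≤ -eval (Q t) (G n))) := by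
      rcases ns_trich hP hQ hf hfQ h (G n) with h2 | ⟨⟨d, hd, h2⟩, ⟨e, he, h3⟩⟩ |
        ⟨⟨d, hd, h2⟩, ⟨e, he, h3⟩⟩
      · exact ⟨1, one_pos, Or.inl h2⟩
      · exact ⟨min d e, lt_min hd he, Or.inr (Or.inl ⟨shrink hf (min_le_left _ _) h2,
          shrink hfQ (min_le_right _ _) h3⟩)⟩
      · refine ⟨min d e, lt_min hd he, Or.inr (Or.inr ⟨shrink hf (min_le_left _ _) ?_,
          shrink hfQ (min_le_right _ _) ?_⟩)⟩
        · filter_upwards [h2] with t ht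
          rwa [map_neg] at ht
        · filter_upwards [h3] with t ht
          rwa [map_neg] at ht
    obtain ⟨d, hd, h2⟩ := step
    refine ⟨min c d, lt_min hc hd, fun k hk => ?_⟩
    rcases Nat.lt_succ_iff_lt_or_eq.mp hk with hk | rfl
    · rcases h1 k hk with h3 | ⟨h3, h4⟩ | ⟨h3, h4⟩
      · exact Or.inl h3
      · exact Or.inr (Or.inl ⟨shrink hf (min_le_left _ _) h3, shrink hfQ (min_le_left _ _) h4⟩)
      · exact Or.inr (Or.inr ⟨shrink hf (min_le_left _ _) h3, shrink hfQ (min_le_left _ _) h4⟩)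
    · rcases h2 with h3 | ⟨h3, h4⟩ | ⟨h3, h4⟩
      · exact Or.inl h3
      · exact Or.inr (Or.inl ⟨shrink hf (min_le_right _ _) h3, shrink hfQ (min_le_right _ _) h4⟩)
      · exact Or.inr (Or.inr ⟨shrink hf (min_le_right _ _) h3, shrink hfQ (min_le_right _ _) h4⟩)

/-- points on the arcs which can be slid to a common line are connected -/
lemma conn_of_targets {f : Poly} {P Q : ℝ → Pt} (hP : IsArc P) (hQ : IsArc Q) (hf : FPos P f)
    (hfQ : FPos Q f) (h : ¬ Sep f P Q) (j : Fin 3) :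
    ∃ ε > (0 : ℝ), ∀ᶠ p in FF, ∀ p' q' : Pt, (∀ i, i ≠ j → p' i = q' i) →
      ‖P p.1 - p'‖ ≤ ε * eval (P p.1) f → ‖Q p.2 - q'‖ ≤ ε * eval (Q p.2) f →
      Conn f (P p.1) (Q p.2) := by
  obtain ⟨n, hn⟩ := exists_iterate_pderiv j f
  obtain ⟨c, hc, h1⟩ := unif_trich hP hQ hf hfQ h (fun k => (pderiv j)^[k] f) n
  obtain ⟨ε, hε, h2⟩ := slice f j c hc
  refine ⟨ε, hε, ?_⟩
  have h3 : ∀ k < n, ∀ᶠ p in FF, (|eval (P p.1) ((pderiv j)^[k] f)| ≤ ε * eval (P p.1) f ∧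
        |eval (Q p.2) ((pderiv j)^[k] f)| ≤ ε * eval (Q p.2) f) ∨
      (c * eval (P p.1) f ≤ eval (P p.1) ((pderiv j)^[k] f) ∧
        c * eval (Q p.2) f ≤ eval (Q p.2) ((pderiv j)^[k] f)) ∨
      (c * eval (P p.1) f ≤ -eval (P p.1) ((pderiv j)^[k] f) ∧
        c * eval (Q p.2) f ≤ -eval (Q p.2) ((pderiv j)^[k] f)) := by
    intro k hk
    rcases h1 k hk with ⟨h3, h4⟩ | ⟨h3, h4⟩ | ⟨h3, h4⟩
    · filter_upwards [ev_fst (h3 ε hε), ev_snd (h4 ε hε), ev_fst hf, ev_snd hfQ]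
        with p e1 e2 e3 e4
      rw [abs_of_pos e3] at e1
      rw [abs_of_pos e4] at e2
      exact Or.inl ⟨e1, e2⟩
    · filter_upwards [ev_fst h3, ev_snd h4] with p e1 e2
      exact Or.inr (Or.inl ⟨e1, e2⟩)
    · filter_upwards [ev_fst h3, ev_snd h4] with p e1 e2
      exact Or.inr (Or.inr ⟨e1, e2⟩)
  have h4 : ∀ᶠ p in FF, ∀ k ∈ Finset.range n,
      (|eval (P p.1) ((pderiv j)^[k] f)| ≤ ε * eval (P p.1) f ∧
        |eval (Q p.2) ((pderiv j)^[k] f)| ≤ ε * eval (Q p.2) f) ∨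
      (c * eval (P p.1) f ≤ eval (P p.1) ((pderiv j)^[k] f) ∧
        c * eval (Q p.2) f ≤ eval (Q p.2) ((pderiv j)^[k] f)) ∨
      (c * eval (P p.1) f ≤ -eval (P p.1) ((pderiv j)^[k] f) ∧
        c * eval (Q p.2) f ≤ -eval (Q p.2) ((pderiv j)^[k] f)) := by
    rw [Filter.eventually_all_finset]
    intro k hk
    exact h3 k (Finset.mem_range.mp hk)
  filter_upwards [h4, ev_fst (hP.norm_ev (show (0 : ℝ) < 1 / 2 by norm_num)),
    ev_snd (hQ.norm_ev (show (0 : ℝ) < 1 / 2 by norm_num)), ev_fst hf, ev_snd hfQ]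
    with p e1 e2 e3 e4 e5
  intro p' q' hpq hp hq
  refine h2 _ _ p' q' e2.le e3.le hpq e4 e5 hp hq ?_
  intro k _
  by_cases hk : k < n
  · exact e1 k (Finset.mem_range.mpr hk)
  · left
    have : (pderiv j)^[k] f = 0 := by
      obtain ⟨m, rfl⟩ := Nat.exists_eq_add_of_le' (not_lt.mp hk)
      rw [Function.iterate_add_apply, hn, iterate_pderiv_zero]
    rw [this, map_zero, map_zero, abs_zero]
    constructor <;> positivity

lemma norm_sub_update (p : Pt) (j : Fin 3) (a : ℝ) : ‖p - Function.update p j a‖ ≤ |p j - a| := by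
  rw [pi_norm_le_iff_of_nonneg (abs_nonneg _)]
  intro i
  by_cases h : i = j
  · subst h
    simp
  · simp [h]

/-- **Arcs close to a coordinate plane** -/
theorem t1 {f : Poly} {P Q : ℝ → Pt} (hP : IsArc P) (hQ : IsArc Q) (hf : FPos P f)
    (hfQ : FPos Q f) (h : ¬ Sep f P Q) (hz : LO P (X 2) f) : Meets f P Q := by
  have hzQ : LO Q (X 2) f := ns_lo hQ hf hfQ h (pos_self P f) hz
  obtain ⟨ε, hε, h1⟩ := conn_of_targets hP hQ hf hfQ h 1
  have hzP' : ∀ᶠ t in 𝓝[>] (0 : ℝ), |P t 2| ≤ ε * eval (P t) f := by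
    filter_upwards [hz ε hε, hf] with t e1 e2
    rwa [eval_X, abs_of_pos e2] at e1
  have hzQ' : ∀ᶠ t in 𝓝[>] (0 : ℝ), |Q t 2| ≤ ε * eval (Q t) f := by
    filter_upwards [hzQ ε hε, hfQ] with t e1 e2
    rwa [eval_X, abs_of_pos e2] at e1
  have matched : (∃ᶠ p in FF, P p.1 0 = Q p.2 0) → Meets f P Q := by
    intro hm
    refine (hm.and_eventually (h1.and ((ev_fst hzP').and (ev_snd hzQ')))).mono ?_
    rintro p ⟨e1, e2, e3, e4⟩
    refine e2 (Function.update (P p.1) 2 0) (Function.update (Q p.2) 2 0) ?_ ?_ ?_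
    · intro i hi
      fin_cases i
      · simpa using e1
      · exact absurd rfl hi
      · simp
    · refine (norm_sub_update _ _ _).trans ?_
      rwa [sub_zero]
    · refine (norm_sub_update _ _ _).trans ?_
      rwa [sub_zero]
  rcases ns_trich hP hQ hf hfQ h (X 0) with ⟨h2, h3⟩ | ⟨h2, h3⟩ | ⟨h2, h3⟩
  · have hxP' : ∀ᶠ t in 𝓝[>] (0 : ℝ), |P t 0| ≤ ε * eval (P t) f := by
      filter_upwards [h2 ε hε, hf] with t e1 e2
      rwa [eval_X, abs_of_pos e2] at e1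
    have hxQ' : ∀ᶠ t in 𝓝[>] (0 : ℝ), |Q t 0| ≤ ε * eval (Q t) f := by
      filter_upwards [h3 ε hε, hfQ] with t e1 e2
      rwa [eval_X, abs_of_pos e2] at e1
    apply Filter.Eventually.frequently
    filter_upwards [h1, ev_fst hzP', ev_snd hzQ', ev_fst hxP', ev_snd hxQ', ev_fst hf,
      ev_snd hfQ] with p e1 e2 e3 e4 e5 e6 e7
    refine e1 (fun i => if i = 1 then P p.1 1 else 0) (fun i => if i = 1 then Q p.2 1 else 0)
      ?_ ?_ ?_
    · intro i hi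
      simp [hi]
    · rw [pi_norm_le_iff_of_nonneg (by positivity)]
      intro i
      fin_cases i
      · simpa using e4
      · simp only [Pi.sub_apply]
        simp
        positivity
      · simpa using e2
    · rw [pi_norm_le_iff_of_nonneg (by positivity)]
      intro i
      fin_cases i
      · simpa using e5
      · simp only [Pi.sub_apply]
        simp
        positivity
      · simpa using e3
  · apply matched
    have := matching hP hQ (X 0) (by simp) (h2.ev_pos hf) (h3.ev_pos hfQ)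
    simpa using this
  · apply matched
    have := matching hP hQ (-X 0) (by simp) (h2.ev_pos hf) (h3.ev_pos hfQ)
    simpa using this

end Pool.Agent.SepArc
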